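import Pool.Agent.Q23.MV.Gam

/-!
# Criteria for the independence of the indicator functions of the sets `{z : k_i·z ∈ y_i + ℤ}`
-/

set_option autoImplicit false

open Set Filter Topology NumberField

namespace Pool.Agent.Q23.MV

/-- a generic point of the hyperplane `k₀·z = y₀` -/
theorem generic_pt {X : Type} [Fintype X] [DecidableEq X] {r : ℕ} (k : Fin r → X → ℚ) (y : Fin r → ℂ)
    (k₀ : X → ℚ) (hk₀ : k₀ ≠ 0) (y₀ : ℂ) :
    ∃ z : X → ℂ, ∑ j, (k₀ j : ℂ) * z j = y₀ ∧
      ∀ i, (∀ lam : ℚ, k i ≠ lam • k₀) → ∀ n : ℤ, ∑ j, (k i j : ℂ) * z j ≠ y i + n := by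
  classical
  set N : ℚ := ∑ j, k₀ j * k₀ j with hN
  have hN0 : N ≠ 0 := by
    intro h0
    apply hk₀
    funext j
    have h1 : k₀ j * k₀ j ≤ 0 := by
      rw [← h0]
      exact Finset.single_le_sum (f := fun j => k₀ j * k₀ j) (fun j _ => mul_self_nonneg _) (Finset.mem_univ j)
    exact mul_self_eq_zero.1 (le_antisymm h1 (mul_self_nonneg _))
  have hNC : (N : ℂ) ≠ 0 := by exact_mod_cast hN0
  let lam : Fin r → ℚ := fun i => (∑ j, k i j * k₀ j) / N
  -- a point off countably many hyperplanes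
  have h1 : ∃ w : X → ℂ, ∀ i : {i : Fin r // k i ≠ lam i • k₀} × ℤ,
      ∑ j, ((k i.1.1 j : ℂ) - lam i.1.1 * k₀ j) * w j ≠ y i.1.1 + i.2 - lam i.1.1 * y₀ := by
    by_contra hcon
    push Not at hcon
    have h2 := dense_hyp (X := X) univ isOpen_univ univ_nonempty
      (fun (i : {i : Fin r // k i ≠ lam i • k₀} × ℤ) j => ((k i.1.1 j : ℂ) - lam i.1.1 * k₀ j))
      (fun i h0 => i.1.2 (funext fun j => by
        have h3 := congrFun h0 j
        simp only [Pi.zero_apply] at h3
        rw [Pi.smul_apply, smul_eq_mul]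
        exact_mod_cast sub_eq_zero.1 h3))
      (fun i => y i.1.1 + i.2 - lam i.1.1 * y₀) 1 (fun u _ hu => by
        exfalso
        obtain ⟨i, hi⟩ := hcon u
        exact hu i hi)
    exact one_ne_zero h2
  obtain ⟨w, hw⟩ := h1
  set τ : ℂ := (∑ j, (k₀ j : ℂ) * w j - y₀) / N with hτ
  have hNsum : ∑ j, (k₀ j : ℂ) * k₀ j = N := by
    rw [hN]
    push_cast
    rfl
  have hval : ∀ q : X → ℚ, ∑ j, (q j : ℂ) * (w j - τ * k₀ j) =
      ∑ j, (q j : ℂ) * w j - τ * ∑ j, (q j : ℂ) * k₀ j := by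
    intro q
    rw [Finset.mul_sum, ← Finset.sum_sub_distrib]
    exact Finset.sum_congr rfl fun j _ => by ring
  refine ⟨fun j => w j - τ * k₀ j, ?_, fun i hi n h2 => ?_⟩
  · rw [hval, hNsum, hτ, div_mul_cancel₀ _ hNC]
    ring
  · refine hw (⟨i, hi _⟩, n) ?_
    rw [hval] at h2
    have h3 : ∑ j, (k i j : ℂ) * k₀ j = lam i * N := by
      have h4 : (lam i : ℂ) = (∑ j, (k i j : ℂ) * k₀ j) / N := by
        simp only [lam]
        push_cast
        rfl
      rw [h4, div_mul_cancel₀ _ hNC]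
    rw [h3, hτ] at h2
    have h5 : (∑ j, (k₀ j : ℂ) * w j - y₀) / N * (lam i * N) = lam i * (∑ j, (k₀ j : ℂ) * w j) - lam i * y₀ := by
      field_simp
    rw [h5] at h2
    simp only [sub_mul, Finset.sum_sub_distrib, mul_assoc, ← Finset.mul_sum]
    linear_combination h2

/-- pairwise not proportional, or equal with `y_i - y_j` not an integer -/
theorem indM_of_pairwise {X : Type} [Fintype X] [DecidableEq X] {r : ℕ} (k : Fin r → X → ℚ) (y : Fin r → ℂ)
    (hk : ∀ i, k i ≠ 0)
    (h : ∀ i i', i ≠ i' → (∀ lam : ℚ, k i ≠ lam • k i') ∨ (k i = k i' ∧ ∀ n : ℤ, y i - y i' ≠ n)) : IndM k y := by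
  classical
  intro m hm
  funext i0
  obtain ⟨z, hz1, hz2⟩ := generic_pt k y (k i0) (hk i0) (y i0)
  have h1 := hm z
  rw [Finset.sum_eq_single i0] at h1
  · rw [if_pos ⟨0, by rw [hz1]; simp⟩, mul_one] at h1
    exact h1
  · intro i _ hi
    rw [if_neg, mul_zero]
    rintro ⟨n, hn⟩
    rcases h i i0 hi with h2 | ⟨h2, h3⟩
    · exact hz2 i h2 n hn
    · apply h3 (-n)
      rw [h2, hz1] at hn
      push_cast
      linear_combination -hn
  · intro h
    exact absurd (Finset.mem_univ _) h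

/-- different nonzero vectors of nonnegative integers and `y = 1` -/
theorem indM_nat {X : Type} [Fintype X] [DecidableEq X] {r : ℕ} (k : Fin r → X → ℕ) (hinj : Function.Injective k)
    (hk : ∀ i, k i ≠ 0) : IndM (fun i j => (k i j : ℚ)) (fun _ => (1 : ℂ)) := by
  classical
  intro m hm
  by_contra hne
  have h1 : (Finset.univ.filter fun i : Fin r => m i ≠ 0).Nonempty := by
    by_contra h0
    rw [Finset.not_nonempty_iff_eq_empty, Finset.filter_eq_empty_iff] at h0
    exact hne (funext fun i => not_not.1 (h0 (Finset.mem_univ i)))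
  obtain ⟨i0, hi0, hmax⟩ := Finset.exists_max_image _ (fun i : Fin r => ∑ j, k i j) h1
  rw [Finset.mem_filter] at hi0
  have hkq : (fun j => (k i0 j : ℚ)) ≠ 0 := fun h0 => hk i0 (funext fun j => by
    have h3 : (k i0 j : ℚ) = 0 := congrFun h0 j
    have h4 : k i0 j = 0 := by exact_mod_cast h3
    exact h4)
  obtain ⟨z, hz1, hz2⟩ := generic_pt (fun i j => (k i j : ℚ)) (fun _ => (1 : ℂ)) (fun j => (k i0 j : ℚ)) hkq 1
  have h2 := hm z
  rw [Finset.sum_eq_single i0] at h2
  · rw [if_pos ⟨0, by rw [hz1]; simp⟩, mul_one] at h2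
    exact hi0.2 h2
  · intro i _ hi
    by_cases hmi : m i = 0
    · rw [hmi, zero_mul]
    rw [if_neg, mul_zero]
    rintro ⟨n, hn⟩
    by_cases hprop : ∀ lam : ℚ, (fun j => (k i j : ℚ)) ≠ lam • (fun j => (k i0 j : ℚ))
    · exact hz2 i hprop n hn
    · push Not at hprop
      obtain ⟨lam, hlam⟩ := hprop
      have hj : ∀ j, (k i j : ℚ) = lam * k i0 j := fun j => by
        have := congrFun hlam j
        simpa using this
      have h3 : (lam : ℂ) = 1 + n := by
        rw [← hn]
        have h4 : ∑ j, ((k i j : ℚ) : ℂ) * z j = lam * ∑ j, ((k i0 j : ℚ) : ℂ) * z j := by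
          rw [Finset.mul_sum]
          refine Finset.sum_congr rfl fun j _ => ?_
          rw [hj]
          push_cast
          ring
        rw [h4, hz1, mul_one]
      have h4 : lam = ((1 + n : ℤ) : ℚ) := by exact_mod_cast h3
      -- the sums
      have h5 : (∑ j, k i j : ℚ) = lam * ∑ j, (k i0 j : ℚ) := by
        rw [Finset.mul_sum]
        exact Finset.sum_congr rfl fun j _ => hj j
      have h6 : ((∑ j, k i j : ℕ) : ℤ) = (1 + n) * ((∑ j, k i0 j : ℕ) : ℤ) := by
        rw [h4] at h5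
        exact_mod_cast h5
      have h7 : ∑ j, k i j ≤ ∑ j, k i0 j := hmax i (Finset.mem_filter.2 ⟨Finset.mem_univ _, hmi⟩)
      have hpos : ∀ i, 0 < ∑ j, k i j := by
        intro i
        obtain ⟨j, hj⟩ := Function.ne_iff.1 (hk i)
        exact lt_of_lt_of_le (Nat.pos_of_ne_zero hj)
          (Finset.single_le_sum (f := fun j => k i j) (fun _ _ => Nat.zero_le _) (Finset.mem_univ j))
      have h8 := hpos i
      have h9 := hpos i0
      have h10 : (1 + n) = 1 := by
        have h11 : 0 < (1 + n) := by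
          by_contra h12
          have h13 : (1 + n) * ((∑ j, k i0 j : ℕ) : ℤ) ≤ 0 :=
            mul_nonpos_of_nonpos_of_nonneg (by omega) (by positivity)
          omega
        by_contra h12
        have h13 : 2 * ((∑ j, k i0 j : ℕ) : ℤ) ≤ (1 + n) * ((∑ j, k i0 j : ℕ) : ℤ) :=
          mul_le_mul_of_nonneg_right (by omega) (by positivity)
        omega
      apply hi
      apply hinj
      funext j
      have h11 := hj j
      rw [h4, h10] at h11
      push_cast at h11
      rw [one_mul] at h11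
      exact_mod_cast h11
  · intro h
    exact absurd (Finset.mem_univ _) h

end Pool.Agent.Q23.MV
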