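import Pool.Agent.Q23.MV.Gen
import Pool.Agent.Q23.AQ.EL

/-!
# Exponentials of exponential-logarithmic polynomials in several variables
-/

set_option autoImplicit false

open Set Filter Topology NumberField

namespace Pool.Agent.Q23.MV

open Pool.Agent.TH818.AP Pool.Agent.Y771 Pool.Agent.Y890.MV
open Pool.Agent.Q23.AQ (sc)

theorem el_ind' {κ ρ : Type} [Fintype κ] [DecidableEq κ] [Fintype ρ] {d : ℕ} (τ : ρ → ℝ × ℕ × ℕ)
    (hτ0 : ∀ l, 0 ≤ (τ l).1) (c : κ → ρ → ℝ)
    (hc : ∀ (μ : κ → ℤ) (r : ℤ), (∀ x : ℝ × ℕ × ℕ, x ≠ (0, 0, 0) →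
      ∑ i, (μ i : ℝ) * ∑ l, (if τ l = x then c i l else 0) = if x = (0, 0, 1) then (r : ℝ) else 0) → μ = 0)
    (a b : ℝ) (ha : 0 < a) (hab : a < b) :
    RIndep (fun (e : κ → Fin (d + 1)) (t : ℝ) => ∏ i, (Real.exp (∑ l, c i l * sc (τ l) t)) ^ (e i : ℕ)) a b := by
  classical
  let S : Finset (ℝ × ℕ × ℕ) := Finset.univ.image τ
  have hS : ∀ l, τ l ∈ S := fun l => Finset.mem_image_of_mem _ (Finset.mem_univ l)
  have hzero : ∀ (μ : κ → ℤ) (x : ℝ × ℕ × ℕ), x ∉ S →
      ∑ i, (μ i : ℝ) * ∑ l, (if τ l = x then c i l else 0) = 0 := by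
    intro μ x hx
    refine Finset.sum_eq_zero fun i _ => ?_
    rw [Finset.sum_eq_zero, mul_zero]
    intro l _
    rw [if_neg]
    rintro rfl
    exact hx (hS l)
  have h := AQ.el_ind (κ := κ) (σ := {x // x ∈ S}) (d := d) (fun x => x.1) Subtype.val_injective (by
      rintro ⟨x, hx⟩
      obtain ⟨l, -, rfl⟩ := Finset.mem_image.1 hx
      exact hτ0 l) (fun i x => ∑ l, if τ l = x.1 then c i l else 0) (by
    intro μ r hμ
    by_cases h1 : ((0 : ℝ), 0, 1) ∈ S
    · refine hc μ r fun x hx => ?_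
      by_cases h2 : x ∈ S
      · exact hμ ⟨x, h2⟩ hx
      · rw [hzero μ x h2, if_neg]
        rintro rfl
        exact h2 h1
    · refine hc μ 0 fun x hx => ?_
      have h4 : (if x = ((0 : ℝ), 0, 1) then (((0 : ℤ)) : ℝ) else 0) = 0 := by simp
      rw [h4]
      by_cases h2 : x ∈ S
      · have h3 := hμ ⟨x, h2⟩ hx
        rw [h3]
        exact if_neg (by
          intro h5
          apply h1
          rw [← h5]
          exact h2)
      · exact hzero μ x h2) a b ha hab
  have hsum : ∀ (i : κ) (t : ℝ), ∑ x : {x // x ∈ S}, (∑ l, if τ l = x.1 then c i l else 0) * sc x.1 t =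
      ∑ l, c i l * sc (τ l) t := by
    intro i t
    simp only [Finset.sum_mul]
    rw [Finset.sum_comm]
    refine Finset.sum_congr rfl fun l _ => ?_
    rw [Finset.sum_eq_single ⟨τ l, hS l⟩]
    · rw [if_pos rfl]
    · intro x _ hx
      rw [if_neg, zero_mul]
      intro h1
      exact hx (Subtype.ext h1.symm)
    · intro h1
      exact absurd (Finset.mem_univ _) h1
  simp only [hsum] at h
  exact h

/-- `∏ (Y + s_j)^(i_j)` -/
noncomputable def EP {X : Type} [Fintype X] (i : X → ℕ) (s : X → ℝ) : Polynomial ℝ :=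
  ∏ j, (Polynomial.X + Polynomial.C (s j)) ^ i j

noncomputable def EE {X : Type} [Fintype X] (i : X → ℕ) : Polynomial (MvPolynomial X ℝ) :=
  ∏ j, (Polynomial.X + Polynomial.C (MvPolynomial.X j)) ^ i j

theorem EE_map {X : Type} [Fintype X] (i : X → ℕ) (s : X → ℝ) : (EE i).map (MvPolynomial.eval s) = EP i s := by
  simp [EE, EP, Polynomial.map_prod]

theorem EP_coeff {X : Type} [Fintype X] (i : X → ℕ) (s : X → ℝ) (p : ℕ) :
    (EP i s).coeff p = MvPolynomial.eval s ((EE i).coeff p) := by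
  rw [← EE_map, Polynomial.coeff_map]

theorem EP_an {X : Type} [Fintype X] (i : X → ℕ) (p : ℕ) : AnalyticOnNhd ℝ (fun s => (EP i s).coeff p) univ := by
  have h1 : (fun s => (EP i s).coeff p) = fun s => MvPolynomial.eval s ((EE i).coeff p) :=
    funext fun s => EP_coeff i s p
  rw [h1]
  exact AnalyticOnNhd.eval_mvPolynomial _

theorem EP_eval {X : Type} [Fintype X] (i : X → ℕ) (s : X → ℝ) (y : ℝ) : (EP i s).eval y = ∏ j, (y + s j) ^ i j := by
  simp [EP, Polynomial.eval_prod]

theorem EP_deg {X : Type} [Fintype X] (i : X → ℕ) (s : X → ℝ) : (EP i s).natDegree ≤ ∑ j, i j := by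
  refine (Polynomial.natDegree_prod_le _ _).trans (Finset.sum_le_sum fun j _ => ?_)
  refine Polynomial.natDegree_pow_le.trans ?_
  rw [Polynomial.natDegree_X_add_C, mul_one]

theorem EP_sum {X : Type} [Fintype X] (i : X → ℕ) (s : X → ℝ) (y : ℝ) (N : ℕ) (hN : ∑ j, i j ≤ N) :
    ∑ p : Fin (N + 1), (EP i s).coeff p * y ^ (p : ℕ) = ∏ j, (y + s j) ^ i j := by
  rw [← EP_eval, Polynomial.eval_eq_sum_range' (n := N + 1) (Nat.lt_succ_of_le ((EP_deg i s).trans hN)),
    Finset.sum_range]

theorem EP_zero {X : Type} [Fintype X] (i : X → ℕ) (p : ℕ) : (EP i 0).coeff p = if ∑ j, i j = p then 1 else 0 := by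
  have h1 : EP i (0 : X → ℝ) = Polynomial.X ^ (∑ j, i j) := by
    simp [EP, Finset.prod_pow_eq_pow_sum]
  rw [h1, Polynomial.coeff_X_pow]
  by_cases h : ∑ j, i j = p
  · rw [if_pos h, if_pos h.symm]
  · rw [if_neg h, if_neg (Ne.symm h)]

theorem EP_coeff0 {X : Type} [Fintype X] (i : X → ℕ) (s : X → ℝ) : (EP i s).coeff 0 = ∏ j, s j ^ i j := by
  rw [Polynomial.coeff_zero_eq_eval_zero, EP_eval]
  simp

theorem an_coord {X : Type} [Fintype X] (j : X) (s : X → ℝ) : AnalyticAt ℝ (fun s : X → ℝ => s j) s :=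
  (ContinuousLinearMap.proj (R := ℝ) (φ := fun _ : X => ℝ) j).analyticAt s

/-- the conditions on the direction of the line -/
noncomputable def GF {X κ σ : Type} [Fintype X] [Fintype κ] [Fintype σ] (α : σ → X → ℝ) (k i : σ → X → ℕ)
    (c : κ → σ → ℝ) : ((σ × σ) ⊕ (((κ → ℤ) × σ) ⊕ ((κ → ℤ) × ℕ × ℤ))) → (X → ℝ) → ℝ
  | Sum.inl q => fun s => ∑ j, (α q.1 j - α q.2 j) * Real.exp (s j)
  | Sum.inr (Sum.inl q) => fun s =>
    ∑ l ∈ Finset.univ.filter (fun l => α l = α q.2 ∧ ∑ j, k l j = ∑ j, k q.2 j),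
      (∑ y, (q.1 y : ℝ) * c y l) * (Real.exp (∑ j, (k l j : ℝ) * s j) * ∏ j, s j ^ i l j)
  | Sum.inr (Sum.inr q) => fun s =>
    ∑ l ∈ Finset.univ.filter (fun l => α l = 0 ∧ k l = 0), (∑ y, (q.1 y : ℝ) * c y l) * (EP (i l) s).coeff q.2.1 -
      if q.2.1 = 1 then (q.2.2 : ℝ) else 0

theorem GF_an {X κ σ : Type} [Fintype X] [Fintype κ] [Fintype σ] (α : σ → X → ℝ) (k i : σ → X → ℕ)
    (c : κ → σ → ℝ) (q) : AnalyticOnNhd ℝ (GF α k i c q) univ := by
  intro s _
  rcases q with q | q | q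
  · have h1 : AnalyticAt ℝ (fun s : X → ℝ => ∑ j, (α q.1 j - α q.2 j) * Real.exp (s j)) s :=
      Finset.analyticAt_fun_sum _ fun j _ => analyticAt_const.mul (an_coord j s).rexp
    exact h1
  · have h1 : AnalyticAt ℝ (fun s : X → ℝ =>
        ∑ l ∈ Finset.univ.filter (fun l => α l = α q.2 ∧ ∑ j, k l j = ∑ j, k q.2 j),
          (∑ y, (q.1 y : ℝ) * c y l) * (Real.exp (∑ j, (k l j : ℝ) * s j) * ∏ j, s j ^ i l j)) s := by
      refine Finset.analyticAt_fun_sum _ fun l _ => analyticAt_const.mul (AnalyticAt.mul ?_ ?_)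
      · exact (Finset.analyticAt_fun_sum _ fun j _ => analyticAt_const.mul (an_coord j s)).rexp
      · exact Finset.analyticAt_fun_prod _ fun j _ => (an_coord j s).pow _
    exact h1
  · have h1 : AnalyticAt ℝ (fun s : X → ℝ =>
        ∑ l ∈ Finset.univ.filter (fun l => α l = 0 ∧ k l = 0), (∑ y, (q.1 y : ℝ) * c y l) *
          (EP (i l) s).coeff q.2.1 - if q.2.1 = 1 then (q.2.2 : ℝ) else 0) s := by
      refine AnalyticAt.sub ?_ analyticAt_const
      exact Finset.analyticAt_fun_sum _ fun l _ => analyticAt_const.mul (EP_an (i l) q.2.1 s (mem_univ s))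
    exact h1

/-- the functions on the line -/
noncomputable def uL {X κ σ : Type} [Fintype X] [Fintype σ] (α : σ → X → ℝ) (k i : σ → X → ℕ)
    (c : κ → σ → ℝ) (s : X → ℝ) (y : κ) (t : ℝ) : ℝ :=
  Real.exp (∑ l, c y l * (Real.exp (∑ j, α l j * (Real.exp (s j) * t)) *
    ((∏ j, (Real.exp (s j) * t) ^ k l j) * ∏ j, (Real.log t + s j) ^ i l j)))

theorem uL_ind {X κ σ : Type} [Fintype X] [DecidableEq X] [Fintype κ] [DecidableEq κ] [Fintype σ]
    (α : σ → X → ℝ) (k i : σ → X → ℕ)
    (hinj : Function.Injective fun l => (α l, k l, i l)) (hα : ∀ l j, 0 ≤ α l j) (c : κ → σ → ℝ)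
    (hc : ∀ (μ : κ → ℤ) (n : ℤ), (∀ l, (α l ≠ 0 ∨ k l ≠ 0) → ∑ y, (μ y : ℝ) * c y l = 0) →
      (∀ p : ℕ, 1 ≤ p → ∑ l ∈ Finset.univ.filter (fun l => (α l = 0 ∧ k l = 0) ∧ ∑ j, i l j = p),
        ∑ y, (μ y : ℝ) * c y l = if p = 1 then (n : ℝ) else 0) → μ = 0)
    (s : X → ℝ) (hs : ∀ q, GF α k i c q s = 0 → ∀ s', GF α k i c q s' = 0) (d : ℕ) :
    RIndep (fun (e : κ → Fin (d + 1)) (t : ℝ) => ∏ y, uL α k i c s y t ^ (e y : ℕ)) 1 2 := by
  classical
  set N : ℕ := 1 + ∑ l, ∑ j, i l j with hN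
  have hNl : ∀ l, ∑ j, i l j ≤ N := fun l =>
    (Finset.single_le_sum (f := fun l => ∑ j, i l j) (fun _ _ => Nat.zero_le _) (Finset.mem_univ l)).trans (by omega)
  let B : σ → ℝ := fun l => ∑ j, α l j * Real.exp (s j)
  let τ : σ × Fin (N + 1) → ℝ × ℕ × ℕ := fun q => (B q.1, ∑ j, k q.1 j, (q.2 : ℕ))
  let c' : κ → σ × Fin (N + 1) → ℝ := fun y q =>
    c y q.1 * (Real.exp (∑ j, (k q.1 j : ℝ) * s j) * (EP (i q.1) s).coeff q.2)
  -- `B` determines `α`
  have hB : ∀ l l', B l = B l' → α l = α l' := by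
    intro l l' h
    have h1 := hs (Sum.inl (l, l')) (by
      simp only [GF, sub_mul, Finset.sum_sub_distrib]
      exact sub_eq_zero.2 h)
    have h2 := h1 0
    simp only [GF, Pi.zero_apply, Real.exp_zero, mul_one] at h2
    funext j
    have h3 := h1 (fun j' => if j' = j then Real.log 2 else 0)
    have h4 : ∀ j', (α l j' - α l' j') * Real.exp (if j' = j then Real.log 2 else 0) =
        (α l j' - α l' j') + if j' = j then (α l j' - α l' j') else 0 := by
      intro j'
      by_cases hj : j' = j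
      · rw [if_pos hj, if_pos hj, Real.exp_log two_pos]
        ring
      · rw [if_neg hj, if_neg hj, Real.exp_zero]
        ring
    simp only [GF] at h3
    rw [Finset.sum_congr rfl fun j' _ => h4 j', Finset.sum_add_distrib, h2, zero_add, Finset.sum_ite_eq' Finset.univ j,
      if_pos (Finset.mem_univ j)] at h3
    linarith
  have hB0 : ∀ l, B l = 0 ↔ α l = 0 := by
    intro l
    constructor
    · intro h
      funext j
      have h1 := (Finset.sum_eq_zero_iff_of_nonneg fun j _ => mul_nonneg (hα l j) (Real.exp_pos _).le).1 h j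
        (Finset.mem_univ j)
      exact (mul_eq_zero.1 h1).resolve_right (Real.exp_ne_zero _)
    · intro h
      simp only [B, h, Pi.zero_apply, zero_mul, Finset.sum_const_zero]
  have hk0 : ∀ l, ∑ j, k l j = 0 ↔ k l = 0 := by
    intro l
    rw [Finset.sum_eq_zero_iff]
    exact ⟨fun h => funext fun j => h j (Finset.mem_univ j), fun h j _ => by rw [h]; rfl⟩
  have h := el_ind' (d := d) τ (fun q => Finset.sum_nonneg fun j _ => mul_nonneg (hα _ j) (Real.exp_pos _).le) c' (by
    intro μ r hμ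
    have hcomm : ∀ x : ℝ × ℕ × ℕ, ∑ y, (μ y : ℝ) * ∑ q, (if τ q = x then c' y q else 0) =
        ∑ l, ∑ p : Fin (N + 1), if τ (l, p) = x then (∑ y, (μ y : ℝ) * c y l) *
          (Real.exp (∑ j, (k l j : ℝ) * s j) * (EP (i l) s).coeff p) else 0 := by
      intro x
      simp only [Finset.mul_sum]
      rw [Finset.sum_comm, Fintype.sum_prod_type]
      refine Finset.sum_congr rfl fun l _ => Finset.sum_congr rfl fun p _ => ?_
      by_cases h1 : τ (l, p) = x
      · simp only [h1, if_true, c', Finset.sum_mul]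
        refine Finset.sum_congr rfl fun y _ => ?_
        ring
      · simp [h1]
    refine hc μ r ?_ ?_
    · intro l0 hl0
      have hx : ((B l0, ∑ j, k l0 j, 0) : ℝ × ℕ × ℕ) ≠ (0, 0, 0) := by
        intro h1
        simp only [Prod.mk.injEq, and_true] at h1
        rcases hl0 with h2 | h2
        · exact h2 ((hB0 l0).1 h1.1)
        · exact h2 ((hk0 l0).1 h1.2)
      have h1 := hμ _ hx
      rw [hcomm, if_neg (by
        intro h2
        simp only [Prod.mk.injEq] at h2
        exact absurd h2.2.2 zero_ne_one)] at h1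
      have h2 : GF α k i c (Sum.inr (Sum.inl (μ, l0))) s = 0 := by
        rw [← h1]
        simp only [GF]
        rw [Finset.sum_filter]
        refine Finset.sum_congr rfl fun l _ => ?_
        rw [Finset.sum_eq_single (0 : Fin (N + 1))]
        · by_cases h3 : α l = α l0 ∧ ∑ j, k l j = ∑ j, k l0 j
          · rw [if_pos h3, if_pos, Fin.val_zero, EP_coeff0]
            simp only [τ, B, h3.1, h3.2, Fin.val_zero]
          · rw [if_neg h3, if_neg]
            intro h4
            simp only [τ, Prod.mk.injEq] at h4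
            exact h3 ⟨hB _ _ h4.1, h4.2.1⟩
        · intro p _ hp
          rw [if_neg]
          intro h4
          simp only [τ, Prod.mk.injEq] at h4
          exact hp (Fin.ext h4.2.2)
        · intro h4
          exact absurd (Finset.mem_univ _) h4
      have h3 := hs _ h2
      simp only [GF] at h3
      refine exp_lin _ k i ?_ _ h3 l0 (by simp)
      intro l hl l' hl' h4 h5
      refine hinj ?_
      simp only [Prod.mk.injEq]
      exact ⟨(Finset.mem_filter.1 hl).2.1.trans (Finset.mem_filter.1 hl').2.1.symm, h4, h5⟩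
    · intro p hp
      by_cases hpN : p ≤ N
      · have h1 := hμ (0, 0, p) (by
          intro h2
          simp only [Prod.mk.injEq, true_and] at h2
          omega)
        rw [hcomm] at h1
        have h2 : GF α k i c (Sum.inr (Sum.inr (μ, p, r))) s = 0 := by
          simp only [GF]
          rw [sub_eq_zero]
          have h3 : (if p = 1 then (r : ℝ) else 0) = if ((0 : ℝ), 0, p) = ((0 : ℝ), 0, 1) then (r : ℝ) else 0 := by
            by_cases h4 : p = 1
            · rw [if_pos h4, if_pos (by rw [h4])]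
            · rw [if_neg h4, if_neg (by simpa using h4)]
          rw [h3, ← h1, Finset.sum_filter]
          refine Finset.sum_congr rfl fun l _ => ?_
          rw [Finset.sum_eq_single (⟨p, by omega⟩ : Fin (N + 1))]
          · by_cases h4 : α l = 0 ∧ k l = 0
            · rw [if_pos h4, if_pos]
              · rw [h4.2]
                simp
              · simp only [τ, Prod.mk.injEq, and_true]
                exact ⟨(hB0 l).2 h4.1, (hk0 l).2 h4.2⟩
            · rw [if_neg h4, if_neg]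
              intro h5
              simp only [τ, Prod.mk.injEq, and_true] at h5
              exact h4 ⟨(hB0 l).1 h5.1, (hk0 l).1 h5.2⟩
          · intro q _ hq
            rw [if_neg]
            intro h5
            simp only [τ, Prod.mk.injEq] at h5
            exact hq (Fin.ext h5.2.2)
          · intro h4
            exact absurd (Finset.mem_univ _) h4
        have h3 := hs _ h2 0
        simp only [GF, EP_zero] at h3
        rw [sub_eq_zero] at h3
        rw [← h3, ← Finset.filter_filter, Finset.sum_filter (fun l => ∑ j, i l j = p)]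
        refine Finset.sum_congr rfl fun l _ => ?_
        by_cases h4 : ∑ j, i l j = p
        · rw [if_pos h4, if_pos h4, mul_one]
        · rw [if_neg h4, if_neg h4, mul_zero]
      · rw [if_neg (by omega), Finset.sum_eq_zero]
        intro l hl
        have h4 := (Finset.mem_filter.1 hl).2.2
        have h5 := hNl l
        omega) 1 2 one_pos one_lt_two
  intro q hq
  refine h q fun t ht => ?_
  have ht0 : 0 < t := lt_of_lt_of_le one_pos ht.1
  rw [← hq t ht]
  refine Finset.sum_congr rfl fun e _ => ?_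
  congr 1
  refine Finset.prod_congr rfl fun y _ => ?_
  congr 1
  rw [uL]
  congr 1
  rw [Fintype.sum_prod_type]
  refine Finset.sum_congr rfl fun l _ => ?_
  have h1 : ∏ j, (Real.exp (s j) * t) ^ k l j = Real.exp (∑ j, (k l j : ℝ) * s j) * t ^ (∑ j, k l j) := by
    simp only [mul_pow, Finset.prod_mul_distrib, Finset.prod_pow_eq_pow_sum]
    rw [Real.exp_sum]
    simp only [Real.exp_nat_mul]
  have h2 : ∑ j, α l j * (Real.exp (s j) * t) = B l * t := by
    simp only [B, Finset.sum_mul]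
    exact Finset.sum_congr rfl fun j _ => by ring
  rw [h1, h2, ← EP_sum (i l) s (Real.log t) N (hNl l)]
  simp only [c', τ, sc, Finset.mul_sum]
  refine Finset.sum_congr rfl fun p _ => ?_
  ring

/-- the function `e^(F(x))`, `F = ∑ c_l e^(α_l · x) x^(k_l) (log x)^(i_l)` -/
noncomputable def fL {X κ σ : Type} [Fintype X] [Fintype σ] (α : σ → X → ℝ) (k i : σ → X → ℕ)
    (c : κ → σ → ℝ) (y : κ) (x : X → ℂ) : ℂ :=
  Complex.exp (∑ l, c y l * (Complex.exp (∑ j, α l j * x j) *
    ((∏ j, x j ^ k l j) * ∏ j, Complex.log (x j) ^ i l j)))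

theorem fL_real {X κ σ : Type} [Fintype X] [Fintype σ] (α : σ → X → ℝ) (k i : σ → X → ℕ)
    (c : κ → σ → ℝ) (y : κ) (s : X → ℝ) (t : ℝ) (ht : 0 < t) :
    fL α k i c y (fun j => ((Real.exp (s j) * t : ℝ) : ℂ)) = (uL α k i c s y t : ℂ) := by
  have h1 : ∀ j, Complex.log ((Real.exp (s j) * t : ℝ) : ℂ) = ((Real.log t + s j : ℝ) : ℂ) := by
    intro j
    rw [← Complex.ofReal_log (mul_pos (Real.exp_pos _) ht).le, Real.log_mul (Real.exp_ne_zero _) ht.ne', Real.log_exp,
      add_comm]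
  unfold fL uL
  simp only [h1]
  push_cast
  rfl

/-- independence of the exponentials -/
theorem el_mv {X κ σ : Type} [Fintype X] [DecidableEq X] [Fintype κ] [DecidableEq κ] [Fintype σ]
    (α : σ → X → ℝ) (k i : σ → X → ℕ)
    (hinj : Function.Injective fun l => (α l, k l, i l)) (hα : ∀ l j, 0 ≤ α l j) (c : κ → σ → ℝ)
    (hc : ∀ (μ : κ → ℤ) (n : ℤ), (∀ l, (α l ≠ 0 ∨ k l ≠ 0) → ∑ y, (μ y : ℝ) * c y l = 0) →
      (∀ p : ℕ, 1 ≤ p → ∑ l ∈ Finset.univ.filter (fun l => (α l = 0 ∧ k l = 0) ∧ ∑ j, i l j = p),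
        ∑ y, (μ y : ℝ) * c y l = if p = 1 then (n : ℝ) else 0) → μ = 0)
    (U : Set (X → ℂ)) (hU : ∀ x : X → ℝ, (∀ j, 0 < x j) → (fun j => (x j : ℂ)) ∈ U)
    (p : MvPolynomial κ (MvPolynomial X ℂ)) (hp : ∀ x ∈ U, evM (fL α k i c) x p = 0) : p = 0 := by
  classical
  refine mvInd_lines U (fL α k i c) hU {s | ∀ q, GF α k i c q s = 0 → ∀ s', GF α k i c q s' = 0}
    (gen_dense (GF α k i c) (GF_an α k i c)) (uL α k i c) ?_ ?_ p hp
  · intro s _ t ht y
    exact fL_real α k i c y s t (lt_of_lt_of_le one_pos ht.1)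
  · intro s hs d
    exact uL_ind α k i hinj hα c hc s hs d

/-- the exponentials are analytic where the logarithms are -/
theorem fL_an {X κ σ : Type} [Fintype X] [Fintype σ] (α : σ → X → ℝ) (k i : σ → X → ℕ)
    (c : κ → σ → ℝ) (y : κ) (U : Set (X → ℂ)) (hU : ∀ x ∈ U, ∀ l j, i l j ≠ 0 → x j ∈ Complex.slitPlane) :
    AnalyticOnNhd ℂ (fL α k i c y) U := by
  intro x hx
  have hco : ∀ j, AnalyticAt ℂ (fun x : X → ℂ => x j) x := fun j =>
    (ContinuousLinearMap.proj (R := ℂ) (φ := fun _ : X => ℂ) j).analyticAt x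
  have h1 : AnalyticAt ℂ (fun x : X → ℂ => Complex.exp (∑ l, c y l * (Complex.exp (∑ j, α l j * x j) *
      ((∏ j, x j ^ k l j) * ∏ j, Complex.log (x j) ^ i l j)))) x := by
    refine AnalyticAt.cexp (Finset.analyticAt_fun_sum _ fun l _ => analyticAt_const.mul (AnalyticAt.mul ?_ ?_))
    · exact AnalyticAt.cexp (Finset.analyticAt_fun_sum _ fun j _ => analyticAt_const.mul (hco j))
    · refine AnalyticAt.mul (Finset.analyticAt_fun_prod _ fun j _ => (hco j).pow _) ?_
      refine Finset.analyticAt_fun_prod _ fun j _ => ?_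
      by_cases hj : i l j = 0
      · rw [hj]
        simp only [pow_zero]
        exact analyticAt_const
      · exact ((hco j).clog (hU x hx l j hj)).pow _
  exact h1

end Pool.Agent.Q23.MV
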