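import Pool.Agent.Y890.MV.TorExc
import Pool.Agent.Q23.AQ.Few

/-!
# Exact relations between values of independent functions of several variables
-/

set_option autoImplicit false

open Set Filter Topology NumberField

namespace Pool.Agent.Q23.MV

open Pool.Agent.TH818.AP Pool.Agent.Y771 Pool.Agent.Y890.MV
open Pool.Agent.Y124 (Cov)

/-- independent functions: no condition -/
theorem torM_univ {X σ : Type} [Fintype X] {U : Set (X → ℂ)} {f : σ → (X → ℂ) → ℂ}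
    (hind : ∀ p : MvPolynomial σ (MvPolynomial X ℂ), (∀ x ∈ U, evM f x p = 0) → p = 0) :
    TorM U f (fun _ => Set.univ) where
  self := fun _ _ => Set.mem_univ _
  inv := fun p hp x _ Y _ => by
    rw [hind p hp, evX, MvPolynomial.eval₂_zero]
  path := fun x _ Y _ => ⟨fun s => Polynomial.C (f s x) + Polynomial.C (Y s - f s x) * Polynomial.X,
    fun s => by simp, fun s => by simp, fun _ => Set.mem_univ _⟩
  sec := ⟨1, one_ne_zero, fun x0 _ _ Y0 _ => ⟨fun s => MvPolynomial.C (Y0 s), fun _ _ _ => Set.mem_univ _,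
    fun s => by simp⟩⟩

/-- exact relations with coefficients in arbitrary finite dimensional spaces lie on few hypersurfaces -/
theorem mvFew {X σ : Type} [Fintype X] [DecidableEq X] [Nonempty X] [Fintype σ] [DecidableEq σ]
    {U : Set (X → ℂ)} {f : σ → (X → ℂ) → ℂ} (hU : IsPreconnected U) (hUo : IsOpen U) (hne : U.Nonempty)
    (hf : ∀ i, AnalyticOnNhd ℂ (f i) U)
    (hind : ∀ p : MvPolynomial σ (MvPolynomial X ℂ), (∀ x ∈ U, evM f x p = 0) → p = 0)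
    (Lc : Set (X → ℂ)) (hLc : IsCompact Lc) (hLU : Lc ⊆ U) (m g d : ℕ) (A ε : ℝ) (hε : 0 < ε) :
    ∃ (D : ℕ) (C T₀ : ℝ), ∀ (F : Type) [Field F] [NumberField F], Module.finrank ℚ F ≤ m → ∀ (ι : F →+* ℂ)
      (ξ : Fin g → ℂ) (T : ℝ), T₀ ≤ T → ∃ Φ : Finset (MvPolynomial X ℂ), (Φ.card : ℝ) ≤ C * T ^ ε ∧
        (∀ Q ∈ Φ, Q ≠ 0 ∧ Q.totalDegree ≤ D) ∧
        ∀ x : X → F, (fun j => ι (x j)) ∈ Lc →
          (∀ j, ∃ a b : 𝓞 F, b ≠ 0 ∧ (∀ φ : F →+* ℂ, ‖φ a‖ ≤ T ∧ ‖φ b‖ ≤ T) ∧ x j = a / b) →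
          (∀ Q ∈ Φ, MvPolynomial.eval (fun j => ι (x j)) Q ≠ 0) →
          ∀ P : MvPolynomial σ ℂ, P ≠ 0 → (∀ y, P.degreeOf y ≤ d) →
            (∀ s, ∃ c : Fin g → 𝓞 F, (∀ a (φ : F →+* ℂ), ‖φ (c a)‖ ≤ T ^ A) ∧ P.coeff s = ∑ a, ξ a * ι (c a)) →
            MvPolynomial.aeval (fun y => f y (fun j => ι (x j))) P ≠ 0 := by
  classical
  obtain ⟨D, C, T₀, hC, hT₀, H⟩ := excT_cov hU hUo hne hf (torM_univ hind) Lc hLc hLU d (Fin g) m A ε hε
  refine ⟨D, C, T₀, fun F _ _ hF ι ξ T hT => ?_⟩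
  obtain ⟨Φ, h1, h2, h3⟩ := H F hF ι ξ T hT
  have hT0 : 0 ≤ T := by linarith
  refine ⟨Φ, ?_, h2, fun x hx hq hΦ P hP hd hc hP0 => ?_⟩
  · exact (Nat.cast_le.2 h1).trans (Nat.floor_le (mul_nonneg hC (Real.rpow_nonneg hT0 _)))
  choose c hc1 hc2 using hc
  have hmem : x ∈ ExcT d f (fun _ => Set.univ) Lc F ι ξ A T := by
    refine ⟨fun j => ?_, hx, fun l => c (Y124.sV l), fun l i φ => hc1 _ i φ, ?_, ?_⟩
    · obtain ⟨a, b, hb, hab, hj⟩ := hq j
      exact ⟨a, b, hb, Y120.house_le F hT0 fun φ => (hab φ).1, Y120.house_le F hT0 fun φ => (hab φ).2, hj⟩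
    · rw [← hP0, Y124.eval_eq_box _ P hd]
      refine Finset.sum_congr rfl fun z _ => ?_
      rw [hc2]
    · intro h4
      apply hP
      refine MvPolynomial.funext fun Y => ?_
      rw [map_zero]
      have h5 := h4 Y (Set.mem_univ _)
      rw [← h5]
      have h6 := Y124.eval_eq_box Y P hd
      rw [MvPolynomial.aeval_eq_eval] at h6
      rw [show MvPolynomial.eval Y P = _ from h6]
      refine Finset.sum_congr rfl fun z _ => ?_
      rw [hc2]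
  obtain ⟨Q, hQ, hQ0⟩ := h3 _ ⟨x, hmem, rfl⟩
  exact hΦ Q hQ hQ0

end Pool.Agent.Q23.MV
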