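import Pool.Agent.Q23.MV.Ind

/-!
# Algebraic independence of functions on sets, and fibrations
-/

set_option autoImplicit false

open Set Filter Topology

namespace Pool.Agent.Q23.MV

open Pool.Agent.TH818.AP Pool.Agent.Y771 Pool.Agent.Y890.MV

/-- the functions `f i` are algebraically independent over `ℂ` on the set `Z` -/
def AI {σ Ω : Type} (Z : Set Ω) (f : σ → Ω → ℂ) : Prop :=
  ∀ P : MvPolynomial σ ℂ, (∀ z ∈ Z, MvPolynomial.eval (fun i => f i z) P = 0) → P = 0

theorem AI.mono {σ Ω : Type} {Z Z' : Set Ω} {f : σ → Ω → ℂ} (h : AI Z f) (hZ : Z ⊆ Z') : AI Z' f :=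
  fun P hP => h P fun z hz => hP z (hZ hz)

theorem AI.comp {σ σ' Ω : Type} {Z : Set Ω} {f : σ → Ω → ℂ} (h : AI Z f) (e : σ' → σ) (he : Function.Injective e) :
    AI Z (fun i => f (e i)) := by
  intro P hP
  have h1 := h (MvPolynomial.rename e P) fun z hz => by
    rw [MvPolynomial.eval_rename]
    exact hP z hz
  exact MvPolynomial.rename_injective _ he (by rw [h1, map_zero])

theorem AI.congr {σ Ω : Type} {Z : Set Ω} {f g : σ → Ω → ℂ} (h : AI Z f) (hfg : ∀ i, ∀ z ∈ Z, g i z = f i z) :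
    AI Z g := fun P hP => h P fun z hz => by
  rw [← hP z hz]
  congr 2
  funext i
  exact (hfg i z hz).symm

/-- affine changes -/
theorem AI.affine {σ Ω : Type} {Z : Set Ω} {f : σ → Ω → ℂ} (h : AI Z f) (a c : σ → ℂ) (ha : ∀ i, a i ≠ 0) :
    AI Z (fun i z => a i * f i z + c i) := by
  intro P hP
  have h1 := h (MvPolynomial.bind₁ (fun i => MvPolynomial.C (a i) * MvPolynomial.X i + MvPolynomial.C (c i)) P)
    fun z hz => by
      rw [← hP z hz, MvPolynomial.eval, MvPolynomial.eval₂Hom_bind₁]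
      congr 2
      funext i
      simp
  have h2 : P = MvPolynomial.bind₁ (fun i => MvPolynomial.C (a i)⁻¹ * (MvPolynomial.X i - MvPolynomial.C (c i)))
      (MvPolynomial.bind₁ (fun i => MvPolynomial.C (a i) * MvPolynomial.X i + MvPolynomial.C (c i)) P) := by
    rw [MvPolynomial.bind₁_bind₁]
    have h3 : (fun i => (MvPolynomial.bind₁ fun i => MvPolynomial.C (a i)⁻¹ * (MvPolynomial.X i - MvPolynomial.C (c i)))
        (MvPolynomial.C (a i) * MvPolynomial.X i + MvPolynomial.C (c i))) = (MvPolynomial.X : σ → MvPolynomial σ ℂ) := by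
      funext i
      rw [map_add, map_mul, MvPolynomial.bind₁_X_right, MvPolynomial.algHom_C, MvPolynomial.algHom_C,
        MvPolynomial.algebraMap_eq]
      have h4 : (MvPolynomial.C (a i) : MvPolynomial σ ℂ) * MvPolynomial.C (a i)⁻¹ = 1 := by
        rw [← MvPolynomial.C_mul, mul_inv_cancel₀ (ha i), MvPolynomial.C_1]
      linear_combination (MvPolynomial.X i - MvPolynomial.C (c i)) * h4
    rw [h3, MvPolynomial.bind₁_X_left]
    rfl
  rw [h2, h1, map_zero]

/-- **Fibrations.** -/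
theorem fub {σ₁ σ₂ Ω₁ Ω₂ : Type} (Z₂ : Set Ω₂) (Z₁ : Ω₂ → Set Ω₁) (f₁ : σ₁ → Ω₂ → Ω₁ → ℂ) (f₂ : σ₂ → Ω₂ → ℂ)
    (h2 : AI Z₂ f₂) (h1 : ∀ b ∈ Z₂, AI (Z₁ b) (fun i => f₁ i b)) (P : MvPolynomial (σ₁ ⊕ σ₂) ℂ)
    (hP : ∀ b ∈ Z₂, ∀ a ∈ Z₁ b, MvPolynomial.eval (Sum.elim (fun i => f₁ i b a) (fun i => f₂ i b)) P = 0) :
    P = 0 := by
  set Q := MvPolynomial.sumAlgEquiv ℂ σ₁ σ₂ P with hQ
  have hev : ∀ (b : Ω₂) (a : Ω₁) (R : MvPolynomial (σ₁ ⊕ σ₂) ℂ),
      MvPolynomial.eval (fun i => f₁ i b a)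
        (MvPolynomial.map (MvPolynomial.eval fun i => f₂ i b) (MvPolynomial.sumAlgEquiv ℂ σ₁ σ₂ R)) =
      MvPolynomial.eval (Sum.elim (fun i => f₁ i b a) (fun i => f₂ i b)) R := by
    intro b a R
    have h3 : ((MvPolynomial.eval (fun i => f₁ i b a)).comp
        (MvPolynomial.map (MvPolynomial.eval fun i => f₂ i b))).comp
        (MvPolynomial.sumAlgEquiv ℂ σ₁ σ₂ : MvPolynomial (σ₁ ⊕ σ₂) ℂ ≃+* _).toRingHom =
        MvPolynomial.eval (Sum.elim (fun i => f₁ i b a) (fun i => f₂ i b)) := by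
      apply MvPolynomial.ringHom_ext
      · intro c
        simp
      · rintro (i | i) <;> simp
    exact congrArg (fun φ => φ R) h3
  have hQ0 : Q = 0 := by
    ext s : 1
    rw [MvPolynomial.coeff_zero]
    refine h2 _ fun b hb => ?_
    have h3 : MvPolynomial.map (MvPolynomial.eval fun i => f₂ i b) Q = 0 := by
      refine h1 b hb _ fun a ha => ?_
      rw [hev]
      exact hP b hb a ha
    rw [← MvPolynomial.coeff_map, h3, MvPolynomial.coeff_zero]
  rw [← (MvPolynomial.sumAlgEquiv ℂ σ₁ σ₂).symm_apply_apply P, ← hQ, hQ0, map_zero]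

/-- **Products.** -/
theorem AI.prod {κ Ω : Type} : ∀ (n : ℕ) (Z : Fin n → Set Ω) (g : Fin n → κ → Ω → ℂ), (∀ i, AI (Z i) (g i)) →
    AI {z : Fin n → Ω | ∀ i, z i ∈ Z i} (fun (y : Fin n × κ) z => g y.1 y.2 (z y.1)) := by
  intro n
  induction n with
  | zero =>
    intro Z g _ P hP
    have h1 := hP (fun i => i.elim0) fun i => i.elim0
    haveI : IsEmpty (Fin 0 × κ) := ⟨fun y => y.1.elim0⟩
    rw [MvPolynomial.eq_C_of_isEmpty P] at h1 ⊢
    rw [MvPolynomial.eval_C] at h1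
    rw [h1, map_zero]
  | succ n ih =>
    intro Z g hg P hP
    let e : Fin (n + 1) × κ → κ ⊕ (Fin n × κ) := fun y =>
      Fin.cases (motive := fun _ => κ ⊕ (Fin n × κ)) (Sum.inl y.2) (fun i => Sum.inr (i, y.2)) y.1
    have he : Function.Injective e := by
      rintro ⟨i, k⟩ ⟨i', k'⟩ h
      refine Fin.cases ?_ (fun j => ?_) i h <;> intro h <;> refine Fin.cases ?_ (fun j' => ?_) i' h <;> intro h
      · simp only [e, Fin.cases_zero, Sum.inl.injEq] at h
        rw [h]
      · simp [e] at h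
      · simp [e] at h
      · simp only [e, Fin.cases_succ, Sum.inr.injEq, Prod.mk.injEq] at h
        rw [h.1, h.2]
    have h1 := fub (σ₁ := κ) (σ₂ := Fin n × κ) (Ω₁ := Ω) (Ω₂ := Fin n → Ω) {z | ∀ i, z i ∈ Z i.succ} (fun _ => Z 0)
      (fun k _ a => g 0 k a) (fun y z => g y.1.succ y.2 (z y.1)) (ih (fun i => Z i.succ) (fun i => g i.succ)
      fun i => hg i.succ) (fun _ _ => hg 0) (MvPolynomial.rename e P) (by
      intro b hb a ha
      rw [MvPolynomial.eval_rename]
      have h2 := hP (Fin.cons a b) fun i => by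
        refine Fin.cases ?_ (fun j => ?_) i
        · exact ha
        · exact hb j
      rw [← h2]
      congr 2
      funext y
      obtain ⟨i, k⟩ := y
      refine Fin.cases ?_ (fun j => ?_) i
      · simp [e]
      · simp [e])
    exact MvPolynomial.rename_injective _ he (by rw [h1, map_zero])

/-- polynomials over `ℂ[x]` -/
theorem evM_flat {X σ : Type} (f : σ → (X → ℂ) → ℂ) (x : X → ℂ) (p : MvPolynomial σ (MvPolynomial X ℂ)) :
    evM f x p = MvPolynomial.eval (Sum.elim (fun i => f i x) x) ((MvPolynomial.sumAlgEquiv ℂ σ X).symm p) := by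
  have h1 : (MvPolynomial.eval (Sum.elim (fun i => f i x) x)).comp
      ((MvPolynomial.sumAlgEquiv ℂ σ X).symm : MvPolynomial σ (MvPolynomial X ℂ) ≃+* _).toRingHom =
      MvPolynomial.eval₂Hom (MvPolynomial.eval x) (fun i => f i x) := by
    apply MvPolynomial.ringHom_ext
    · intro q
      induction q using MvPolynomial.induction_on with
      | C c => simp
      | add p q hp hq =>
        rw [map_add, map_add, map_add, hp, hq]
      | mul_X p i hp =>
        rw [map_mul, map_mul, map_mul, hp]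
        congr 1
        simp
    · intro i
      simp
  exact (congrArg (fun φ => φ p) h1).symm

/-- from independence on a set with the coordinates to independence over `ℂ[x]` -/
theorem evM_of_AI {X σ : Type} (U : Set (X → ℂ)) (f : σ → (X → ℂ) → ℂ)
    (h : AI U (Sum.elim f fun j x => x j : σ ⊕ X → (X → ℂ) → ℂ))
    (p : MvPolynomial σ (MvPolynomial X ℂ)) (hp : ∀ x ∈ U, evM f x p = 0) : p = 0 := by
  have h1 := h ((MvPolynomial.sumAlgEquiv ℂ σ X).symm p) fun x hx => by
    rw [← hp x hx, evM_flat]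
    congr 2
    funext i
    rcases i with i | i <;> rfl
  rw [← (MvPolynomial.sumAlgEquiv ℂ σ X).apply_symm_apply p, h1, map_zero]

/-- real functions of one variable -/
theorem AI_of_rind {κ : Type} [Fintype κ] [DecidableEq κ] (u : κ → ℝ → ℝ) (a b : ℝ)
    (hu : ∀ d : ℕ, RIndep (fun (e : κ → Fin (d + 1)) (t : ℝ) => ∏ k, u k t ^ (e k : ℕ)) a b) :
    AI (Icc a b) (fun (o : Option κ) (t : ℝ) => o.elim (t : ℂ) fun k => (u k t : ℂ)) := by
  intro P hP
  obtain ⟨fc, hfc⟩ : ∃ fc : κ → ℂ → ℂ, ∀ y, ∀ t : ℝ, fc y (t : ℂ) = (u y t : ℂ) :=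
    ⟨fun y z => (u y z.re : ℂ), fun y t => by simp⟩
  refine RP.ind_of_real fc u (Icc a b) (fun y t _ => hfc y t) (fun Q hQ => ?_) P fun t ht => ?_
  · exact RP.mv_of_exp u (Icc a b) (fun d p hp => hu d p hp) Q hQ
  · rw [← hP t ht]
    congr 2
    funext o
    rcases o with _ | k
    · rfl
    · exact hfc k t

end Pool.Agent.Q23.MV
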