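import Pool.Agent.Q23.MV.Loc
import Pool.Agent.Q136.LR.Loc

/-!
# The functions `Γ(k·x + y)`, `ψ^(j)(k·x + y)`, `exp(L·x)` of several variables
-/

set_option autoImplicit false

open Set Filter Topology NumberField

namespace Pool.Agent.Q23.MV

open Pool.Agent.TH818.AP Pool.Agent.Y771 Pool.Agent.Y890.MV Pool.Agent.Q136.LR

/-- reindexing -/
theorem locInd_equiv {κ κ' : Type} (e : κ ≃ κ') (f : κ → ℂ → ℂ) (g : κ' → ℂ → ℂ) (t0 : ℂ)
    (hfg : ∀ y z, f y z = g (e y) z) (h : Y124.LocInd g t0) : Y124.LocInd f t0 := by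
  intro P hP
  have h1 : MvPolynomial.rename (Option.map e) P = 0 := by
    refine h _ ?_
    filter_upwards [hP] with t ht
    rw [MvPolynomial.eval_rename, ← ht]
    congr 2
    funext o
    rcases o with _ | y
    · rfl
    · exact (hfg y t).symm
  exact MvPolynomial.rename_injective _ (Option.map_injective e.injective) (by rw [h1, map_zero])

/-- the points where no `k_i·x + y_i` is a pole of `Γ` -/
def DomM {X : Type} [Fintype X] {r : ℕ} (k : Fin r → X → ℚ) (y : Fin r → ℂ) : Set (X → ℂ) :=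
  {x | ∀ i, NP (∑ j, (k i j : ℂ) * x j + y i)}

theorem domM_open {X : Type} [Fintype X] {r : ℕ} (k : Fin r → X → ℚ) (y : Fin r → ℂ) : IsOpen (DomM k y) := by
  have h1 : DomM k y = ⋂ i, (fun x : X → ℂ => ∑ j, (k i j : ℂ) * x j + y i) ⁻¹' {w | NP w} := by
    ext x
    simp [DomM]
  rw [h1]
  refine isOpen_iInter_of_finite fun i => IsOpen.preimage ?_ ?_
  · exact (continuous_finset_sum _ fun j _ => continuous_const.mul (continuous_apply j)).add continuous_const
  · exact isOpen_iff_mem_nhds.2 fun w hw => np_ev hw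

theorem domM_conn {X : Type} [Fintype X] {r : ℕ} (k : Fin r → X → ℚ) (y : Fin r → ℂ) :
    IsPreconnected (DomM k y) := by
  refine isPreconnected_of_forall_pair fun p hp q hq => ?_
  have hlin : ∀ (i : Fin r) (z : ℂ), ∑ j, (k i j : ℂ) * (p j + z * (q j - p j)) + y i =
      (∑ j, (k i j : ℂ) * (q j - p j)) * z + (∑ j, (k i j : ℂ) * p j + y i) := by
    intro i z
    simp only [mul_add, Finset.sum_add_distrib, Finset.sum_mul]
    have h1 : ∑ j, (k i j : ℂ) * (z * (q j - p j)) = ∑ j, (k i j : ℂ) * (q j - p j) * z :=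
      Finset.sum_congr rfl fun j _ => by ring
    rw [h1]
    ring
  refine ⟨(fun z : ℂ => fun j => p j + z * (q j - p j)) ''
    {z : ℂ | ∀ i, NP ((∑ j, (k i j : ℂ) * (q j - p j)) * z + (∑ j, (k i j : ℂ) * p j + y i))}, ?_, ?_, ?_, ?_⟩
  · rintro _ ⟨z, hz, rfl⟩ i
    rw [hlin]
    exact hz i
  · refine ⟨0, fun i => ?_, by simp⟩
    rw [mul_zero, zero_add]
    exact hp i
  · refine ⟨1, fun i => ?_, by simp⟩
    have h1 := hlin i 1
    simp only [one_mul, add_sub_cancel] at h1
    rw [← h1]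
    exact hq i
  · refine IsPreconnected.image ?_ _ (continuous_pi fun j =>
      continuous_const.add (continuous_id.mul continuous_const)).continuousOn
    have h1 : {z : ℂ | ∀ i, NP ((∑ j, (k i j : ℂ) * (q j - p j)) * z + (∑ j, (k i j : ℂ) * p j + y i))} =
        (⋃ i, ⋃ n : ℕ, {z | (∑ j, (k i j : ℂ) * (q j - p j)) * z + (∑ j, (k i j : ℂ) * p j + y i) = -n})ᶜ := by
      ext z
      simp only [NP, Set.mem_compl_iff, Set.mem_iUnion, Set.mem_ofPred_eq]
      push Not
      rfl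
    rw [h1]
    have h2 : (⋃ i, ⋃ n : ℕ,
        {z | (∑ j, (k i j : ℂ) * (q j - p j)) * z + (∑ j, (k i j : ℂ) * p j + y i) = -n}).Countable := by
      refine Set.countable_iUnion fun i => Set.countable_iUnion fun n => ?_
      by_cases h0 : ∑ j, (k i j : ℂ) * (q j - p j) = 0
      · have h3 : {z : ℂ | (∑ j, (k i j : ℂ) * (q j - p j)) * z + (∑ j, (k i j : ℂ) * p j + y i) = -n} = ∅ := by
          rw [Set.eq_empty_iff_forall_notMem]
          intro z hz
          rw [Set.mem_ofPred_eq, h0, zero_mul, zero_add] at hz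
          exact hp i n hz
        rw [h3]
        exact Set.countable_empty
      · refine (Set.countable_singleton ((-n - (∑ j, (k i j : ℂ) * p j + y i)) /
          (∑ j, (k i j : ℂ) * (q j - p j)))).mono ?_
        intro z hz
        rw [Set.mem_ofPred_eq] at hz
        rw [Set.mem_singleton_iff, eq_div_iff h0]
        linear_combination hz
    refine (Set.Countable.isConnected_compl_of_one_lt_rank ?_ h2).isPreconnected
    rw [Complex.rank_real_complex]
    norm_num

theorem domM_ne {X : Type} [Fintype X] [DecidableEq X] {r : ℕ} (k : Fin r → X → ℚ) (hk : ∀ i, k i ≠ 0)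
    (y : Fin r → ℂ) : (DomM k y).Nonempty := by
  by_contra hcon
  rw [Set.not_nonempty_iff_eq_empty] at hcon
  have h1 := dense_hyp (X := X) (ι := Fin r × ℕ) univ isOpen_univ univ_nonempty
    (fun i j => (k i.1 j : ℂ)) (fun i h0 => hk i.1 (funext fun j => by
      have h2 := congrFun h0 j
      simpa using h2)) (fun i => -(i.2 : ℂ) - y i.1) 1 (fun u _ hu => by
      exfalso
      have h2 : u ∈ DomM k y := by
        intro i n h3
        refine hu (i, n) ?_
        simp only
        linear_combination h3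
      rw [hcon] at h2
      exact h2)
  exact one_ne_zero h1

/-- the functions `ψ^(j)(k_i·x + y_i)`, `Γ(k_i·x + y_i)` -/
noncomputable def gM {X : Type} [Fintype X] {r : ℕ} (s : ℕ) (k : Fin r → X → ℚ) (y : Fin r → ℂ) :
    (Fin r × Fin s) ⊕ Fin r → (X → ℂ) → ℂ
  | Sum.inl p, x => psi (p.2 : ℕ) (∑ j, (k p.1 j : ℂ) * x j + y p.1)
  | Sum.inr i, x => Complex.Gamma (∑ j, (k i j : ℂ) * x j + y i)

theorem gM_an {X : Type} [Fintype X] {r : ℕ} (s : ℕ) (k : Fin r → X → ℚ) (y : Fin r → ℂ)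
    (a : (Fin r × Fin s) ⊕ Fin r) : AnalyticOnNhd ℂ (gM s k y a) (DomM k y) := by
  intro x hx
  have h1 : ∀ i, AnalyticAt ℂ (fun x : X → ℂ => ∑ j, (k i j : ℂ) * x j + y i) x := fun i =>
    (Finset.analyticAt_fun_sum _ fun j _ => analyticAt_const.mul
      ((ContinuousLinearMap.proj (R := ℂ) (φ := fun _ : X => ℂ) j).analyticAt x)).add analyticAt_const
  rcases a with p | i
  · exact AnalyticAt.comp (g := psi (p.2 : ℕ)) (f := fun x : X → ℂ => ∑ j, (k p.1 j : ℂ) * x j + y p.1)
      (psi_an _ (hx _)) (h1 _)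
  · exact AnalyticAt.comp (g := Complex.Gamma) (f := fun x : X → ℂ => ∑ j, (k i j : ℂ) * x j + y i)
      (gam_an (hx _)) (h1 _)

open Classical in
/-- the indicator functions of the sets `{z : k_i·z ∈ y_i + ℤ}` are linearly independent -/
def IndM {X : Type} [Fintype X] {r : ℕ} (k : Fin r → X → ℚ) (y : Fin r → ℂ) : Prop :=
  ∀ m : Fin r → ℚ, (∀ z : X → ℂ,
    ∑ i, m i * (if ∃ n : ℤ, ∑ j, (k i j : ℂ) * z j = y i + n then 1 else 0) = 0) → m = 0

open Classical in
/-- restriction of the indicator functions to lines -/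
theorem indM_line {X : Type} [Fintype X] {r : ℕ} (k : Fin r → X → ℚ) (y : Fin r → ℂ) (h : IndM k y)
    (v : X → ℕ) (c : Fin r → ℚ) (hc : ∀ i, c i = ∑ j, k i j * (v j : ℚ)) (hc0 : ∀ i, c i ≠ 0) (u : X → ℂ)
    (hu : ∀ i i', (fun j => k i j / c i) ≠ (fun j => k i' j / c i') → ∀ a b : ℤ,
      ∑ j, ((k i j / c i : ℚ) - (k i' j / c i' : ℚ) : ℂ) * u j ≠ (y i' + b) / c i' - (y i + a) / c i)
    (m : Fin r → ℚ)
    (hm : ∀ w : ℂ, ∑ i, m i * (if CosQ (c i) (∑ j, (k i j : ℂ) * u j + y i) w then 1 else 0) = 0) : m = 0 := by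
  have hcC : ∀ i, (c i : ℂ) ≠ 0 := fun i => by exact_mod_cast hc0 i
  let g : Fin r → X → ℚ := fun i j => k i j / c i
  refine h m fun z => ?_
  rw [← Finset.sum_fiberwise_of_maps_to (s := Finset.univ) (t := Finset.univ.image g) (g := g)
    (fun i _ => Finset.mem_image_of_mem _ (Finset.mem_univ i))]
  refine Finset.sum_eq_zero fun ρ hρ => ?_
  obtain ⟨i0, -, rfl⟩ := Finset.mem_image.1 hρ
  set w : ℂ := ∑ j, (g i0 j : ℂ) * (z j + u j) with hw
  have hin : ∀ i, g i = g i0 → ((∃ n : ℤ, ∑ j, (k i j : ℂ) * z j = y i + n) ↔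
      CosQ (c i) (∑ j, (k i j : ℂ) * u j + y i) w) := by
    intro i hi
    have h1 : (c i : ℂ) * w = ∑ j, (k i j : ℂ) * z j + ∑ j, (k i j : ℂ) * u j := by
      rw [hw, ← hi, Finset.mul_sum, ← Finset.sum_add_distrib]
      refine Finset.sum_congr rfl fun j _ => ?_
      simp only [g]
      push_cast
      have := hcC i
      field_simp
    unfold CosQ
    rw [h1]
    constructor
    · rintro ⟨n, hn⟩
      exact ⟨n, by rw [hn]; ring⟩
    · rintro ⟨n, hn⟩
      exact ⟨n, by linear_combination hn⟩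
  have hval : ∀ i (n : ℤ), (c i : ℂ) * w = ∑ j, (k i j : ℂ) * u j + y i + n →
      w = ∑ j, (g i j : ℂ) * u j + (y i + n) / c i := by
    intro i n hn
    have h1 : ∑ j, (g i j : ℂ) * u j = (∑ j, (k i j : ℂ) * u j) / c i := by
      rw [Finset.sum_div]
      refine Finset.sum_congr rfl fun j _ => ?_
      simp only [g]
      push_cast
      ring
    rw [h1]
    have := hcC i
    field_simp
    linear_combination hn
  by_cases hcase : ∃ i, g i ≠ g i0 ∧ CosQ (c i) (∑ j, (k i j : ℂ) * u j + y i) w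
  · obtain ⟨i, hi, n, hn⟩ := hcase
    refine Finset.sum_eq_zero fun i' hi' => ?_
    rw [Finset.mem_filter] at hi'
    rw [if_neg, mul_zero]
    rw [hin i' hi'.2]
    rintro ⟨n', hn'⟩
    have h1 := hval i n hn
    have h2 := hval i' n' hn'
    refine hu i i' (fun h3 => hi (h3.trans hi'.2)) n n' ?_
    have h3 : ∑ j, ((k i j / c i : ℚ) - (k i' j / c i' : ℚ) : ℂ) * u j =
        ∑ j, (g i j : ℂ) * u j - ∑ j, (g i' j : ℂ) * u j := by
      rw [← Finset.sum_sub_distrib]
      exact Finset.sum_congr rfl fun j _ => by simp only [g]; ring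
    rw [h3]
    linear_combination h2 - h1
  · push Not at hcase
    refine Eq.trans ?_ (hm w)
    rw [Finset.sum_filter]
    refine Finset.sum_congr rfl fun i _ => ?_
    by_cases hi : g i = g i0
    · rw [if_pos hi]
      congr 1
      simp only [hin i hi]
    · rw [if_neg hi, if_neg (hcase i hi), mul_zero]

/-- algebraic independence -/
theorem gM_ind {X τ : Type} [Fintype X] [DecidableEq X] [Fintype τ] [DecidableEq τ] {r : ℕ} (s : ℕ)
    (k : Fin r → X → ℚ) (y : Fin r → ℂ) (hk : ∀ i, k i ≠ 0) (hind : IndM k y) (L : τ → X → ℝ)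
    (hL : ∀ m : τ → ℤ, (∀ j, ∑ i, (m i : ℝ) * L i j = 0) → m = 0)
    (U : Set (X → ℂ)) (hUo : IsOpen U) (hne : U.Nonempty) (hU : U ⊆ DomM k y)
    (p : MvPolynomial (((Fin r × Fin s) ⊕ Fin r) ⊕ τ) (MvPolynomial X ℂ))
    (hp : ∀ x ∈ U, evM (Sum.elim (gM s k y) fun i x => Complex.exp (∑ j, (L i j : ℂ) * x j)) x p = 0) :
    p = 0 := by
  classical
  refine mvLine (ν := Fin r) U hUo hne (gM s k y) L hL (fun i j => (k i j : ℝ)) (fun i h0 => hk i (funext fun j => by
    have h1 := congrFun h0 j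
    simpa using h1)) (fun v hv => ?_) p hp
  let c : Fin r → ℚ := fun i => ∑ j, k i j * (v j : ℚ)
  have hc0 : ∀ i, c i ≠ 0 := by
    intro i h0
    apply hv i
    have h1 := congrArg (Rat.cast : ℚ → ℝ) h0
    simp only [c] at h1
    push_cast at h1
    exact h1
  refine ⟨{q : Fin r × Fin r // (fun j => k q.1 j / c q.1) ≠ (fun j => k q.2 j / c q.2)} × ℤ × ℤ, inferInstance,
    fun i j => ((k i.1.1.1 j / c i.1.1.1 : ℚ) - (k i.1.1.2 j / c i.1.1.2 : ℚ) : ℂ),
    fun i => (y i.1.1.2 + i.2.2) / c i.1.1.2 - (y i.1.1.1 + i.2.1) / c i.1.1.1, fun i h0 => ?_,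
    fun u huU hu ρ b hb => ?_⟩
  · apply i.1.2
    funext j
    have h1 := congrFun h0 j
    simp only [Pi.zero_apply] at h1
    exact_mod_cast sub_eq_zero.1 h1
  · have hloc := loc s c hc0 (fun i => ∑ j, (k i j : ℂ) * u j + y i) (fun k => (b k : ℂ)) (by
      intro n q hn
      refine hb n ?_
      have h1 := congrArg Complex.re hn
      have h2 : (∑ j, (n j : ℂ) * (b j : ℂ)).re = ∑ j, (n j : ℝ) * b j := by
        have h3 : ∑ j, (n j : ℂ) * (b j : ℂ) = ((∑ j, (n j : ℝ) * b j : ℝ) : ℂ) := by push_cast; rfl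
        rw [h3, Complex.ofReal_re]
      rw [h2] at h1
      rw [h1]
      simp) (by
      intro m hm
      refine indM_line k y hind v c (fun i => rfl) hc0 u (fun i i' hii a b => ?_) m ?_
      · exact hu (⟨(i, i'), hii⟩, a, b)
      · exact hm) 0 (by
      intro i
      rw [mul_zero, zero_add]
      exact hU huU i)
    refine locInd_equiv (Equiv.sumAssoc _ _ _) _ _ 0 (fun a z => ?_) hloc
    have hlin : ∀ i, ∑ j, (k i j : ℂ) * (u j + z * (v j : ℂ)) + y i =
        (c i : ℂ) * z + (∑ j, (k i j : ℂ) * u j + y i) := by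
      intro i
      simp only [c]
      push_cast
      simp only [mul_add, Finset.sum_add_distrib, Finset.sum_mul]
      have h1 : ∑ j, (k i j : ℂ) * (z * (v j : ℂ)) = ∑ j, (k i j : ℂ) * (v j : ℂ) * z :=
        Finset.sum_congr rfl fun j _ => by ring
      rw [h1]
      ring
    rcases a with (p | i) | l
    · change psi (p.2 : ℕ) (∑ j, (k p.1 j : ℂ) * (u j + z * (v j : ℂ)) + y p.1) = psi (p.2 : ℕ) _
      rw [hlin]
    · change Complex.Gamma (∑ j, (k i j : ℂ) * (u j + z * (v j : ℂ)) + y i) = Complex.Gamma _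
      rw [hlin]
    · rfl

end Pool.Agent.Q23.MV
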