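import Pool.Agent.Q23.MV.Ind
import Pool.Agent.Q23.AQ.It

/-!
# Generic lines through the origin
-/

set_option autoImplicit false

open Set Filter Topology NumberField

namespace Pool.Agent.Q23.MV

open Pool.Agent.TH818.AP Pool.Agent.Y771 Pool.Agent.Y890.MV

/-- points at which countably many analytic functions do not vanish unless they vanish identically -/
theorem gen_dense {X ι : Type} [Fintype X] [Countable ι] (G : ι → (X → ℝ) → ℝ)
    (hG : ∀ i, AnalyticOnNhd ℝ (G i) univ) : Dense {s | ∀ i, G i s = 0 → ∀ s', G i s' = 0} := by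
  classical
  have h1 : {s | ∀ i, G i s = 0 → ∀ s', G i s' = 0} = ⋂ i, {s | G i s = 0 → ∀ s', G i s' = 0} := by
    ext s
    simp
  rw [h1]
  have hcont : ∀ i, Continuous (G i) := fun i => by
    rw [← continuousOn_univ]
    exact (hG i).continuousOn
  refine dense_iInter_of_isOpen (fun i => ?_) (fun i => ?_)
  · by_cases h : ∀ s', G i s' = 0
    · have : {s | G i s = 0 → ∀ s', G i s' = 0} = univ := by
        ext s
        simp [h]
      rw [this]
      exact isOpen_univ
    · have : {s | G i s = 0 → ∀ s', G i s' = 0} = {s | G i s ≠ 0} := by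
        ext s
        simp only [mem_ofPred_eq, h, imp_false]
      rw [this]
      exact isOpen_ne_fun (hcont i) continuous_const
  · by_cases h : ∀ s', G i s' = 0
    · have : {s | G i s = 0 → ∀ s', G i s' = 0} = univ := by
        ext s
        simp [h]
      rw [this]
      exact dense_univ
    · have h2 : {s | G i s = 0 → ∀ s', G i s' = 0} = {s | G i s ≠ 0} := by
        ext s
        simp only [mem_ofPred_eq, h, imp_false]
      rw [h2, dense_iff_inter_open]
      intro V hV hne
      by_contra hcon
      rw [Set.not_nonempty_iff_eq_empty] at hcon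
      obtain ⟨s0, hs0⟩ := hne
      apply h
      intro s'
      have h3 : G i =ᶠ[𝓝 s0] 0 := by
        filter_upwards [hV.mem_nhds hs0] with s hs
        by_contra hc
        have : s ∈ V ∩ {s | G i s ≠ 0} := ⟨hs, hc⟩
        rw [hcon] at this
        exact this
      have h4 := (hG i).eqOn_zero_of_preconnected_of_eventuallyEq_zero isPreconnected_univ (mem_univ s0) h3
      exact h4 (mem_univ s')

/-- polynomials which vanish on the generic lines -/
theorem dense_exp {X : Type} [Fintype X] (S : Set (X → ℝ)) (hS : Dense S) (P : MvPolynomial X ℂ)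
    (h : ∀ s ∈ S, MvPolynomial.eval (fun j => ((Real.exp (s j) : ℝ) : ℂ)) P = 0) : P = 0 := by
  have hcont : Continuous fun s : X → ℝ => MvPolynomial.eval (fun j => ((Real.exp (s j) : ℝ) : ℂ)) P := by
    refine (MvPolynomial.continuous_eval P).comp ?_
    exact continuous_pi fun j => Complex.continuous_ofReal.comp (Real.continuous_exp.comp (continuous_apply j))
  have h1 : ∀ s : X → ℝ, MvPolynomial.eval (fun j => ((Real.exp (s j) : ℝ) : ℂ)) P = 0 := by
    intro s
    have h2 : IsClosed {s : X → ℝ | MvPolynomial.eval (fun j => ((Real.exp (s j) : ℝ) : ℂ)) P = 0} :=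
      isClosed_eq hcont continuous_const
    have h3 : S ⊆ {s : X → ℝ | MvPolynomial.eval (fun j => ((Real.exp (s j) : ℝ) : ℂ)) P = 0} := h
    have h4 := h2.closure_subset_iff.2 h3
    rw [hS.closure_eq] at h4
    exact h4 (mem_univ s)
  refine dense_box (fun _ => Ioi 0) (fun _ => Ioi_infinite 0) P fun c hc => ?_
  have h2 := h1 fun j => Real.log (c j)
  have h3 : (fun j => ((Real.exp (Real.log (c j)) : ℝ) : ℂ)) = fun j => ((c j : ℝ) : ℂ) := by
    funext j
    rw [Real.exp_log (hc j)]
  rw [h3] at h2
  exact h2

/-- independence from the restrictions to generic lines through the origin -/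
theorem mvInd_lines {X σ : Type} [Fintype X] [Fintype σ] [DecidableEq σ] (U : Set (X → ℂ))
    (f : σ → (X → ℂ) → ℂ) (hU : ∀ x : X → ℝ, (∀ j, 0 < x j) → (fun j => (x j : ℂ)) ∈ U) (S : Set (X → ℝ))
    (hS : Dense S) (u : (X → ℝ) → σ → ℝ → ℝ)
    (hfu : ∀ s ∈ S, ∀ t ∈ Icc (1 : ℝ) 2, ∀ y, f y (fun j => ((Real.exp (s j) * t : ℝ) : ℂ)) = (u s y t : ℂ))
    (hu : ∀ s ∈ S, ∀ d : ℕ, RIndep (fun (e : σ → Fin (d + 1)) (t : ℝ) => ∏ k, u s k t ^ (e k : ℕ)) 1 2)
    (p : MvPolynomial σ (MvPolynomial X ℂ)) (hp : ∀ x ∈ U, evM f x p = 0) : p = 0 := by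
  refine mvInd (I := S) U f (fun s j => Polynomial.C (Real.exp (s.1 j)) * Polynomial.X) (fun _ => 1) (fun _ => 2)
    (fun s => u s.1) ?_ ?_ (fun s d => hu s.1 s.2 d) ?_ p hp
  · intro s t ht
    simp only [Polynomial.eval_mul, Polynomial.eval_C, Polynomial.eval_X]
    exact hU _ fun j => mul_pos (Real.exp_pos _) (lt_of_lt_of_le one_pos ht.1)
  · intro s t ht y
    simp only [Polynomial.eval_mul, Polynomial.eval_C, Polynomial.eval_X]
    exact hfu s.1 s.2 t ht y
  · intro P hP
    refine dense_exp S hS P fun s hs => ?_
    have h1 := hP ⟨s, hs⟩ 1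
    simpa only [Polynomial.eval_mul, Polynomial.eval_C, Polynomial.eval_X, mul_one] using h1

/-- one variable: `s` and `e^s` are algebraically independent -/
theorem exp_one (p : MvPolynomial (Option (Fin 1)) ℝ)
    (hp : ∀ s : ℝ, MvPolynomial.eval (fun o : Option (Fin 1) => o.elim s fun _ => Real.exp s) p = 0) : p = 0 := by
  refine RP.mv_of_exp (fun (_ : Fin 1) => Real.exp) (Icc 0 1) (fun d q hq => ?_) p fun t _ => hp t
  have h := AQ.It.ind 1 d 0 1 one_pos
  refine h q fun t ht => ?_
  rw [← hq t ht]
  refine Finset.sum_congr rfl fun e _ => ?_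
  congr 1

/-- `s_j`, `e^(s_j)` are algebraically independent -/
theorem exp_ind {X : Type} [Fintype X] [DecidableEq X] (P : MvPolynomial (X ⊕ X) ℝ)
    (hP : ∀ s : X → ℝ, MvPolynomial.eval (Sum.elim s fun j => Real.exp (s j)) P = 0) : P = 0 := by
  classical
  have key : ∀ S : Finset X, ∀ u v : X → ℝ, (∀ j, j ∉ S → v j = Real.exp (u j)) →
      MvPolynomial.eval (Sum.elim u v) P = 0 := by
    intro S
    induction S using Finset.induction_on with
    | empty =>
      intro u v h
      have : v = fun j => Real.exp (u j) := funext fun j => h j (Finset.notMem_empty j)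
      rw [this]
      exact hP u
    | insert j0 S hj0 ih =>
      intro u v h
      let g : X ⊕ X → MvPolynomial (Option (Fin 1)) ℝ := Sum.elim
        (fun j => if j = j0 then MvPolynomial.X none else MvPolynomial.C (u j))
        (fun j => if j = j0 then MvPolynomial.X (some 0) else MvPolynomial.C (v j))
      have hev : ∀ a b : ℝ, MvPolynomial.eval (fun o : Option (Fin 1) => o.elim a fun _ => b)
          (MvPolynomial.aeval g P) = MvPolynomial.eval (Sum.elim (Function.update u j0 a) (Function.update v j0 b)) P := by
        intro a b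
        have h1 : (MvPolynomial.eval (fun o : Option (Fin 1) => o.elim a fun _ => b)).comp
            ((MvPolynomial.aeval g : MvPolynomial (X ⊕ X) ℝ →ₐ[ℝ] _) : MvPolynomial (X ⊕ X) ℝ →+* _) =
            MvPolynomial.eval (Sum.elim (Function.update u j0 a) (Function.update v j0 b)) := by
          apply MvPolynomial.ringHom_ext
          · intro c
            rw [RingHom.comp_apply, RingHom.coe_coe, MvPolynomial.aeval_C, MvPolynomial.algebraMap_eq,
              MvPolynomial.eval_C, MvPolynomial.eval_C]
          · intro i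
            rw [RingHom.comp_apply, RingHom.coe_coe, MvPolynomial.aeval_X, MvPolynomial.eval_X]
            rcases i with j | j
            · by_cases hj : j = j0
              · subst hj
                simp only [g, Sum.elim_inl, if_true, MvPolynomial.eval_X, Option.elim_none, Function.update_self]
              · simp only [g, Sum.elim_inl, if_neg hj, MvPolynomial.eval_C]
                rw [Function.update_of_ne hj]
            · by_cases hj : j = j0
              · subst hj
                simp only [g, Sum.elim_inr, if_true, MvPolynomial.eval_X, Option.elim_some, Function.update_self]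
              · simp only [g, Sum.elim_inr, if_neg hj, MvPolynomial.eval_C]
                rw [Function.update_of_ne hj]
        exact congrArg (fun ψ => ψ P) h1
      have h0 : MvPolynomial.aeval g P = 0 := by
        refine exp_one _ fun s => ?_
        rw [hev]
        refine ih _ _ fun j hj => ?_
        by_cases h2 : j = j0
        · subst h2
          simp
        · rw [Function.update_of_ne h2, Function.update_of_ne h2]
          exact h j (by simp [h2, hj])
      have h3 := hev (u j0) (v j0)
      rw [h0, map_zero, Function.update_eq_self, Function.update_eq_self] at h3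
      exact h3.symm
  refine MvPolynomial.funext fun w => ?_
  rw [map_zero]
  have h1 := key Finset.univ (fun j => w (Sum.inl j)) (fun j => w (Sum.inr j)) (fun j hj => absurd (Finset.mem_univ j) hj)
  have h2 : (Sum.elim (fun j => w (Sum.inl j)) fun j => w (Sum.inr j)) = w := by
    funext i
    rcases i with j | j <;> rfl
  rw [h2] at h1
  exact h1

/-- linear independence of the functions `e^(k·s) s^i` -/
theorem exp_lin {X σ : Type} [Fintype X] [DecidableEq X] (S : Finset σ) (k i : σ → X → ℕ)
    (hinj : ∀ l ∈ S, ∀ l' ∈ S, k l = k l' → i l = i l' → l = l') (a : σ → ℝ)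
    (h : ∀ s : X → ℝ, ∑ l ∈ S, a l * (Real.exp (∑ j, (k l j : ℝ) * s j) * ∏ j, s j ^ i l j) = 0) :
    ∀ l ∈ S, a l = 0 := by
  classical
  let ex : σ → (X ⊕ X →₀ ℕ) := fun l => Finsupp.equivFunOnFinite.symm (Sum.elim (i l) (k l))
  have h0 : ∑ l ∈ S, MvPolynomial.monomial (ex l) (a l) = 0 := by
    refine exp_ind _ fun s => ?_
    rw [map_sum, ← h s]
    refine Finset.sum_congr rfl fun l _ => ?_
    rw [MvPolynomial.eval_monomial, Finsupp.prod_fintype _ _ (fun _ => pow_zero _), Fintype.prod_sum_type]
    simp only [ex, Finsupp.equivFunOnFinite_symm_apply_apply, Sum.elim_inl, Sum.elim_inr]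
    rw [Real.exp_sum]
    simp only [Real.exp_nat_mul]
    ring
  intro l hl
  have h1 := congrArg (MvPolynomial.coeff (ex l)) h0
  rw [MvPolynomial.coeff_sum, MvPolynomial.coeff_zero, Finset.sum_eq_single l] at h1
  · simpa using h1
  · intro l' hl' hne
    rw [MvPolynomial.coeff_monomial, if_neg]
    intro h2
    apply hne
    have h3 : Sum.elim (i l') (k l') = Sum.elim (i l) (k l) := Finsupp.equivFunOnFinite.symm.injective h2
    refine hinj l' hl' l hl ?_ ?_
    · funext j
      exact congrFun h3 (Sum.inr j)
    · funext j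
      exact congrFun h3 (Sum.inl j)
  · intro h2
    exact absurd hl h2

end Pool.Agent.Q23.MV
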