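import Mathlib

/-!
# Points of grids on few hypersurfaces
-/

set_option autoImplicit false

namespace Pool.Agent.Q23.MV

open Finset Fintype

theorem grid_count {n : ℕ} (hn : 1 ≤ n) (Φ : Finset (MvPolynomial (Fin n) ℂ)) (D : ℕ)
    (hΦ : ∀ Q ∈ Φ, Q ≠ 0 ∧ Q.totalDegree ≤ D) (S : Finset ℂ) :
    ((piFinset fun _ : Fin n => S).filter fun f => ∃ Q ∈ Φ, MvPolynomial.eval f Q = 0).card ≤
      Φ.card * (D * S.card ^ (n - 1)) := by
  classical
  have h1 : ((piFinset fun _ : Fin n => S).filter fun f => ∃ Q ∈ Φ, MvPolynomial.eval f Q = 0) ⊆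
      Φ.biUnion fun Q => (piFinset fun _ : Fin n => S).filter fun f => MvPolynomial.eval f Q = 0 := by
    intro f hf
    rw [mem_filter] at hf
    obtain ⟨hf1, Q, hQ, hQ0⟩ := hf
    rw [mem_biUnion]
    exact ⟨Q, hQ, mem_filter.2 ⟨hf1, hQ0⟩⟩
  refine (card_le_card h1).trans ?_
  refine card_biUnion_le_card_mul _ _ _ fun Q hQ => ?_
  obtain ⟨hQ0, hQD⟩ := hΦ Q hQ
  rcases S.eq_empty_or_nonempty with rfl | hS
  · haveI : Nonempty (Fin n) := ⟨⟨0, hn⟩⟩
    have h2 : (piFinset fun _ : Fin n => (∅ : Finset ℂ)) = ∅ := by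
      rw [Fintype.piFinset_eq_empty]
      exact ⟨⟨0, hn⟩, rfl⟩
    rw [h2]
    simp
  · have h2 := MvPolynomial.schwartz_zippel_totalDegree hQ0 S
    have hS0 : (0 : ℚ) < S.card := by exact_mod_cast hS.card_pos
    have h3 : ((((piFinset fun _ : Fin n => S).filter fun f => MvPolynomial.eval f Q = 0).card : ℕ) : ℚ) /
        ((S.card : ℚ) ^ n) ≤ (Q.totalDegree : ℚ) / S.card := by exact_mod_cast h2
    have h4 : (S.card : ℚ) ^ n = S.card ^ (n - 1) * S.card := by
      rw [← pow_succ, Nat.sub_add_cancel hn]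
    rw [h4, div_le_div_iff₀ (by positivity) hS0] at h3
    have h5 : ((((piFinset fun _ : Fin n => S).filter fun f => MvPolynomial.eval f Q = 0).card : ℕ) : ℚ) ≤
        Q.totalDegree * (S.card : ℚ) ^ (n - 1) := by
      rw [← mul_assoc] at h3
      exact le_of_mul_le_mul_right h3 hS0
    have h6 : ((piFinset fun _ : Fin n => S).filter fun f => MvPolynomial.eval f Q = 0).card ≤
        Q.totalDegree * S.card ^ (n - 1) := by exact_mod_cast h5
    exact h6.trans (Nat.mul_le_mul_right _ hQD)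

end Pool.Agent.Q23.MV
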