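import Pool.Agent.Q23.MV.Fub
import Pool.Agent.TH659.HY.Fun

/-!
# Integrals of the first and second kind on varying hyperelliptic curves, between varying points
-/

set_option autoImplicit false

open Set Filter Topology Polynomial

namespace Pool.Agent.Q23.MV

open Pool.Agent.TH818.AP Pool.Agent.Y771 Pool.Agent.Y890.MV

/-- one curve and one point -/
theorem fibre (f : ℝ[X]) (hf : Squarefree f) (m : ℕ) (hm : m + 1 ≤ f.natDegree) (a b : ℝ) (hab : a < b)
    (hpos : ∀ t ∈ Icc a b, 0 < f.eval t) (y : ℂ → ℂ) (v : Fin m → ℂ → ℂ)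
    (hy : ContinuousOn (fun t : ℝ => y t) (Icc a b)) (hy2 : ∀ t ∈ Icc a b, y t ^ 2 = ((f.eval t : ℝ) : ℂ))
    (hv : ∀ j : Fin m, ∀ t ∈ Icc a b, HasDerivAt (v j) ((t : ℂ) ^ (j : ℕ) / y t) t) :
    AI (Icc a b) (fun (o : Option (Fin m)) (t : ℝ) => o.elim (t : ℂ) fun j => v j t) := by
  classical
  obtain ⟨ε, hε, hpos'⟩ := TH659.HY.enlarge f a b hab.le hpos
  have hpos'' : ∀ t ∈ Ioo (a - ε) (b + ε), 0 < f.eval t := fun t ht => hpos' t ⟨ht.1.le, ht.2.le⟩
  have hac : a ∈ Ioo (a - ε) (b + ε) := ⟨by linarith, by linarith⟩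
  have hsub : Icc a b ⊆ Ioo (a - ε) (b + ε) := fun t ht => ⟨by linarith [ht.1], by linarith [ht.2]⟩
  have hd : ∀ (j : ℕ), ∀ t ∈ Icc a b, HasDerivAt (TH659.HY.HI f a j) (t ^ j / √(f.eval t)) t := fun j t ht =>
    TH659.HY.HI_deriv f _ _ hpos'' a hac j t (hsub ht)
  -- the sign
  have hsgn : ∃ s : ℂ, (s = 1 ∨ s = -1) ∧ ∀ t ∈ Icc a b, y t = s * (√(f.eval t) : ℝ) := by
    have h1 : ContinuousOn (fun t : ℝ => ((√(f.eval t) : ℝ) : ℂ)) (Icc a b) :=
      (Complex.continuous_ofReal.comp (Real.continuous_sqrt.comp f.continuous)).continuousOn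
    have h2 := isPreconnected_Icc.eq_or_eq_neg_of_sq_eq hy h1 (fun t ht => by
      have h3 : ((√(f.eval t) : ℝ) : ℂ) ^ 2 = ((f.eval t : ℝ) : ℂ) := by
        rw [← Complex.ofReal_pow, Real.sq_sqrt (hpos t ht).le]
      simp only [Pi.pow_apply]
      rw [hy2 t ht, h3]) (fun {t} ht => by
      have : √(f.eval t) ≠ 0 := (Real.sqrt_pos.2 (hpos t ht)).ne'
      exact_mod_cast this)
    rcases h2 with h2 | h2
    · exact ⟨1, Or.inl rfl, fun t ht => by rw [one_mul]; exact h2 ht⟩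
    · exact ⟨-1, Or.inr rfl, fun t ht => by rw [neg_one_mul]; exact h2 ht⟩
  obtain ⟨s, hs, hys⟩ := hsgn
  have hs0 : s ≠ 0 := by rcases hs with rfl | rfl <;> simp
  have hss : s * s = 1 := by rcases hs with rfl | rfl <;> simp
  -- the functions differ by constants
  have hconst : ∀ j : Fin m, ∀ t ∈ Icc a b, v j t = s * (TH659.HY.HI f a j t : ℂ) + v j a := by
    intro j t ht
    have h1 : ∀ x ∈ Icc a b, HasDerivWithinAt (fun x : ℝ => v j x - s * (TH659.HY.HI f a j x : ℂ)) 0 (Icc a b) x := by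
      intro x hx
      have h2 : HasDerivAt (fun x : ℝ => v j x) ((x : ℂ) ^ (j : ℕ) / y x) x := (hv j x hx).comp_ofReal
      have h3 : HasDerivAt (fun x : ℝ => s * (TH659.HY.HI f a j x : ℂ)) (s * ((x ^ (j : ℕ) / √(f.eval x) : ℝ) : ℂ)) x :=
        ((hd j x hx).ofReal_comp).const_mul s
      have h4 := h2.sub h3
      have h5 : (x : ℂ) ^ (j : ℕ) / y x - s * ((x ^ (j : ℕ) / √(f.eval x) : ℝ) : ℂ) = 0 := by
        rw [hys x hx]
        have h6 : ((√(f.eval x) : ℝ) : ℂ) ≠ 0 := by exact_mod_cast (Real.sqrt_pos.2 (hpos x hx)).ne'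
        push_cast
        field_simp
        linear_combination (-(x : ℂ) ^ (j : ℕ)) * hss
      rw [h5] at h4
      exact h4.hasDerivWithinAt
    have h2 := (convex_Icc a b).norm_image_sub_le_of_norm_hasDerivWithin_le (C := 0) h1 (fun x _ => by simp)
      (left_mem_Icc.2 hab.le) ht
    rw [zero_mul, norm_le_zero_iff] at h2
    have h3 : TH659.HY.HI f a j a = 0 := by
      simp [TH659.HY.HI]
    rw [h3] at h2
    push_cast at h2
    linear_combination h2
  have hAI := AI_of_rind (fun (j : Fin m) (t : ℝ) => TH659.HY.HI f a (j : ℕ) t) a b (fun d =>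
    TH659.HY.HI_ind f hf m d hm a b hab hpos a (left_mem_Icc.2 hab.le))
  have h2 := hAI.affine (fun o => o.elim 1 fun _ => s) (fun o => o.elim 0 fun j => v j a) (fun o => by
    rcases o with _ | j
    · exact one_ne_zero
    · exact hs0)
  refine h2.congr fun o t ht => ?_
  rcases o with _ | j
  · simp
  · simp only [Option.elim]
    exact hconst j t ht

/-- real points of the space of parameters `λ` and points `x` -/
noncomputable def rp {p n : ℕ} (μ : Fin p → ℝ) (x : Fin n → ℝ) : Fin p ⊕ Fin n → ℂ :=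
  Sum.elim (fun l => (μ l : ℂ)) (fun i => (x i : ℂ))

/-- all curves and all points -/
theorem hyp_ind {p n m : ℕ} {κ : Type} (F : (Fin p → ℝ) → ℝ[X]) (lam0 : Fin p → ℝ) (x0 : Fin n → ℝ)
    (hF : ∀ᶠ μ in 𝓝 lam0, Squarefree (F μ) ∧ m + 1 ≤ (F μ).natDegree)
    (hFp : ∀ i, ∀ᶠ q : (Fin p → ℝ) × ℝ in 𝓝 (lam0, x0 i), 0 < (F q.1).eval q.2)
    (U : Set (Fin p ⊕ Fin n → ℂ)) (hUo : IsOpen U) (h0 : rp lam0 x0 ∈ U)
    (y : Fin n → (Fin p → ℂ) → ℂ → ℂ) (v : Fin n → Fin m → (Fin p → ℂ) → ℂ → ℂ)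
    (hyc : ∀ i, ContinuousOn (fun z : Fin p ⊕ Fin n → ℂ => y i (fun l => z (Sum.inl l)) (z (Sum.inr i))) U)
    (hy2 : ∀ i (μ : Fin p → ℝ) (x : Fin n → ℝ), rp μ x ∈ U → y i (fun l => (μ l : ℂ)) (x i) ^ 2 = (((F μ).eval (x i) : ℝ) : ℂ))
    (hv : ∀ i j, ∀ z ∈ U, HasDerivAt (v i j fun l => z (Sum.inl l))
      (z (Sum.inr i) ^ (j : ℕ) / y i (fun l => z (Sum.inl l)) (z (Sum.inr i))) (z (Sum.inr i)))
    (w : κ → (Fin p → ℂ) → ℂ)
    (hw : ∀ P : MvPolynomial (κ ⊕ Fin p) ℂ, (∀ᶠ μ : Fin p → ℝ in 𝓝 lam0, MvPolynomial.eval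
      (Sum.elim (fun k => w k fun l => (μ l : ℂ)) (fun l => (μ l : ℂ))) P = 0) → P = 0) :
    AI U (Sum.elim (Sum.elim
      (fun (a : Fin n × Fin m) (z : Fin p ⊕ Fin n → ℂ) => v a.1 a.2 (fun l => z (Sum.inl l)) (z (Sum.inr a.1)))
      (fun k z => w k fun l => z (Sum.inl l))) (fun j z => z j)) := by
  classical
  -- a box
  obtain ⟨δ, hδ, hball⟩ : ∃ δ > 0, ∀ (μ : Fin p → ℝ) (x : Fin n → ℝ), (∀ l, |μ l - lam0 l| < δ) →
      (∀ i, |x i - x0 i| < δ) → rp μ x ∈ U := by
    obtain ⟨δ, hδ, h1⟩ := Metric.isOpen_iff.1 hUo _ h0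
    refine ⟨δ, hδ, fun μ x hμ hx => h1 ?_⟩
    rw [Metric.mem_ball, dist_pi_lt_iff hδ]
    rintro (l | i)
    · simp only [rp, Sum.elim_inl, Complex.dist_eq]
      rw [← Complex.ofReal_sub, Complex.norm_real, Real.norm_eq_abs]
      exact hμ l
    · simp only [rp, Sum.elim_inr, Complex.dist_eq]
      rw [← Complex.ofReal_sub, Complex.norm_real, Real.norm_eq_abs]
      exact hx i
  obtain ⟨δ₁, hδ₁, hF1⟩ := Metric.eventually_nhds_iff_ball.1 hF
  have hex : ∀ i, ∃ δ > 0, ∀ (μ : Fin p → ℝ) (t : ℝ), dist μ lam0 < δ → |t - x0 i| < δ → 0 < (F μ).eval t := by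
    intro i
    obtain ⟨δ, hδ, h1⟩ := Metric.eventually_nhds_iff_ball.1 (hFp i)
    refine ⟨δ, hδ, fun μ t hμ ht => h1 (μ, t) ?_⟩
    rw [Metric.mem_ball, Prod.dist_eq, max_lt_iff]
    exact ⟨hμ, by rw [Real.dist_eq]; exact ht⟩
  choose δ₂ hδ₂ hF2 using hex
  obtain ⟨η, hη, hη0, hη1, hη2⟩ : ∃ η > 0, η ≤ δ ∧ η ≤ δ₁ ∧ ∀ i, η ≤ δ₂ i := by
    obtain ⟨η', hη', h1⟩ : ∃ η' > 0, ∀ i, η' ≤ δ₂ i := by
      by_cases hn : Nonempty (Fin n)
      · obtain ⟨i0, -, hi0⟩ := Finset.exists_min_image Finset.univ δ₂ Finset.univ_nonempty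
        exact ⟨δ₂ i0, hδ₂ i0, fun i => hi0 i (Finset.mem_univ i)⟩
      · exact ⟨1, one_pos, fun i => (hn ⟨i⟩).elim⟩
    exact ⟨min η' (min δ δ₁), lt_min hη' (lt_min hδ hδ₁), (min_le_right _ _).trans (min_le_left _ _),
      (min_le_right _ _).trans (min_le_right _ _), fun i => (min_le_left _ _).trans (h1 i)⟩
  have hμball : ∀ μ ∈ Metric.ball lam0 η, ∀ l, |μ l - lam0 l| < η := by
    intro μ hμ l
    rw [← Real.dist_eq]
    exact (dist_pi_lt_iff hη).1 (Metric.mem_ball.1 hμ) l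
  have habs : ∀ i, ∀ t ∈ Icc (x0 i - η / 2) (x0 i + η / 2), |t - x0 i| < η := by
    intro i t ht
    rw [abs_lt]
    constructor
    · linarith [ht.1]
    · linarith [ht.2]
  intro P hP
  let e : ((Fin n × Fin m) ⊕ κ) ⊕ (Fin p ⊕ Fin n) → (Fin n × Option (Fin m)) ⊕ (κ ⊕ Fin p) :=
    Sum.elim (Sum.elim (fun a => Sum.inl (a.1, some a.2)) fun k => Sum.inr (Sum.inl k))
      (Sum.elim (fun l => Sum.inr (Sum.inr l)) fun i => Sum.inl (i, none))
  have he : Function.Injective e := by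
    rintro ((⟨i, j⟩ | k) | (l | i)) ((⟨i', j'⟩ | k') | (l' | i')) h <;> simp_all [e]
  have h1 := fub (σ₁ := Fin n × Option (Fin m)) (σ₂ := κ ⊕ Fin p) (Ω₁ := Fin n → ℝ) (Ω₂ := Fin p → ℝ)
    (Metric.ball lam0 η) (fun _ => {x | ∀ i, x i ∈ Icc (x0 i - η / 2) (x0 i + η / 2)})
    (fun a μ x => a.2.elim (x a.1 : ℂ) fun j => v a.1 j (fun l => (μ l : ℂ)) (x a.1))
    (fun a μ => Sum.elim (fun k => w k fun l => (μ l : ℂ)) (fun l => (μ l : ℂ)) a)
    (fun Q hQ => hw Q (by
      filter_upwards [Metric.ball_mem_nhds lam0 hη] with μ hμ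
      exact hQ μ hμ))
    (fun μ hμ => AI.prod n (fun i => Icc (x0 i - η / 2) (x0 i + η / 2))
      (fun i (o : Option (Fin m)) (t : ℝ) => o.elim (t : ℂ) fun j => v i j (fun l => (μ l : ℂ)) t) fun i => by
        have hμ' : dist μ lam0 < η := Metric.mem_ball.1 hμ
        -- points of `U`
        have hpt : ∀ t ∈ Icc (x0 i - η / 2) (x0 i + η / 2), rp μ (Function.update x0 i t) ∈ U := by
          intro t ht
          refine hball μ _ (fun l => (hμball μ hμ l).trans_le hη0) fun i' => ?_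
          by_cases h2 : i' = i
          · subst h2
            rw [Function.update_self]
            exact (habs i' t ht).trans_le hη0
          · rw [Function.update_of_ne h2, sub_self, abs_zero]
            exact hδ
        have hup : ∀ t : ℝ, (rp μ (Function.update x0 i t)) (Sum.inr i) = (t : ℂ) := by
          intro t
          simp [rp]
        refine fibre (F μ) (hF1 μ (Metric.mem_ball.2 (hμ'.trans_le hη1))).1 m
          (hF1 μ (Metric.mem_ball.2 (hμ'.trans_le hη1))).2 _ _ (by linarith)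
          (fun t ht => hF2 i μ t (hμ'.trans_le (hη2 i)) ((habs i t ht).trans_le (hη2 i)))
          (y i fun l => (μ l : ℂ)) (fun j => v i j fun l => (μ l : ℂ)) ?_ ?_ ?_
        · have h2 : ContinuousOn (fun t : ℝ => rp μ (Function.update x0 i t)) (Icc (x0 i - η / 2) (x0 i + η / 2)) := by
            refine Continuous.continuousOn (continuous_pi fun a => ?_)
            rcases a with l | i'
            · exact continuous_const
            · by_cases h3 : i' = i
              · subst h3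
                simp only [rp, Sum.elim_inr, Function.update_self]
                exact Complex.continuous_ofReal
              · simp only [rp, Sum.elim_inr, Function.update_of_ne h3]
                exact continuous_const
          have h3 := (hyc i).comp h2 hpt
          refine h3.congr fun t ht => ?_
          simp only [Function.comp_apply, hup]
          rfl
        · intro t ht
          have h2 := hy2 i μ _ (hpt t ht)
          rw [Function.update_self] at h2
          exact h2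
        · intro j t ht
          have h2 := hv i j _ (hpt t ht)
          rw [hup] at h2
          exact h2)
    (MvPolynomial.rename e P) (by
      intro μ hμ x hx
      rw [MvPolynomial.eval_rename]
      have h2 := hP (rp μ x) (hball μ x (fun l => (hμball μ hμ l).trans_le hη0) fun i =>
        (habs i (x i) (hx i)).trans_le hη0)
      rw [← h2]
      congr 2
      funext a
      rcases a with (a | k) | (l | i) <;> rfl)
  exact MvPolynomial.rename_injective _ he (by rw [h1, map_zero])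

end Pool.Agent.Q23.MV
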