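import Pool.Agent.Q23.MV.Hyp
import Pool.Agent.Q29.HypInd4

/-!
# The complete periods of all hyperelliptic curves `y² = ∏ (x - e_r)`: independence near real points
-/

set_option autoImplicit false

open Set Filter Topology

namespace Pool.Agent.Q23.MV

open Pool.Agent.TH818.AP Pool.Agent.Y771 Pool.Agent.Y890.MV Pool.Agent.Y118.HP Pool.Agent.Q29.HypInd

theorem strictMono_near {N : ℕ} (e0 : Fin (N + 1) → ℝ) (he0 : StrictMono e0) : ∀ᶠ e in 𝓝 e0, StrictMono e := by
  have h1 : ∀ i j : Fin (N + 1), ∀ᶠ e : Fin (N + 1) → ℝ in 𝓝 e0, i < j → e i < e j := by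
    intro i j
    by_cases hij : i < j
    · have h2 : ∀ᶠ e : Fin (N + 1) → ℝ in 𝓝 e0, e i < e j :=
        (isOpen_lt (continuous_apply i) (continuous_apply j)).mem_nhds (he0 hij)
      filter_upwards [h2] with e he _ using he
    · exact Eventually.of_forall fun e h => absurd h hij
  filter_upwards [eventually_all.2 fun i => eventually_all.2 fun j => h1 i j] with e he i j hij
  exact he i j hij

/-- the coordinates are independent on a real box -/
theorem AI_coord {N : ℕ} (Z : Fin N → Set ℝ) (hZ : ∀ i, (Z i).Infinite) :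
    AI {a : Fin N → ℝ | ∀ i, a i ∈ Z i} (fun i a => ((a i : ℝ) : ℂ)) := by
  intro P hP
  refine MvPolynomial.funext_set (fun i => Complex.ofReal '' Z i) (fun i => (hZ i).image Complex.ofReal_injective.injOn)
    fun x hx => ?_
  rw [map_zero]
  choose a ha using fun i => hx i (mem_univ i)
  have h1 : x = fun i => ((a i : ℝ) : ℂ) := by
    funext i
    exact ((ha i).2).symm
  rw [h1]
  exact hP a fun i => (ha i).1

theorem per_ind {N : ℕ} (hN : Even N) (e0 : Fin (N + 1) → ℝ) (he0 : StrictMono e0)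
    (w : LT N → (Fin (N + 1) → ℂ) → ℂ)
    (hw : ∀ᶠ e : Fin (N + 1) → ℝ in 𝓝 e0, ∀ k : LT N, w k (fun r => (e r : ℂ)) = ((per e k.1.1 k.1.2 : ℝ) : ℂ))
    (P : MvPolynomial (LT N ⊕ Fin (N + 1)) ℂ)
    (hP : ∀ᶠ μ : Fin (N + 1) → ℝ in 𝓝 e0, MvPolynomial.eval
      (Sum.elim (fun k => w k fun l => (μ l : ℂ)) (fun l => (μ l : ℂ))) P = 0) : P = 0 := by
  classical
  obtain ⟨δ, hδ, hball⟩ := Metric.eventually_nhds_iff_ball.1 ((strictMono_near e0 he0).and (hw.and hP))
  have hbox : ∀ (a : Fin N → ℝ) (t : ℝ), (∀ i, a i ∈ Icc (e0 i.castSucc - δ / 2) (e0 i.castSucc + δ / 2)) →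
      t ∈ Icc (e0 (Fin.last N) - δ / 2) (e0 (Fin.last N) + δ / 2) → er a (Fin.last N) t ∈ Metric.ball e0 δ := by
    intro a t ha ht
    rw [Metric.mem_ball, dist_pi_lt_iff hδ]
    intro r
    refine Fin.lastCases ?_ (fun i => ?_) r
    · have h1 : er a (Fin.last N) t (Fin.last N) = t := by simp [er]
      rw [h1, Real.dist_eq, abs_lt]
      constructor
      · linarith [ht.1]
      · linarith [ht.2]
    · have h1 : er a (Fin.last N) t i.castSucc = a i := by
        have := Fin.insertNth_apply_succAbove (α := fun _ => ℝ) (Fin.last N) t a i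
        rw [Fin.succAbove_last] at this
        exact this
      rw [h1, Real.dist_eq, abs_lt]
      constructor
      · linarith [(ha i).1]
      · linarith [(ha i).2]
  let Z₂ : Set (Fin N → ℝ) := {a | ∀ i, a i ∈ Icc (e0 i.castSucc - δ / 2) (e0 i.castSucc + δ / 2)}
  let Z₁ : Set ℝ := Icc (e0 (Fin.last N) - δ / 2) (e0 (Fin.last N) + δ / 2)
  have h2 : AI Z₂ (fun (i : Fin N) a => ((a i : ℝ) : ℂ)) :=
    AI_coord (fun i => Icc (e0 i.castSucc - δ / 2) (e0 i.castSucc + δ / 2)) fun i => Icc_infinite (by linarith)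
  have h1 : ∀ a ∈ Z₂, AI Z₁ (fun (o : Option (LT N)) (t : ℝ) => o.elim (t : ℂ) fun k => (fH a (Fin.last N) k t : ℂ)) := by
    intro a ha
    have hg : ∀ t ∈ Z₁, StrictMono (er a (Fin.last N) t) := fun t ht => (hball _ (hbox a t ha ht)).1
    have hm : e0 (Fin.last N) ∈ Z₁ := ⟨by linarith, by linarith⟩
    refine AI_of_rind (fun k t => fH a (Fin.last N) k t) _ _ fun d => ?_
    exact fH_ind hN (inGap_of (hg _ hm)).1 (Fin.last N) d _ _ (by linarith) fun t ht => (inGap_of (hg t ht)).2
  let ρ : LT N ⊕ Fin (N + 1) → Option (LT N) ⊕ Fin N :=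
    Sum.elim (fun k => Sum.inl (some k)) (fun r => Fin.lastCases (motive := fun _ => Option (LT N) ⊕ Fin N)
      (Sum.inl none) (fun i => Sum.inr i) r)
  have hρ : Function.Injective ρ := by
    rintro (k | r) (k' | r') h
    · simp only [ρ, Sum.elim_inl, Sum.inl.injEq, Option.some.injEq] at h
      rw [h]
    · revert h
      refine Fin.lastCases ?_ (fun i => ?_) r' <;> intro h <;> simp [ρ] at h
    · revert h
      refine Fin.lastCases ?_ (fun i => ?_) r <;> intro h <;> simp [ρ] at h
    · revert h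
      refine Fin.lastCases ?_ (fun i => ?_) r <;> refine Fin.lastCases ?_ (fun i' => ?_) r' <;> intro h <;>
        simp [ρ] at h
      · rfl
      · rw [h]
  have h3 := fub Z₂ (fun _ => Z₁) (fun (o : Option (LT N)) a (t : ℝ) => o.elim (t : ℂ) fun k => (fH a (Fin.last N) k t : ℂ))
    (fun (i : Fin N) a => ((a i : ℝ) : ℂ)) h2 h1 (MvPolynomial.rename ρ P) (by
      intro a ha t ht
      rw [MvPolynomial.eval_rename]
      obtain ⟨-, h4, h5⟩ := hball _ (hbox a t ha ht)
      rw [← h5]
      congr 2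
      funext x
      rcases x with k | r
      · simp only [ρ, Function.comp, Sum.elim_inl, Option.elim]
        rw [h4 k]
        rfl
      · simp only [ρ, Function.comp, Sum.elim_inr]
        refine Fin.lastCases ?_ (fun i => ?_) r
        · simp [er]
        · have h6 : er a (Fin.last N) t i.castSucc = a i := by
            have := Fin.insertNth_apply_succAbove (α := fun _ => ℝ) (Fin.last N) t a i
            rw [Fin.succAbove_last] at this
            exact this
          rw [h6]
          simp)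
  exact MvPolynomial.rename_injective _ hρ (by rw [h3, map_zero])

end Pool.Agent.Q23.MV
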