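import Pool.Agent.Q23.MV.Few

/-!
# Independence of functions of several variables from their restrictions to polynomial curves
-/

set_option autoImplicit false

open Set Filter Topology NumberField

namespace Pool.Agent.Q23.MV

open Pool.Agent.TH818.AP Pool.Agent.Y771 Pool.Agent.Y890.MV

theorem eval_oer {σ : Type} (t : ℂ) (v : σ → ℂ) (q : MvPolynomial σ (Polynomial ℂ)) :
    MvPolynomial.eval (fun o : Option σ => o.elim t v) ((MvPolynomial.optionEquivRight ℂ σ).symm q) =
      MvPolynomial.eval₂ (Polynomial.evalRingHom t) v q := by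
  have h1 : ((MvPolynomial.eval (fun o : Option σ => o.elim t v)).comp
      ((MvPolynomial.optionEquivRight ℂ σ).symm : MvPolynomial σ (Polynomial ℂ) ≃+* _).toRingHom) =
      MvPolynomial.eval₂Hom (Polynomial.evalRingHom t) v := by
    apply MvPolynomial.ringHom_ext
    · intro p
      induction p using Polynomial.induction_on' with
      | add p q hp hq =>
        rw [map_add, map_add, map_add, hp, hq]
      | monomial n a =>
        have h2 : (MvPolynomial.optionEquivRight ℂ σ).symm (MvPolynomial.C (Polynomial.monomial n a)) =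
            MvPolynomial.C a * MvPolynomial.X none ^ n := by
          rw [AlgEquiv.symm_apply_eq, map_mul, map_pow, MvPolynomial.optionEquivRight_C,
            MvPolynomial.optionEquivRight_X_none, ← map_pow, ← map_mul, Polynomial.C_mul_X_pow_eq_monomial]
        change MvPolynomial.eval _ ((MvPolynomial.optionEquivRight ℂ σ).symm _) = _
        rw [h2]
        simp [Polynomial.eval_monomial]
    · intro i
      have h2 : (MvPolynomial.optionEquivRight ℂ σ).symm (MvPolynomial.X i) = MvPolynomial.X (some i) := by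
        rw [AlgEquiv.symm_apply_eq, MvPolynomial.optionEquivRight_X_some]
      change MvPolynomial.eval _ ((MvPolynomial.optionEquivRight ℂ σ).symm _) = _
      rw [h2]
      simp
  exact congrArg (fun φ => φ q) h1

/-- independence from the restrictions to real polynomial curves -/
theorem mvInd {X σ I : Type} [Fintype X] [Fintype σ] [DecidableEq σ] (U : Set (X → ℂ)) (f : σ → (X → ℂ) → ℂ)
    (γ : I → X → Polynomial ℝ) (a b : I → ℝ) (u : I → σ → ℝ → ℝ)
    (hγ : ∀ i, ∀ t ∈ Icc (a i) (b i), (fun j => (((γ i j).eval t : ℝ) : ℂ)) ∈ U)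
    (hfu : ∀ i, ∀ t ∈ Icc (a i) (b i), ∀ y, f y (fun j => (((γ i j).eval t : ℝ) : ℂ)) = (u i y t : ℂ))
    (hu : ∀ i (d : ℕ), RIndep (fun (e : σ → Fin (d + 1)) (t : ℝ) => ∏ k, u i k t ^ (e k : ℕ)) (a i) (b i))
    (hdense : ∀ P : MvPolynomial X ℂ,
      (∀ i, ∀ t : ℝ, MvPolynomial.eval (fun j => (((γ i j).eval t : ℝ) : ℂ)) P = 0) → P = 0)
    (p : MvPolynomial σ (MvPolynomial X ℂ)) (hp : ∀ x ∈ U, evM f x p = 0) : p = 0 := by
  classical
  ext s : 1
  rw [MvPolynomial.coeff_zero]
  refine hdense _ fun i => ?_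
  -- the restriction of `p` to the curve
  let φ : MvPolynomial X ℂ →+* Polynomial ℂ :=
    (MvPolynomial.aeval (fun j => (γ i j).map Complex.ofRealHom) : MvPolynomial X ℂ →ₐ[ℂ] Polynomial ℂ).toRingHom
  have hφ : ∀ (t : ℝ) (r : MvPolynomial X ℂ),
      (φ r).eval (t : ℂ) = MvPolynomial.eval (fun j => (((γ i j).eval t : ℝ) : ℂ)) r := by
    intro t r
    have h1 : (Polynomial.evalRingHom (t : ℂ)).comp φ = MvPolynomial.eval (fun j => (((γ i j).eval t : ℝ) : ℂ)) := by
      apply MvPolynomial.ringHom_ext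
      · intro c
        simp [φ]
      · intro j
        simp only [φ, AlgHom.toRingHom_eq_coe, RingHom.comp_apply, RingHom.coe_coe, MvPolynomial.aeval_X,
          Polynomial.coe_evalRingHom, MvPolynomial.eval_X]
        rw [show (t : ℂ) = Complex.ofRealHom t from rfl, Polynomial.eval_map_apply]
        rfl
    exact congrArg (fun ψ => ψ r) h1
  set q : MvPolynomial σ (Polynomial ℂ) := MvPolynomial.map φ p with hq
  set P : MvPolynomial (Option σ) ℂ := (MvPolynomial.optionEquivRight ℂ σ).symm q with hP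
  -- the functions on the curve
  obtain ⟨fc, hfc⟩ : ∃ fc : σ → ℂ → ℂ, ∀ y, ∀ t : ℝ, fc y (t : ℂ) = (u i y t : ℂ) :=
    ⟨fun y z => (u i y z.re : ℂ), fun y t => by simp⟩
  have hP0 : P = 0 := by
    refine RP.ind_of_real fc (u i) (Icc (a i) (b i)) (fun y t _ => hfc y t) (fun Q hQ => ?_) P fun t ht => ?_
    · exact RP.mv_of_exp (u i) (Icc (a i) (b i)) (fun d p hp => hu i d p hp) Q hQ
    · rw [hP, eval_oer, hq, MvPolynomial.eval₂_map]
      have h1 := hp _ (hγ i t ht)
      rw [evM] at h1
      rw [← h1]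
      have h2 : (fun y => fc y (t : ℂ)) = fun y => f y (fun j => (((γ i j).eval t : ℝ) : ℂ)) := by
        funext y
        rw [hfc, hfu i t ht y]
      have h3 : (Polynomial.evalRingHom (t : ℂ)).comp φ =
          MvPolynomial.eval (fun j => (((γ i j).eval t : ℝ) : ℂ)) := RingHom.ext fun r => hφ t r
      rw [h2, h3]
  have hq0 : q = 0 := by
    have h1 : (MvPolynomial.optionEquivRight ℂ σ) P = q := by rw [hP, AlgEquiv.apply_symm_apply]
    rw [← h1, hP0, map_zero]
  intro t
  rw [← hφ t, ← MvPolynomial.coeff_map, ← hq, hq0, MvPolynomial.coeff_zero, Polynomial.eval_zero]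

/-- polynomials which vanish at the real points of a box -/
theorem dense_box {X : Type} [Fintype X] (S : X → Set ℝ) (hS : ∀ j, (S j).Infinite) (P : MvPolynomial X ℂ)
    (h : ∀ c : X → ℝ, (∀ j, c j ∈ S j) → MvPolynomial.eval (fun j => ((c j : ℝ) : ℂ)) P = 0) : P = 0 := by
  refine MvPolynomial.funext_set (fun j => (fun x : ℝ => (x : ℂ)) '' S j)
    (fun j => (hS j).image Complex.ofReal_injective.injOn) fun v hv => ?_
  rw [map_zero]
  choose c hc1 hc2 using fun j => hv j (Set.mem_univ j)
  have h1 := h c hc1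
  have h2 : (fun j => ((c j : ℝ) : ℂ)) = v := funext hc2
  rw [← h2]
  exact h1

end Pool.Agent.Q23.MV
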