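import Pool.Agent.Q23.MV.Hyp
import Pool.Agent.Q23.AQ.Comb
import Pool.Agent.Helper822.TC.ParamInt

/-!
# The complete elliptic integrals in the complex domain, and their independence near real points
-/

set_option autoImplicit false

open Set Filter Topology

namespace Pool.Agent.Q23.MV

open Pool.Agent.TH818.AP Pool.Agent.TH818.AR Pool.Agent.Y771 Pool.Agent.Y890.MV

/-- `∫_0^{π/2} (1 - z sin²θ)^s dθ` -/
noncomputable def ellI (s : ℂ) (z : ℂ) : ℂ := ∫ θ in (0 : ℝ)..(Real.pi / 2), (1 - z * Complex.sin (θ : ℂ) ^ 2) ^ s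

theorem slit {z : ℂ} (hz : z.im ≠ 0 ∨ z.re < 1) (θ : ℝ) : 1 - z * Complex.sin (θ : ℂ) ^ 2 ∈ Complex.slitPlane := by
  have h1 : Complex.sin (θ : ℂ) ^ 2 = ((Real.sin θ ^ 2 : ℝ) : ℂ) := by push_cast; rfl
  rw [h1, Complex.mem_slitPlane_iff]
  have hre : (1 - z * ((Real.sin θ ^ 2 : ℝ) : ℂ)).re = 1 - z.re * Real.sin θ ^ 2 := by
    rw [Complex.sub_re, Complex.one_re, Complex.re_mul_ofReal]
  have him : (1 - z * ((Real.sin θ ^ 2 : ℝ) : ℂ)).im = -(z.im * Real.sin θ ^ 2) := by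
    rw [Complex.sub_im, Complex.one_im, Complex.im_mul_ofReal, zero_sub]
  rw [hre, him]
  have h0 : 0 ≤ Real.sin θ ^ 2 := sq_nonneg _
  have h2 : Real.sin θ ^ 2 ≤ 1 := Real.sin_sq_le_one θ
  by_cases h3 : Real.sin θ ^ 2 = 0
  · left
    rw [h3]
    norm_num
  · rcases hz with hz | hz
    · right
      exact neg_ne_zero.2 (mul_ne_zero hz h3)
    · left
      have h4 : 0 < Real.sin θ ^ 2 := lt_of_le_of_ne h0 (Ne.symm h3)
      nlinarith

theorem ellI_an (s : ℂ) {z : ℂ} (hz : z.im ≠ 0 ∨ z.re < 1) : AnalyticAt ℂ (ellI s) z := by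
  refine TC.param_analytic (fun q : ℂ × ℂ => (1 - q.1 * Complex.sin q.2 ^ 2) ^ s) z 0 (Real.pi / 2)
    (by positivity) fun θ _ => ?_
  have h1 : AnalyticAt ℂ (fun q : ℂ × ℂ => 1 - q.1 * Complex.sin q.2 ^ 2) (z, (θ : ℂ)) := by
    refine analyticAt_const.sub (analyticAt_fst.mul (AnalyticAt.pow ?_ 2))
    exact (Complex.analyticAt_sin).comp analyticAt_snd
  exact h1.cpow analyticAt_const (slit hz θ)

theorem ellI_K {t : ℝ} (ht : t < 1) : ellI (-1 / 2) (t : ℂ) = (KK t : ℂ) := by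
  unfold ellI KK
  rw [← intervalIntegral.integral_ofReal]
  refine intervalIntegral.integral_congr fun θ _ => ?_
  have h1 : (1 - (t : ℂ) * Complex.sin (θ : ℂ) ^ 2) = ((1 - t * Real.sin θ ^ 2 : ℝ) : ℂ) := by push_cast; rfl
  have hpos : 0 < 1 - t * Real.sin θ ^ 2 := by
    have h0 : 0 ≤ Real.sin θ ^ 2 := sq_nonneg _
    have h2 : Real.sin θ ^ 2 ≤ 1 := Real.sin_sq_le_one θ
    rcases h0.eq_or_lt with h | h
    · rw [← h]
      norm_num
    · nlinarith
  rw [h1]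
  have h3 : (-1 / 2 : ℂ) = (((-1 / 2 : ℝ)) : ℂ) := by push_cast; ring
  rw [h3, ← Complex.ofReal_cpow hpos.le]
  congr 1
  rw [Real.sqrt_eq_rpow, show (-1 / 2 : ℝ) = -(1 / 2) by ring, Real.rpow_neg hpos.le]
  exact (one_div _).symm

theorem ellI_E {t : ℝ} (ht : t < 1) : ellI (1 / 2) (t : ℂ) = (EE t : ℂ) := by
  unfold ellI EE
  rw [← intervalIntegral.integral_ofReal]
  refine intervalIntegral.integral_congr fun θ _ => ?_
  have h1 : (1 - (t : ℂ) * Complex.sin (θ : ℂ) ^ 2) = ((1 - t * Real.sin θ ^ 2 : ℝ) : ℂ) := by push_cast; rfl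
  have hpos : 0 < 1 - t * Real.sin θ ^ 2 := by
    have h0 : 0 ≤ Real.sin θ ^ 2 := sq_nonneg _
    have h2 : Real.sin θ ^ 2 ≤ 1 := Real.sin_sq_le_one θ
    rcases h0.eq_or_lt with h | h
    · rw [← h]
      norm_num
    · nlinarith
  rw [h1]
  have h3 : (1 / 2 : ℂ) = (((1 / 2 : ℝ)) : ℂ) := by push_cast; ring
  rw [h3, ← Complex.ofReal_cpow hpos.le]
  congr 1
  rw [Real.sqrt_eq_rpow]

/-- `K(z)`, `E(z)`, `K(1 - z)` -/
noncomputable def KEK (i : Fin 3) (z : ℂ) : ℂ :=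
  if i = 0 then ellI (-1 / 2) z else if i = 1 then ellI (1 / 2) z else ellI (-1 / 2) (1 - z)

theorem KEK_an (i : Fin 3) {z : ℂ} (hz : z.im ≠ 0 ∨ (0 < z.re ∧ z.re < 1)) : AnalyticAt ℂ (KEK i) z := by
  have h1 : z.im ≠ 0 ∨ z.re < 1 := by
    rcases hz with h | h
    · exact Or.inl h
    · exact Or.inr h.2
  have h2 : (1 - z).im ≠ 0 ∨ (1 - z).re < 1 := by
    rcases hz with h | h
    · left
      rw [Complex.sub_im, Complex.one_im, zero_sub]
      exact neg_ne_zero.2 h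
    · right
      rw [Complex.sub_re, Complex.one_re]
      linarith [h.1]
  unfold KEK
  split_ifs
  · exact ellI_an _ h1
  · exact ellI_an _ h1
  · exact AnalyticAt.comp (g := ellI (-1 / 2)) (f := fun z : ℂ => 1 - z) (ellI_an _ h2)
      (analyticAt_const.sub analyticAt_id)

theorem KEK_real (i : Fin 3) {t : ℝ} (h0 : 0 < t) (h1 : t < 1) : KEK i (t : ℂ) = (KC 0 1 i t : ℂ) := by
  unfold KEK KC
  simp only [sub_zero, div_one]
  have h2 : (1 : ℂ) - (t : ℂ) = ((1 - t : ℝ) : ℂ) := by push_cast; rfl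
  split_ifs
  · exact ellI_K h1
  · exact ellI_E h1
  · rw [h2]
    exact ellI_K (by linarith)

/-- independence near real points -/
theorem KEK_ind (t0 : ℝ) (h0 : 0 < t0) (h1 : t0 < 1) (P : MvPolynomial (Fin 3 ⊕ Fin 1) ℂ)
    (hP : ∀ᶠ μ : Fin 1 → ℝ in 𝓝 (fun _ => t0), MvPolynomial.eval
      (Sum.elim (fun k => KEK k (μ 0 : ℂ)) (fun l => (μ l : ℂ))) P = 0) : P = 0 := by
  classical
  have hP' : ∀ᶠ t : ℝ in 𝓝 t0, MvPolynomial.eval
      (Sum.elim (fun k => KEK k (t : ℂ)) (fun _ : Fin 1 => (t : ℂ))) P = 0 := by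
    have hc : Tendsto (fun t : ℝ => (fun _ : Fin 1 => t)) (𝓝 t0) (𝓝 fun _ => t0) :=
      (continuous_pi fun _ => continuous_id).tendsto t0
    exact hc.eventually hP
  obtain ⟨δ, hδ, hball⟩ := Metric.eventually_nhds_iff_ball.1 (hP'.and (Ioo_mem_nhds h0 h1))
  set a := t0 - δ / 2 with ha
  set b := t0 + δ / 2 with hb
  have hmem : ∀ t ∈ Icc a b, t ∈ Metric.ball t0 δ := by
    intro t ht
    rw [Metric.mem_ball, Real.dist_eq, abs_lt]
    constructor
    · linarith [ht.1]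
    · linarith [ht.2]
  have hab : a < b := by linarith
  have ha0 := (hball a (hmem a ⟨le_rfl, hab.le⟩)).2
  have hb0 := (hball b (hmem b ⟨hab.le, le_rfl⟩)).2
  have hempty : ∀ (d : ℕ) (a' b' : ℝ), a' < b' →
      RIndep (fun (e : Fin 0 → Fin (d + 1)) (t : ℝ) => ∏ k, (fun i : Fin 0 => (i.elim0 : ℝ → ℝ)) k t ^ (e k : ℕ)) a' b' := by
    intro d a' b' hab' q hq
    funext e
    have h2 : q e = 0 := by
      refine Polynomial.eq_zero_of_infinite_isRoot _ ((Icc_infinite hab').mono fun t ht => ?_)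
      have h3 := hq t ht
      rw [Fintype.sum_eq_single e (fun e' he' => absurd (Subsingleton.elim e' e) he')] at h3
      simpa using h3
    exact h2
  have hr := fun d : ℕ => Q23.AQ.comb_leg (κ := Fin 0) (d := d) (N := 1) (fun i => i.elim0) (-1) 2 a b
    (by linarith [ha0.1]) hab (by linarith [hb0.2]) (fun i => i.elim0) (fun a' b' _ h _ => hempty d a' b' h)
    (fun _ => 0) (fun _ => 1) (Subsingleton.strictAnti _) (Subsingleton.strictMono _) (fun _ => one_pos)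
    (fun _ => by norm_num) (fun _ => by norm_num) (fun _ => ⟨ha0.1.le, hb0.2.le⟩)
  have hAI := AI_of_rind _ a b hr
  have h2 := hAI.comp (fun x : Fin 3 ⊕ Fin 1 => Sum.elim (fun k : Fin 3 => (some (Sum.inl (0, k)) :
    Option ((Fin 1 × Fin 3) ⊕ Fin 0))) (fun _ => none) x) (by
      rintro (k | l) (k' | l') h
      · simp at h
        rw [h]
      · simp at h
      · simp at h
      · rw [Subsingleton.elim l l'])
  refine h2 P fun t ht => ?_
  rw [← (hball t (hmem t ht)).1]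
  congr 2
  funext x
  rcases x with k | l
  · simp only [Sum.elim_inl, Option.elim]
    rw [KEK_real k (hball t (hmem t ht)).2.1 (hball t (hmem t ht)).2.2]
  · rfl

end Pool.Agent.Q23.MV
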