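import Pool.Agent.Q23.MV.Fub

/-!
# Functions at the points `∑ q_t ξ_t`
-/

set_option autoImplicit false

open Set Filter Topology

namespace Pool.Agent.Q23.MV.LinS

open Pool.Agent.Y890.MV

variable {X : Type} {s : ℕ}

/-- the linear map `q ↦ (∑_t q_(b,t) ξ_t)_b` -/
def Lam (ξ : Fin s → ℂ) (q : X × Fin s → ℂ) (b : X) : ℂ := ∑ t, q (b, t) * ξ t

/-- a section through `q` -/
noncomputable def Sec (ξ : Fin s → ℂ) (t0 : Fin s) (q : X × Fin s → ℂ) (z : X → ℂ) : X × Fin s → ℂ := fun b =>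
  if b.2 = t0 then (ξ t0)⁻¹ * (z b.1 - ∑ t ∈ Finset.univ.erase t0, q (b.1, t) * ξ t) else q b

theorem Lam_Sec (ξ : Fin s → ℂ) (t0 : Fin s) (h : ξ t0 ≠ 0) (q : X × Fin s → ℂ) (z : X → ℂ) :
    Lam ξ (Sec ξ t0 q z) = z := by
  funext b
  unfold Lam
  rw [← Finset.add_sum_erase Finset.univ _ (Finset.mem_univ t0)]
  have h1 : ∑ t ∈ Finset.univ.erase t0, Sec ξ t0 q z (b, t) * ξ t = ∑ t ∈ Finset.univ.erase t0, q (b, t) * ξ t := by
    refine Finset.sum_congr rfl fun t ht => ?_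
    rw [Sec, if_neg (Finset.ne_of_mem_erase ht)]
  rw [h1, Sec, if_pos rfl]
  field_simp
  ring

theorem Sec_Lam (ξ : Fin s → ℂ) (t0 : Fin s) (h : ξ t0 ≠ 0) (q : X × Fin s → ℂ) : Sec ξ t0 q (Lam ξ q) = q := by
  funext ⟨b, t⟩
  unfold Sec
  by_cases ht : t = t0
  · subst ht
    rw [if_pos rfl]
    simp only [Lam]
    rw [← Finset.add_sum_erase Finset.univ _ (Finset.mem_univ t)]
    field_simp
    ring
  · rw [if_neg ht]

theorem Lam_cont (ξ : Fin s → ℂ) : Continuous (Lam (X := X) ξ) :=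
  continuous_pi fun b => continuous_finsetSum _ fun t _ => (continuous_apply (b, t)).mul continuous_const

theorem Lam_an [Fintype X] (ξ : Fin s → ℂ) (q : X × Fin s → ℂ) : AnalyticAt ℂ (Lam (X := X) ξ) q :=
  analyticAt_pi_iff.2 fun b => Finset.analyticAt_fun_sum _ fun t _ =>
    ((ContinuousLinearMap.proj (R := ℂ) (φ := fun _ : X × Fin s => ℂ) (b, t)).analyticAt q).mul analyticAt_const

theorem pre_conn (ξ : Fin s → ℂ) (t0 : Fin s) (h : ξ t0 ≠ 0) (U : Set (X → ℂ)) (hU : IsPreconnected U) :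
    IsPreconnected (Lam ξ ⁻¹' U) := by
  have h1 : Lam ξ ⁻¹' U = (fun w : (X → ℂ) × (X × Fin s → ℂ) => Sec ξ t0 w.2 w.1) '' (U ×ˢ univ) := by
    ext q
    constructor
    · intro hq
      exact ⟨(Lam ξ q, q), ⟨hq, mem_univ _⟩, Sec_Lam ξ t0 h q⟩
    · rintro ⟨⟨z, q'⟩, ⟨hz, -⟩, rfl⟩
      show Lam ξ (Sec ξ t0 q' z) ∈ U
      rw [Lam_Sec ξ t0 h]
      exact hz
  rw [h1]
  refine (hU.prod isPreconnected_univ).image _ (Continuous.continuousOn ?_)
  refine continuous_pi fun b => ?_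
  unfold Sec
  by_cases hb : b.2 = t0
  · simp only [if_pos hb]
    exact continuous_const.mul (((continuous_apply b.1).comp continuous_fst).sub
      (continuous_finsetSum _ fun t _ => ((continuous_apply (b.1, t)).comp continuous_snd).mul continuous_const))
  · simp only [if_neg hb]
    exact (continuous_apply b).comp continuous_snd

theorem ind_lin {σ : Type} (ξ : Fin s → ℂ) (t0 : Fin s) (h : ξ t0 ≠ 0) (U : Set (X → ℂ)) (f : σ → (X → ℂ) → ℂ)
    (ind : ∀ p : MvPolynomial σ (MvPolynomial X ℂ), (∀ z ∈ U, evM f z p = 0) → p = 0)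
    (p : MvPolynomial σ (MvPolynomial (X × Fin s) ℂ))
    (hp : ∀ q ∈ Lam ξ ⁻¹' U, evM (fun a q => f a (Lam ξ q)) q p = 0) : p = 0 := by
  classical
  ext1 m
  rw [MvPolynomial.coeff_zero]
  refine MvPolynomial.funext fun q => ?_
  rw [map_zero]
  let φ : MvPolynomial (X × Fin s) ℂ →+* MvPolynomial X ℂ := (MvPolynomial.aeval (fun b : X × Fin s =>
    if b.2 = t0 then MvPolynomial.C (ξ t0)⁻¹ * (MvPolynomial.X b.1 - MvPolynomial.C (∑ t ∈ Finset.univ.erase t0, q (b.1, t) * ξ t))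
      else MvPolynomial.C (q b) : X × Fin s → MvPolynomial X ℂ)).toRingHom
  have hφ : ∀ z : X → ℂ, (MvPolynomial.eval z).comp φ = MvPolynomial.eval (Sec ξ t0 q z) := by
    intro z
    apply MvPolynomial.ringHom_ext
    · intro c
      simp [φ]
    · intro b
      simp only [φ, RingHom.comp_apply, AlgHom.toRingHom_eq_coe, RingHom.coe_coe, MvPolynomial.aeval_X, MvPolynomial.eval_X]
      unfold Sec
      split_ifs with hb
      · simp only [map_mul, map_sub, MvPolynomial.eval_C, MvPolynomial.eval_X]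
      · simp only [MvPolynomial.eval_C]
  have h1 : MvPolynomial.map φ p = 0 := by
    refine ind _ fun z hz => ?_
    have hz' : Sec ξ t0 q z ∈ Lam ξ ⁻¹' U := by
      show Lam ξ (Sec ξ t0 q z) ∈ U
      rw [Lam_Sec ξ t0 h]
      exact hz
    have h2 : MvPolynomial.eval₂ (MvPolynomial.eval (Sec ξ t0 q z)) (fun i => f i (Lam ξ (Sec ξ t0 q z))) p = 0 := hp _ hz'
    unfold evM
    rw [Lam_Sec ξ t0 h] at h2
    rw [MvPolynomial.eval₂_map, hφ]
    exact h2
  have h2 := congrArg (MvPolynomial.coeff m) h1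
  rw [MvPolynomial.coeff_map, MvPolynomial.coeff_zero] at h2
  have h3 := congrArg (MvPolynomial.eval (Lam ξ q)) h2
  rw [map_zero] at h3
  have h4 := congrArg (fun ψ => ψ (MvPolynomial.coeff m p)) (hφ (Lam ξ q))
  simp only [RingHom.comp_apply] at h4
  rw [h3, Sec_Lam ξ t0 h] at h4
  exact h4.symm

end Pool.Agent.Q23.MV.LinS
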