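import Pool.Agent.Q23.MV.Loc

/-!
# Independence of functions of several variables from their restrictions to complex lines: general versions
-/

set_option autoImplicit false

open Set Filter Topology

namespace Pool.Agent.Q23.MV

open Pool.Agent.TH818.AP Pool.Agent.Y771 Pool.Agent.Y890.MV

/-- polynomials which vanish at the real points of a set outside of countably many hyperplanes -/
theorem dense_real {X ι : Type} [Fintype X] [DecidableEq X] [Countable ι] (U : Set (X → ℂ)) (x0 : X → ℝ) (ε : ℝ)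
    (hε : 0 < ε) (hU : ∀ x : X → ℝ, (∀ j, |x j - x0 j| < ε) → (fun j => (x j : ℂ)) ∈ U)
    (a : ι → X → ℝ) (ha : ∀ i, a i ≠ 0) (c : ι → ℝ) (P : MvPolynomial X ℂ)
    (h : ∀ u : X → ℝ, (fun j => (u j : ℂ)) ∈ U → (∀ i, ∑ j, a i j * u j ≠ c i) →
      MvPolynomial.eval (fun j => (u j : ℂ)) P = 0) : P = 0 := by
  have hcont : ∀ i, Continuous fun u : X → ℝ => ∑ j, a i j * u j := fun i =>
    continuous_finset_sum _ fun j _ => continuous_const.mul (continuous_apply j)
  have hD : Dense (⋂ i, {u : X → ℝ | ∑ j, a i j * u j ≠ c i}) := by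
    refine dense_iInter_of_isOpen (fun i => isOpen_ne_fun (hcont i) continuous_const) fun i => ?_
    obtain ⟨j0, hj0⟩ : ∃ j, a i j ≠ 0 := by
      by_contra hcon
      push Not at hcon
      exact ha i (funext hcon)
    rw [dense_iff_inter_open]
    rintro V hV ⟨s0, hs0⟩
    by_cases h0 : ∑ j, a i j * s0 j = c i
    · have h1 : Tendsto (fun ε : ℝ => s0 + Pi.single j0 ε) (𝓝[≠] 0) (𝓝 s0) := by
        have h2 : Continuous fun ε : ℝ => s0 + (Pi.single j0 ε : X → ℝ) :=
          continuous_const.add (continuous_single (A := fun _ : X => ℝ) j0)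
        have h3 := h2.tendsto 0
        rw [Pi.single_zero, add_zero] at h3
        exact h3.mono_left nhdsWithin_le_nhds
      have h2 : ∀ᶠ ε in 𝓝[≠] (0 : ℝ), s0 + (Pi.single j0 ε : X → ℝ) ∈ V := h1.eventually (hV.mem_nhds hs0)
      obtain ⟨ε, hε1, hε2⟩ := (h2.and self_mem_nhdsWithin).exists
      refine ⟨_, hε1, ?_⟩
      simp only [mem_ofPred_eq, Pi.add_apply, mul_add, Finset.sum_add_distrib, h0]
      rw [Finset.sum_eq_single j0 (fun j _ hj => by rw [Pi.single_eq_of_ne hj, mul_zero])
        (fun h => absurd (Finset.mem_univ _) h), Pi.single_eq_same]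
      intro h3
      have h4 : a i j0 * ε = 0 := by linear_combination h3
      exact (mul_ne_zero hj0 hε2) h4
    · exact ⟨s0, hs0, h0⟩
  have hcP : Continuous fun u : X → ℝ => MvPolynomial.eval (fun j => (u j : ℂ)) P :=
    (MvPolynomial.continuous_eval P).comp
      (continuous_pi fun j => Complex.continuous_ofReal.comp (continuous_apply j))
  have h1 : Metric.ball x0 ε ⊆ {u : X → ℝ | MvPolynomial.eval (fun j => (u j : ℂ)) P = 0} := by
    have h2 : IsClosed {u : X → ℝ | MvPolynomial.eval (fun j => (u j : ℂ)) P = 0} :=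
      isClosed_eq hcP continuous_const
    refine (hD.open_subset_closure_inter Metric.isOpen_ball).trans (h2.closure_subset_iff.2 ?_)
    rintro u ⟨hu, hu2⟩
    rw [Metric.mem_ball, dist_pi_lt_iff hε] at hu
    refine h u (hU u fun j => ?_) fun i => mem_iInter.1 hu2 i
    rw [← Real.dist_eq]
    exact hu j
  refine dense_box (fun j => Metric.ball (x0 j) ε) (fun j => ?_) P fun v hv => ?_
  · exact infinite_of_mem_nhds (x0 j) (Metric.ball_mem_nhds _ hε)
  · refine h1 ?_
    rw [Metric.mem_ball, dist_pi_lt_iff hε]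
    exact fun j => hv j

/-- One variable: functions which are independent together with all finite sets of independent exponentials with
frequencies in a group `B` are linearly independent over the exponentials with frequencies in `B`. -/
theorem lineOneG {σ ι : Type} [Fintype σ] [DecidableEq σ] [DecidableEq ι] (h : σ → ℂ → ℂ) (B : AddSubgroup ℝ)
    (hloc : ∀ (ρ : ℕ) (b : Fin ρ → ℝ), (∀ k, b k ∈ B) → (∀ m : Fin ρ → ℤ, ∑ k, (m k : ℝ) * b k = 0 → m = 0) →
      Y124.LocInd (Sum.elim h fun (k : Fin ρ) z => Complex.exp ((b k : ℂ) * z)) 0)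
    (S : Finset ι) (α : ι → σ →₀ ℕ) (lam : ι → ℝ) (hlam : ∀ i ∈ S, lam i ∈ B) (hinj : Set.InjOn (fun i => (α i, lam i)) S)
    (c : ι → Polynomial ℂ)
    (hc : ∀ᶠ t in 𝓝 (0 : ℂ), ∑ i ∈ S, (c i).eval t * (∏ y, h y t ^ α i y) * Complex.exp ((lam i : ℂ) * t) = 0) :
    ∀ i ∈ S, c i = 0 := by
  classical
  -- a basis of the group generated by the frequencies
  let G : Submodule ℤ ℝ := Submodule.span ℤ (S.image lam : Set ℝ)
  haveI : Module.Finite ℤ G := Module.Finite.span_of_finite ℤ (S.image lam).finite_toSet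
  haveI : Module.Free ℤ G := Module.free_of_finite_type_torsion_free'
  let bas := Module.finBasis ℤ G
  set ρ := Module.finrank ℤ G with hρ
  let b : Fin ρ → ℝ := fun k => (bas k : ℝ)
  have hbB : ∀ k, b k ∈ B := by
    have h1 : G ≤ AddSubgroup.toIntSubmodule B := by
      refine Submodule.span_le.2 fun x hx => ?_
      rw [Finset.mem_coe, Finset.mem_image] at hx
      obtain ⟨i, hi, rfl⟩ := hx
      exact hlam i hi
    exact fun k => h1 (bas k).2
  have hb : ∀ m : Fin ρ → ℤ, ∑ k, (m k : ℝ) * b k = 0 → m = 0 := by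
    intro m hm
    have h1 : ∑ k, m k • bas k = 0 := by
      apply Subtype.ext
      have h2 : ((∑ k, m k • bas k : G) : ℝ) = 0 := by
        push_cast
        rw [← hm]
        simp [b]
      rw [h2]
      rfl
    exact funext (Fintype.linearIndependent_iff.1 bas.linearIndependent m h1)
  have hN : ∀ i ∈ S, ∃ n : Fin ρ → ℤ, ∑ k, (n k : ℝ) * b k = lam i := by
    intro i hi
    have h1 : lam i ∈ G := Submodule.subset_span (by simpa using ⟨i, hi, rfl⟩)
    refine ⟨fun k => bas.repr ⟨lam i, h1⟩ k, ?_⟩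
    have h2 := bas.sum_repr ⟨lam i, h1⟩
    have h3 := congrArg (Subtype.val) h2
    push_cast at h3
    refine Eq.trans ?_ h3
    simp [b]
  choose! n hn using hN
  -- a common shift
  obtain ⟨M, hM⟩ : ∃ M : ℕ, ∀ i ∈ S, ∀ k, 0 ≤ n i k + M := by
    refine ⟨∑ i ∈ S, ∑ k, (n i k).natAbs, fun i hi k => ?_⟩
    have h1 : (n i k).natAbs ≤ ∑ i ∈ S, ∑ k, (n i k).natAbs :=
      (Finset.single_le_sum (f := fun k => (n i k).natAbs) (fun _ _ => Nat.zero_le _) (Finset.mem_univ k)).trans
        (Finset.single_le_sum (f := fun i => ∑ k, (n i k).natAbs) (fun _ _ => Nat.zero_le _) hi)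
    omega
  let E : ι → ℕ → Option (σ ⊕ Fin ρ) →₀ ℕ := fun i r => Finsupp.equivFunOnFinite.symm fun o =>
    o.elim r (Sum.elim (fun y => α i y) fun k => (n i k + M).toNat)
  have hE : ∀ i ∈ S, ∀ r, ∀ i' ∈ S, ∀ r', E i r = E i' r' → i = i' ∧ r = r' := by
    intro i hi r i' hi' r' hEE
    have h1 := fun o => DFunLike.congr_fun hEE o
    have hr : r = r' := h1 none
    refine ⟨hinj hi hi' ?_, hr⟩
    have h2 : α i = α i' := Finsupp.ext fun y => h1 (some (Sum.inl y))
    have h3 : n i = n i' := by
      funext k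
      have h4 : (n i k + M).toNat = (n i' k + M).toNat := h1 (some (Sum.inr k))
      have h5 := hM i hi k
      have h6 := hM i' hi' k
      omega
    refine Prod.ext h2 ?_
    change lam i = lam i'
    rw [← hn i hi, ← hn i' hi', h3]
  let Q : MvPolynomial (Option (σ ⊕ Fin ρ)) ℂ :=
    ∑ i ∈ S, ∑ r ∈ Finset.range ((c i).natDegree + 1), MvPolynomial.monomial (E i r) ((c i).coeff r)
  have hQ : Q = 0 := by
    refine hloc ρ b hbB hb Q ?_
    filter_upwards [hc] with t ht
    simp only [Q, map_sum]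
    have h1 : ∀ i ∈ S, ∑ r ∈ Finset.range ((c i).natDegree + 1),
        MvPolynomial.eval (fun o : Option (σ ⊕ Fin ρ) => o.elim t fun y =>
          Sum.elim h (fun (k : Fin ρ) z => Complex.exp ((b k : ℂ) * z)) y t)
          (MvPolynomial.monomial (E i r) ((c i).coeff r)) =
        Complex.exp ((∑ k, (M : ℂ) * b k) * t) *
          ((c i).eval t * (∏ y, h y t ^ α i y) * Complex.exp ((lam i : ℂ) * t)) := by
      intro i hi
      obtain ⟨W, hW⟩ : ∃ W, W = Complex.exp ((∑ k, (M : ℂ) * b k) * t) := ⟨_, rfl⟩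
      rw [← hW, Polynomial.eval_eq_sum_range, Finset.sum_mul, Finset.sum_mul, Finset.mul_sum]
      refine Finset.sum_congr rfl fun r _ => ?_
      rw [MvPolynomial.eval_monomial, Finsupp.prod_fintype _ _ (fun _ => pow_zero _), Fintype.prod_option,
        Fintype.prod_sum_type]
      simp only [E, Finsupp.coe_equivFunOnFinite_symm, Option.elim, Sum.elim_inl, Sum.elim_inr]
      have h2 : ∏ k, Complex.exp ((b k : ℂ) * t) ^ (n i k + M).toNat =
          W * Complex.exp ((lam i : ℂ) * t) := by
        rw [hW, ← Complex.exp_add, ← add_mul]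
        simp only [← Complex.exp_nat_mul]
        rw [← Complex.exp_sum]
        congr 1
        have h3 : (lam i : ℂ) = ∑ k, (n i k : ℂ) * b k := by
          rw [← hn i hi]
          push_cast
          rfl
        rw [h3, ← Finset.sum_add_distrib, Finset.sum_mul]
        refine Finset.sum_congr rfl fun k _ => ?_
        have h4 : (((n i k + M).toNat : ℕ) : ℂ) = (n i k : ℂ) + M := by
          have h5 : (((n i k + M).toNat : ℕ) : ℤ) = n i k + M := Int.toNat_of_nonneg (hM i hi k)
          exact_mod_cast congrArg (Int.cast : ℤ → ℂ) h5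
        rw [h4]
        ring
      rw [h2]
      ring
    rw [Finset.sum_congr rfl h1, ← Finset.mul_sum, ht, mul_zero]
  intro i hi
  ext r
  rw [Polynomial.coeff_zero]
  by_cases hr : r ∈ Finset.range ((c i).natDegree + 1)
  · have h1 : Q.coeff (E i r) = (c i).coeff r := by
      simp only [Q, MvPolynomial.coeff_sum, MvPolynomial.coeff_monomial]
      rw [Finset.sum_eq_single i]
      · rw [Finset.sum_eq_single r]
        · rw [if_pos rfl]
        · intro r' _ hr'
          rw [if_neg]
          exact fun h => hr' (hE i hi r' i hi r h).2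
        · intro h
          exact absurd hr h
      · intro i' hi' hne
        refine Finset.sum_eq_zero fun r' _ => ?_
        rw [if_neg]
        exact fun h => hne (hE i' hi' r' i hi r h).1
      · intro h
        exact absurd hi h
    rw [← h1, hQ, MvPolynomial.coeff_zero]
  · rw [Polynomial.coeff_eq_zero_of_natDegree_lt]
    rw [Finset.mem_range] at hr
    omega

/-- independence from the restrictions to lines (general version) -/
theorem mvLineG {X σ τ ν : Type} [Fintype X] [DecidableEq X] [Fintype σ] [DecidableEq σ] [Fintype τ] [DecidableEq τ]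
    [Fintype ν] (U : Set (X → ℂ)) (hUo : IsOpen U) (h : σ → (X → ℂ) → ℂ) (L : τ → X → ℝ)
    (hL : ∀ m : τ → ℤ, (∀ j, ∑ i, (m i : ℝ) * L i j = 0) → m = 0) (K : ν → X → ℝ) (hK : ∀ i, K i ≠ 0)
    (B : AddSubgroup ℝ) (hLB : ∀ i j, L i j ∈ B)
    (hloc : ∀ v : X → ℕ, (∀ i, ∑ j, K i j * (v j : ℝ) ≠ 0) → ∃ G ⊆ U,
      (∀ P : MvPolynomial X ℂ, (∀ u ∈ G, MvPolynomial.eval u P = 0) → P = 0) ∧ ∀ u ∈ G,
        ∀ (ρ : ℕ) (b : Fin ρ → ℝ), (∀ k, b k ∈ B) → (∀ m : Fin ρ → ℤ, ∑ k, (m k : ℝ) * b k = 0 → m = 0) →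
          Y124.LocInd (Sum.elim (fun y z => h y fun j => u j + z * (v j : ℂ))
            fun (k : Fin ρ) z => Complex.exp ((b k : ℂ) * z)) 0)
    (p : MvPolynomial (σ ⊕ τ) (MvPolynomial X ℂ))
    (hp : ∀ x ∈ U, evM (Sum.elim h fun i x => Complex.exp (∑ j, (L i j : ℂ) * x j)) x p = 0) : p = 0 := by
  classical
  -- the frequencies
  let fr : ((σ ⊕ τ) →₀ ℕ) → X → ℝ := fun s j => ∑ i, (s (Sum.inr i) : ℝ) * L i j
  have hfr : ∀ s s' : (σ ⊕ τ) →₀ ℕ, fr s = fr s' → ∀ i, s (Sum.inr i) = s' (Sum.inr i) := by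
    intro s s' h1 i
    have h2 := hL (fun i => (s (Sum.inr i) : ℤ) - s' (Sum.inr i)) (fun j => by
      have h3 := congrFun h1 j
      simp only [fr] at h3
      push_cast
      simp only [sub_mul, Finset.sum_sub_distrib]
      linarith)
    have h3 := congrFun h2 i
    simp only [Pi.zero_apply] at h3
    omega
  obtain ⟨v, hv⟩ := exists_int (X := X)
    (Finset.univ.image (Sum.inl : ν → ν ⊕ (((σ ⊕ τ) →₀ ℕ) × ((σ ⊕ τ) →₀ ℕ))) ∪
      ((p.support ×ˢ p.support).filter fun s => fr s.1 ≠ fr s.2).image Sum.inr)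
    (Sum.elim K fun s j => fr s.1 j - fr s.2 j) (by
      intro i hi
      rcases i with i | s
      · exact hK i
      · intro h1
        simp only [Finset.mem_union, Finset.mem_image, Finset.mem_filter, reduceCtorEq, and_false, exists_false,
          Sum.inr.injEq, exists_eq_right, false_or] at hi
        exact hi.2 (funext fun j => sub_eq_zero.1 (congrFun h1 j)))
  have hvK : ∀ i, ∑ j, K i j * (v j : ℝ) ≠ 0 := fun i => hv (Sum.inl i) (by simp)
  have hvL : ∀ s ∈ p.support, ∀ s' ∈ p.support, ∑ j, fr s j * (v j : ℝ) = ∑ j, fr s' j * (v j : ℝ) →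
      fr s = fr s' := by
    intro s hs s' hs' h1
    by_contra hne
    refine hv (Sum.inr (s, s')) ?_ ?_
    · simp only [Finset.mem_union, Finset.mem_image, Finset.mem_filter, reduceCtorEq, and_false, exists_false,
        Sum.inr.injEq, exists_eq_right, false_or, Finset.mem_product]
      exact ⟨⟨hs, hs'⟩, hne⟩
    · simp only [Sum.elim_inr, sub_mul, Finset.sum_sub_distrib]
      linarith
  obtain ⟨G, hGU, hGd, hloc'⟩ := hloc v hvK
  ext s₀ : 1
  rw [MvPolynomial.coeff_zero]
  refine hGd _ fun u hu => ?_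
  by_cases hs₀ : s₀ ∈ p.support
  swap
  · rw [MvPolynomial.notMem_support_iff.1 hs₀, map_zero]
  -- the restriction
  let ℓ : X → Polynomial ℂ := fun j => Polynomial.C (u j) + Polynomial.C (v j : ℂ) * Polynomial.X
  have hℓ : ∀ (t : ℂ) (r : MvPolynomial X ℂ),
      (MvPolynomial.aeval ℓ r).eval t = MvPolynomial.eval (fun j => u j + t * (v j : ℂ)) r := by
    intro t r
    have h1 : (Polynomial.evalRingHom t).comp (MvPolynomial.aeval ℓ : MvPolynomial X ℂ →ₐ[ℂ] Polynomial ℂ).toRingHom =
        MvPolynomial.eval (fun j => u j + t * (v j : ℂ)) := by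
      apply MvPolynomial.ringHom_ext
      · intro c
        simp
      · intro j
        simp [ℓ, mul_comm]
    exact congrArg (fun ψ => ψ r) h1
  have key := lineOneG (fun y z => h y fun j => u j + z * (v j : ℂ)) B (hloc' u hu) p.support
    (fun s => s.comapDomain Sum.inl Sum.inl_injective.injOn) (fun s => ∑ j, fr s j * (v j : ℝ)) (fun s _ => by
      refine sum_mem fun j _ => ?_
      have h1 : fr s j ∈ B := sum_mem fun i _ => by
        have h2 := B.nsmul_mem (hLB i j) (s (Sum.inr i))
        rwa [nsmul_eq_mul] at h2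
      have h2 := B.nsmul_mem h1 (v j)
      rwa [nsmul_eq_mul, mul_comm] at h2) (by
      intro s hs s' hs' h1
      have h2 := (Prod.ext_iff.1 h1).1
      have h3 := hfr s s' (hvL s hs s' hs' (Prod.ext_iff.1 h1).2)
      refine Finsupp.ext fun y => ?_
      rcases y with y | i
      · have h4 := DFunLike.congr_fun h2 y
        simpa using h4
      · exact h3 i)
    (fun s => Polynomial.C (Complex.exp (∑ j, (fr s j : ℂ) * u j)) * MvPolynomial.aeval ℓ (p.coeff s)) (by
      have h1 : Tendsto (fun t : ℂ => fun j => u j + t * (v j : ℂ)) (𝓝 0) (𝓝 u) := by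
        have h2 : Continuous fun t : ℂ => fun j => u j + t * (v j : ℂ) :=
          continuous_pi fun j => continuous_const.add (continuous_id.mul continuous_const)
        have h3 := h2.tendsto 0
        simpa using h3
      filter_upwards [h1.eventually (hUo.mem_nhds (hGU hu))] with t ht
      have h2 := hp _ ht
      rw [evM, MvPolynomial.eval₂_eq'] at h2
      rw [← h2]
      refine Finset.sum_congr rfl fun s _ => ?_
      rw [Polynomial.eval_mul, Polynomial.eval_C, hℓ, Fintype.prod_sum_type]
      simp only [Finsupp.comapDomain_apply, Sum.elim_inl, Sum.elim_inr]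
      have h4 : ∏ i, Complex.exp (∑ j, (L i j : ℂ) * (u j + t * (v j : ℂ))) ^ s (Sum.inr i) =
          Complex.exp (∑ j, (fr s j : ℂ) * u j) * Complex.exp (((∑ j, fr s j * (v j : ℝ) : ℝ) : ℂ) * t) := by
        rw [← Complex.exp_add]
        simp only [← Complex.exp_nat_mul]
        rw [← Complex.exp_sum]
        congr 1
        simp only [fr]
        push_cast
        simp only [Finset.mul_sum, Finset.sum_mul, mul_add, Finset.sum_add_distrib]
        rw [Finset.sum_comm]
        congr 1
        · exact Finset.sum_congr rfl fun _ _ => Finset.sum_congr rfl fun _ _ => by ring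
        · rw [Finset.sum_comm]
          exact Finset.sum_congr rfl fun _ _ => Finset.sum_congr rfl fun _ _ => by ring
      rw [h4]
      ring)
  have h1 := key s₀ hs₀
  have h2 := congrArg (Polynomial.eval 0) h1
  rw [Polynomial.eval_mul, Polynomial.eval_C, hℓ, Polynomial.eval_zero] at h2
  have h3 := (mul_eq_zero.1 h2).resolve_left (Complex.exp_ne_zero _)
  simpa using h3

end Pool.Agent.Q23.MV
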