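import Pool.Agent.Q23.MV.HypPer

/-!
# Relations between hyperelliptic periods and entire functions are invariant under the symplectic group
-/

set_option autoImplicit false

open Complex Set MeasureTheory Filter Topology Matrix

namespace Pool.Agent.Q23.MV.ME

open Pool.Agent.Y118.HP

variable {n : ℕ}

/-- the entire functions -/
abbrev En : Type := {f : ℂ → ℂ // Differentiable ℂ f}

/-- polynomials in all entire functions and in the entries of a matrix -/
abbrev MP (n : ℕ) : Type := MvPolynomial (En ⊕ (Fin n × Fin n)) ℂ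

/-- evaluation -/
noncomputable def ev (P : MP n) (z : ℂ) (X : Matrix (Fin n) (Fin n) ℂ) : ℂ :=
  MvPolynomial.eval (Sum.elim (fun k : En => k.1 z) fun x => X x.1 x.2) P

/-- substitution `X ↦ g X` -/
noncomputable def sb (g : Matrix (Fin n) (Fin n) ℂ) (P : MP n) : MP n :=
  MvPolynomial.bind₁ (Sum.elim (fun k => MvPolynomial.X (Sum.inl k)) fun x =>
    ∑ k, MvPolynomial.C (g x.1 k) * MvPolynomial.X (Sum.inr (k, x.2))) P

theorem ev_sb (g : Matrix (Fin n) (Fin n) ℂ) (P : MP n) (z : ℂ)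
    (X : Matrix (Fin n) (Fin n) ℂ) : ev (sb g P) z X = ev P z (g * X) := by
  unfold ev sb
  rw [← MvPolynomial.coe_aeval_eq_eval, ← MvPolynomial.coe_aeval_eq_eval]
  simp only [RingHom.coe_coe]
  rw [MvPolynomial.aeval_bind₁]
  congr 2
  funext o
  rcases o with k | x
  · simp
  · simp [Matrix.mul_apply]

theorem differentiableOn_ev {a : Fin n → ℝ} (ha : StrictMono a) (m : Fin (n + 1))
    (P : MP n) : DifferentiableOn ℂ (fun z => ev P z (PM a m z)) (Dm a m) := by
  unfold ev
  have h1 := differentiableOn_eval (U := Dm a m)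
    (fun (o : En ⊕ (Fin n × Fin n)) z => Sum.elim (fun k : En => k.1 z) (fun x => PM a m z x.1 x.2) o) ?_ P
  · exact h1
  rintro (k | x)
  · exact k.2.differentiableOn
  · exact differentiableOn_perC ha m x.1 x.2

/-- the relations of the periods -/
def Id (a : Fin n → ℝ) (m : Fin (n + 1)) : Set (MP n) :=
  {P | ∀ z ∈ Dm a m, ev P z (PM a m z) = 0}

theorem mem_Id_of_upper {a : Fin n → ℝ} (ha : StrictMono a) (m : Fin (n + 1))
    {P : MP n} (h : ∀ z : ℂ, 0 < z.im → ev P z (PM a m z) = 0) :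
    P ∈ Id a m :=
  eq_zero_of_open ha m (differentiableOn_ev ha m P) (V := {z : ℂ | 0 < z.im})
    (isOpen_lt continuous_const continuous_im) (z0 := I) (by simp) (mem_Dm_of_im a m (by simp)) h

theorem mem_Id_of_lower {a : Fin n → ℝ} (ha : StrictMono a) (m : Fin (n + 1))
    {P : MP n} (h : ∀ z : ℂ, z.im < 0 → ev P z (PM a m z) = 0) :
    P ∈ Id a m :=
  eq_zero_of_open ha m (differentiableOn_ev ha m P) (V := {z : ℂ | z.im < 0})
    (isOpen_lt continuous_im continuous_const) (z0 := -I) (by simp) (mem_Dm_of_im a m (by simp)) h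

/-- the monoid of the matrices which preserve the relations -/
def Mon (a : Fin n → ℝ) (m : Fin (n + 1)) : Submonoid (Matrix (Fin n) (Fin n) ℂ) where
  carrier := {g | ∀ P ∈ Id a m, sb g P ∈ Id a m}
  one_mem' := by
    intro P hP z hz
    rw [ev_sb, one_mul]
    exact hP z hz
  mul_mem' := by
    intro g h hg hh P hP
    have h1 := hh (sb g P) (hg P hP)
    intro z hz
    have h2 := h1 z hz
    rw [ev_sb, ev_sb] at h2
    rw [ev_sb, mul_assoc]
    exact h2

theorem mem_Mon {a : Fin n → ℝ} {m : Fin (n + 1)} {g : Matrix (Fin n) (Fin n) ℂ} :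
    g ∈ Mon a m ↔ ∀ P ∈ Id a m, sb g P ∈ Id a m := Iff.rfl

theorem mem_Mon' {a : Fin n → ℝ} {m : Fin (n + 1)} {g : Matrix (Fin n) (Fin n) ℂ} :
    g ∈ Mon a m ↔ ∀ P ∈ Id a m, ∀ z ∈ Dm a m, ev P z (g * PM a m z) = 0 := by
  rw [mem_Mon]
  constructor
  · intro h P hP z hz
    have := h P hP z hz
    rwa [ev_sb] at this
  · intro h P hP z hz
    rw [ev_sb]
    exact h P hP z hz

/-- monodromy around `a k`, starting at the left -/
theorem mono_left {a : Fin n → ℝ} (ha : StrictMono a) (k : Fin n) : Tk k (2 * I) ∈ Mon a k.castSucc := by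
  intro P hP
  have h1 : sb (Tk k I) P ∈ Id a k.succ := mem_Id_of_upper ha _ fun z hz => by
    rw [ev_sb, ← PM_upper' ha k hz]
    exact hP z (mem_Dm_of_im _ _ hz.ne')
  refine mem_Id_of_lower ha _ fun z hz => ?_
  have h2 := h1 z (mem_Dm_of_im _ _ hz.ne)
  rw [ev_sb, PM_lower ha k hz, ← mul_assoc, Tk_mul] at h2
  rw [ev_sb, two_mul]
  exact h2

theorem mono_right {a : Fin n → ℝ} (ha : StrictMono a) (k : Fin n) : Tk k (-(2 * I)) ∈ Mon a k.succ := by
  intro P hP
  have h1 : sb (Tk k (-I)) P ∈ Id a k.castSucc := mem_Id_of_upper ha _ fun z hz => by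
    rw [ev_sb, ← PM_upper ha k hz]
    exact hP z (mem_Dm_of_im _ _ hz.ne')
  refine mem_Id_of_lower ha _ fun z hz => ?_
  have h2 := h1 z (mem_Dm_of_im _ _ hz.ne)
  rw [ev_sb, PM_lower' ha k hz, ← mul_assoc, Tk_mul] at h2
  rw [ev_sb, two_mul, neg_add]
  exact h2

/-- a polynomial family of matrices which preserves the relations for infinitely many parameters -/
theorem poly_family {a : Fin n → ℝ} {m : Fin (n + 1)} (M : Matrix (Fin n) (Fin n) (Polynomial ℂ))
    {S : Set ℂ} (hS : S.Infinite) (h : ∀ s ∈ S, M.map (Polynomial.eval s) ∈ Mon a m) (s : ℂ) :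
    M.map (Polynomial.eval s) ∈ Mon a m := by
  rw [mem_Mon']
  intro P hP z hz
  set p : Polynomial ℂ := MvPolynomial.eval₂ Polynomial.C
    (Sum.elim (fun k : En => Polynomial.C (k.1 z)) fun x => (M * (PM a m z).map Polynomial.C) x.1 x.2) P with hp
  have hev : ∀ s, p.eval s = ev P z (M.map (Polynomial.eval s) * PM a m z) := by
    intro s
    have h1 := MvPolynomial.eval₂_comp_left (Polynomial.evalRingHom s) (Polynomial.C)
      (Sum.elim (fun k : En => Polynomial.C (k.1 z)) fun x => (M * (PM a m z).map Polynomial.C) x.1 x.2) P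
    rw [← hp] at h1
    have h2 : (Polynomial.evalRingHom s) p = p.eval s := rfl
    rw [← h2, h1]
    unfold ev
    rw [MvPolynomial.eval]
    congr 1
    · ext c
      simp
    · funext o
      rcases o with k | x
      · simp
      · simp [Matrix.mul_apply, Polynomial.eval_finsetSum]
  have hp0 : p = 0 := by
    apply Polynomial.eq_zero_of_infinite_isRoot
    refine hS.mono fun s hs => ?_
    show p.eval s = 0
    rw [hev]
    exact mem_Mon'.1 (h s hs) P hP z hz
  rw [← hev, hp0, Polynomial.eval_zero]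

theorem Tk_mem_left {a : Fin n → ℝ} (ha : StrictMono a) (k : Fin n) (s : ℂ) : Tk k s ∈ Mon a k.castSucc := by
  rw [← Tk_poly]
  refine poly_family _ (infinite_mul (c := 2 * I) (by simp)) ?_ s
  rintro _ ⟨r, rfl⟩
  rw [Tk_poly, ← Tk_pow]
  exact pow_mem (mono_left ha k) r

theorem Tk_mem_right {a : Fin n → ℝ} (ha : StrictMono a) (k : Fin n) (s : ℂ) : Tk k s ∈ Mon a k.succ := by
  rw [← Tk_poly]
  refine poly_family _ (infinite_mul (c := -(2 * I)) (by simp)) ?_ s
  rintro _ ⟨r, rfl⟩
  rw [Tk_poly, ← Tk_pow]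
  exact pow_mem (mono_right ha k) r

theorem Id_succ {a : Fin n → ℝ} (ha : StrictMono a) (k : Fin n) : Id a k.castSucc = Id a k.succ := by
  ext P
  constructor
  · intro hP
    refine mem_Id_of_upper ha _ fun z hz => ?_
    rw [PM_upper ha k hz]
    exact mem_Mon'.1 (Tk_mem_left ha k (-I)) P hP z (mem_Dm_of_im _ _ hz.ne')
  · intro hP
    refine mem_Id_of_upper ha _ fun z hz => ?_
    rw [PM_upper' ha k hz]
    exact mem_Mon'.1 (Tk_mem_right ha k I) P hP z (mem_Dm_of_im _ _ hz.ne')

theorem Id_eq {a : Fin n → ℝ} (ha : StrictMono a) (m : Fin (n + 1)) : Id a m = Id a 0 := by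
  induction m using Fin.induction with
  | zero => rfl
  | succ k ih => rw [← Id_succ ha k, ih]

theorem Mon_eq {a : Fin n → ℝ} (ha : StrictMono a) (m m' : Fin (n + 1)) : Mon a m = Mon a m' := by
  ext g
  rw [mem_Mon, mem_Mon, Id_eq ha m, Id_eq ha m']

theorem Tk_mem {a : Fin n → ℝ} (ha : StrictMono a) (m : Fin (n + 1)) (k : Fin n) (s : ℂ) :
    Tk k s ∈ Mon a m := by
  rw [Mon_eq ha m k.castSucc]
  exact Tk_mem_left ha k s

/-- the vectors whose transvections preserve the relations -/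
def VV (a : Fin n → ℝ) (m : Fin (n + 1)) : Set (Fin n → ℂ) := {v | ∀ s, TV v s ∈ Mon a m}

theorem single_mem {a : Fin n → ℝ} (ha : StrictMono a) (m : Fin (n + 1)) (k : Fin n) :
    (Pi.single k 1 : Fin n → ℂ) ∈ VV a m := by
  intro s
  rw [TV_single]
  exact Tk_mem ha m k _

theorem smul_mem {a : Fin n → ℝ} {m : Fin (n + 1)} {v : Fin n → ℂ} (hv : v ∈ VV a m) (c : ℂ) :
    c • v ∈ VV a m := by
  intro s
  rw [TV_smul]
  exact hv _

theorem add_mem' {a : Fin n → ℝ} {m : Fin (n + 1)} {u v : Fin n → ℂ} (hu : u ∈ VV a m) (hv : v ∈ VV a m)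
    (h : om u v ≠ 0) (c : ℂ) : v + c • u ∈ VV a m := by
  intro r
  have h1 := TV_conj u v (c / om u v) r
  rw [div_mul_cancel₀ _ h] at h1
  rw [← h1]
  exact mul_mem (mul_mem (hu _) (hv _)) (hu _)

theorem closed_mem {a : Fin n → ℝ} {m : Fin (n + 1)} {v w : Fin n → ℂ}
    (h : ∀ c : ℂ, c ≠ 0 → v + c • w ∈ VV a m) : v ∈ VV a m := by
  intro s
  set M : Matrix (Fin n) (Fin n) (Polynomial ℂ) :=
    1 + (Polynomial.C s : Polynomial ℂ) • vecMulVec
      (fun l => Polynomial.C ((jm ℂ n *ᵥ v) l) + Polynomial.X * Polynomial.C ((jm ℂ n *ᵥ w) l))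
      (fun l => Polynomial.C (v l) + Polynomial.X * Polynomial.C (w l)) with hM
  have hMe : ∀ c : ℂ, M.map (Polynomial.eval c) = TV (v + c • w) s := by
    intro c
    ext l k
    unfold TV
    rw [hM]
    simp only [Matrix.map_apply, Matrix.add_apply, Matrix.smul_apply, smul_eq_mul, vecMulVec_apply,
      Polynomial.eval_add, Polynomial.eval_mul, Polynomial.eval_X, Polynomial.eval_C, mulVec_add, mulVec_smul,
      Pi.add_apply, Pi.smul_apply]
    congr 1
    rw [Matrix.one_apply, Matrix.one_apply]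
    split_ifs <;> simp
  have h1 := poly_family (a := a) (m := m) M (S := {c | c ≠ 0}) (by
    have : ({c : ℂ | c ≠ 0}) = ({0} : Set ℂ)ᶜ := by ext; simp
    rw [this]
    exact (Set.finite_singleton (0 : ℂ)).infinite_compl) (fun c hc => by rw [hMe]; exact h c hc s) 0
  rw [hMe] at h1
  simpa using h1

theorem supp_mem {a : Fin n → ℝ} (ha : StrictMono a) (m : Fin (n + 1)) (r : ℕ) :
    r ≤ n → ∀ v : Fin n → ℂ, (∀ i : Fin n, r ≤ i → v i = 0) → v ∈ VV a m := by
  induction r with
  | zero =>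
    intro _ v hv s
    have : v = 0 := by funext i; exact hv i (Nat.zero_le _)
    rw [this]
    have h2 : TV (0 : Fin n → ℂ) s = 1 := by unfold TV; simp
    rw [h2]
    exact one_mem _
  | succ r ih =>
    intro hr v hv
    have hrn : r < n := hr
    set k : Fin n := ⟨r, hrn⟩ with hk
    -- the first part
    set w : Fin n → ℂ := fun i => if (i : ℕ) < r then v i else 0 with hw
    have hvw : v = w + v k • (Pi.single k 1 : Fin n → ℂ) := by
      funext i
      rw [hw]
      simp only [Pi.add_apply, Pi.smul_apply, smul_eq_mul]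
      rcases lt_trichotomy (i : ℕ) r with h | h | h
      · have : i ≠ k := by intro hh; rw [hh] at h; simp [hk] at h
        rw [if_pos h, Pi.single_eq_of_ne this]; ring
      · have : i = k := Fin.ext h
        rw [if_neg (by omega), this, Pi.single_eq_same]; ring
      · have : i ≠ k := by intro hh; rw [hh] at h; simp [hk] at h
        rw [if_neg (by omega), Pi.single_eq_of_ne this, hv i h]; ring
    have hwV : w ∈ VV a m := ih (by omega) w fun i hi => by rw [hw]; simp only; rw [if_neg (by omega)]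
    have hsk := single_mem ha m k
    rw [hvw]
    rcases Nat.eq_zero_or_pos r with h0 | hpos
    · have hw0 : w = 0 := by
        funext i; rw [hw]; simp only; rw [if_neg (by omega)]; rfl
      rw [hw0, zero_add]
      exact smul_mem hsk _
    · -- the previous basis vector
      set k' : Fin n := ⟨r - 1, by omega⟩ with hk'
      have hk'V := single_mem ha m k'
      have homk : om (Pi.single k 1) (Pi.single k' 1 : Fin n → ℂ) ≠ 0 := by
        rw [om_single, mulVec_single_one]
        show jm ℂ n k k' ≠ 0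
        rw [jm_apply, if_pos (by left; simp [hk, hk']; omega)]
        simp
      have hlin : ∀ c : ℂ, om (Pi.single k 1) (w + c • (Pi.single k' 1 : Fin n → ℂ)) =
          om (Pi.single k 1) w + c * om (Pi.single k 1) (Pi.single k' 1 : Fin n → ℂ) := by
        intro c
        unfold om
        rw [mulVec_add, mulVec_smul, dotProduct_add, dotProduct_smul, smul_eq_mul]
      by_cases h1 : om (Pi.single k 1) w = 0
      · refine closed_mem (w := (Pi.single k' 1 : Fin n → ℂ)) fun c hc => ?_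
        have h2 : w + c • (Pi.single k' 1 : Fin n → ℂ) ∈ VV a m := by
          refine ih (by omega) _ fun i hi => ?_
          have : i ≠ k' := by
            intro hh; rw [hh] at hi; simp [hk'] at hi; omega
          rw [hw]
          simp only [Pi.add_apply, Pi.smul_apply, smul_eq_mul]
          rw [if_neg (by omega), Pi.single_eq_of_ne this]; ring
        have h3 : om (Pi.single k 1) (w + c • (Pi.single k' 1 : Fin n → ℂ)) ≠ 0 := by
          rw [hlin, h1, zero_add]
          exact mul_ne_zero hc homk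
        have h4 := add_mem' hsk h2 h3 (v k)
        have e : w + v k • (Pi.single k 1 : Fin n → ℂ) + c • (Pi.single k' 1 : Fin n → ℂ) =
            w + c • (Pi.single k' 1 : Fin n → ℂ) + v k • (Pi.single k 1 : Fin n → ℂ) := by abel
        rw [e]
        exact h4
      · exact add_mem' hsk hwV h1 (v k)

theorem all_mem {a : Fin n → ℝ} (ha : StrictMono a) (m : Fin (n + 1)) (v : Fin n → ℂ) : v ∈ VV a m :=
  supp_mem ha m n le_rfl v fun i hi => absurd i.2 (not_lt.2 hi)

/-- symplectic matrices preserve the relations -/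
theorem sp_mem (hn : Even n) {a : Fin n → ℝ} (ha : StrictMono a) (m : Fin (n + 1))
    (g : Matrix (Fin n) (Fin n) ℂ) (hg : g * jm ℂ n * g.transpose = jm ℂ n) : g ∈ Mon a m := by
  have hdet : IsUnit (jm ℂ n).det := (jm_det hn).isUnit
  set ω : (Fin n → ℂ) →ₗ[ℂ] (Fin n → ℂ) →ₗ[ℂ] ℂ := Matrix.toLinearMap₂' ℂ (-(jm ℂ n)⁻¹) with hω
  have hωa : ∀ u v, ω u v = -(u ⬝ᵥ ((jm ℂ n)⁻¹ *ᵥ v)) := by
    intro u v
    rw [hω, Matrix.toLinearMap₂'_apply', neg_mulVec, dotProduct_neg]
  have hJinvT : ((jm ℂ n)⁻¹).transpose = -(jm ℂ n)⁻¹ := by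
    rw [transpose_nonsing_inv, jm_transpose]
    apply inv_eq_left_inv
    rw [neg_mul_neg, nonsing_inv_mul _ hdet]
  have h0 : ∀ v, ω v v = 0 := by
    intro v
    have h1 : v ⬝ᵥ ((jm ℂ n)⁻¹ *ᵥ v) = v ⬝ᵥ (((jm ℂ n)⁻¹).transpose *ᵥ v) := by
      rw [mulVec_transpose, dotProduct_comm v (v ᵥ* _), ← dotProduct_mulVec]
    rw [hJinvT, neg_mulVec, dotProduct_neg] at h1
    rw [hωa]
    have : (2 : ℂ) * (v ⬝ᵥ ((jm ℂ n)⁻¹ *ᵥ v)) = 0 := by linear_combination h1
    simp only [mul_eq_zero, OfNat.ofNat_ne_zero, false_or] at this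
    rw [this, neg_zero]
  have hnd : ∀ u, (∀ v, ω u v = 0) → u = 0 := by
    intro u hu
    have h1 : ∀ w : Fin n → ℂ, u ⬝ᵥ w = 0 := by
      intro w
      have h2 := hu (jm ℂ n *ᵥ w)
      rw [hωa, mulVec_mulVec, nonsing_inv_mul _ hdet, one_mulVec, neg_eq_zero] at h2
      exact h2
    funext i
    have := h1 (Pi.single i 1)
    rwa [dotProduct_single_one] at this
  have hg' : g.transpose * (jm ℂ n)⁻¹ * g = (jm ℂ n)⁻¹ := by
    have h1 : g * (jm ℂ n * g.transpose * (jm ℂ n)⁻¹) = 1 := by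
      rw [← mul_assoc, ← mul_assoc, hg, mul_nonsing_inv _ hdet]
    have h2 : (jm ℂ n * g.transpose * (jm ℂ n)⁻¹) * g = 1 := mul_eq_one_comm.1 h1
    calc g.transpose * (jm ℂ n)⁻¹ * g = (jm ℂ n)⁻¹ * ((jm ℂ n * g.transpose * (jm ℂ n)⁻¹) * g) := by
          rw [← mul_assoc, ← mul_assoc, ← mul_assoc, nonsing_inv_mul _ hdet, one_mul]
      _ = (jm ℂ n)⁻¹ := by rw [h2, mul_one]
  have hpres : ∀ u v, ω (Matrix.toLin' g u) (Matrix.toLin' g v) = ω u v := by
    intro u v
    rw [hωa, hωa, toLin'_apply, toLin'_apply, mulVec_mulVec, dotProduct_mulVec, ← vecMul_transpose,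
      vecMul_vecMul, ← mul_assoc, hg', ← dotProduct_mulVec]
  have hmem := Pool.Agent.W948.ZC.TR.aux ℂ _ (Fin n → ℂ) ω rfl h0 hnd (Matrix.toLin' g) hpres
  have key : ∀ T ∈ Pool.Agent.W948.ZC.TR.G ω, LinearMap.toMatrix' T ∈ Mon a m := by
    intro T hT
    unfold Pool.Agent.W948.ZC.TR.G at hT
    induction hT using Submonoid.closure_induction with
    | mem T h =>
      obtain ⟨c, u, rfl⟩ := h
      have h1 : LinearMap.toMatrix' (1 + c • (ω u).smulRight u) = TV ((jm ℂ n)⁻¹ *ᵥ u) c := by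
        apply (Matrix.toLin'.injective)
        rw [toLin'_toMatrix']
        ext x i
        have h2 : (Matrix.toLin' (TV ((jm ℂ n)⁻¹ *ᵥ u) c)) (Pi.single x 1) =
            TV ((jm ℂ n)⁻¹ *ᵥ u) c *ᵥ (Pi.single x 1) := rfl
        rw [LinearMap.comp_apply, LinearMap.comp_apply, LinearMap.single_apply, h2, TV_mulVec, mulVec_mulVec,
          mul_nonsing_inv _ hdet, one_mulVec]
        have h3 : ((jm ℂ n)⁻¹ *ᵥ u) ⬝ᵥ (Pi.single x (1 : ℂ)) = ω u (Pi.single x 1) := by
          rw [hωa, dotProduct_comm, ← vecMul_transpose, hJinvT, dotProduct_comm, ← dotProduct_mulVec, neg_mulVec,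
            dotProduct_neg]
        rw [h3]
        simp [LinearMap.add_apply, mul_assoc]
      rw [h1]
      exact all_mem ha m _ c
    | one =>
      have : LinearMap.toMatrix' (1 : Module.End ℂ (Fin n → ℂ)) = 1 := LinearMap.toMatrix'_id
      rw [this]
      exact one_mem _
    | mul A B _ _ hA hB =>
      have : LinearMap.toMatrix' (A * B) = LinearMap.toMatrix' A * LinearMap.toMatrix' B :=
        LinearMap.toMatrix'_mul A B
      rw [this]
      exact mul_mem hA hB
  have := key _ hmem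
  rwa [LinearMap.toMatrix'_toLin'] at this

/-- a relation between the periods on an interval is invariant under the symplectic group -/
theorem func_inv (hn : Even n) {a : Fin n → ℝ} (ha : StrictMono a) (m : Fin (n + 1))
    (P : MP n) {α β : ℝ} (hαβ : α < β) (hgap : ∀ t ∈ Icc α β, InGap a m t)
    (hP : ∀ t ∈ Icc α β, ev P (t : ℂ) (PM a m t) = 0)
    (g : Matrix (Fin n) (Fin n) ℂ) (hg : g * jm ℂ n * g.transpose = jm ℂ n) :
    ∀ z ∈ Dm a m, ev P z (g * PM a m z) = 0 := by
  have hId : P ∈ Id a m := eq_zero_of_real ha m (differentiableOn_ev ha m P) hαβ hgap hP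
  have hM := sp_mem hn ha m g hg
  intro z hz
  have := hM P hId z hz
  rwa [ev_sb] at this

end Pool.Agent.Q23.MV.ME
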