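import Pool.Agent.Q23.MV.HypPer

/-!
# Several hyperelliptic curves whose branch points are taken from a common set of parameters
-/

set_option autoImplicit false

open Set Filter Topology

namespace Pool.Agent.Q23.MV

open Pool.Agent.TH818.AP Pool.Agent.Y771 Pool.Agent.Y890.MV Pool.Agent.Y118.HP Pool.Agent.Q29.HypInd

variable {M : ℕ}

theorem strictMono_near' (e0 : Fin M → ℝ) (he0 : StrictMono e0) : ∀ᶠ e in 𝓝 e0, StrictMono e := by
  have h1 : ∀ i j : Fin M, ∀ᶠ e : Fin M → ℝ in 𝓝 e0, i < j → e i < e j := by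
    intro i j
    by_cases hij : i < j
    · have h2 : ∀ᶠ e : Fin M → ℝ in 𝓝 e0, e i < e j :=
        (isOpen_lt (continuous_apply i) (continuous_apply j)).mem_nhds (he0 hij)
      filter_upwards [h2] with e he _ using he
    · exact Eventually.of_forall fun e h => absurd h hij
  filter_upwards [eventually_all.2 fun i => eventually_all.2 fun j => h1 i j] with e he i j hij
  exact he i j hij

theorem er_update {N : ℕ} (σ : Fin (N + 1) → Fin M) (hσ : Function.Injective σ) (r : Fin (N + 1)) (e : Fin M → ℝ) (t : ℝ) :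
    er (r.removeNth (e ∘ σ)) r t = Function.update e (σ r) t ∘ σ := by
  rw [er, Fin.insertNth_removeNth, Function.update_comp_eq_of_injective _ hσ]

/-- the period as a complex number -/
noncomputable def perc {N : ℕ} (k : LT N) (e : Fin (N + 1) → ℝ) : ℂ := ((per e k.1.1 k.1.2 : ℝ) : ℂ)

theorem fib_ind {N : ℕ} (hN : Even N) (p q : ℝ) (hpq : p < q) (a : Fin N → ℝ) (r : Fin (N + 1))
    (h : ∀ t ∈ Icc p q, StrictMono (er a r t)) :
    AI (Icc p q) (fun (o : Option (LT N)) (t : ℝ) => o.elim (t : ℂ) fun k => perc k (er a r t)) :=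
  AI_of_rind (fun (k : LT N) t => fH a r k t) p q fun d =>
    fH_ind hN (inGap_of (h _ (left_mem_Icc.2 hpq.le))).1 r d _ _ hpq fun t ht => (inGap_of (h t ht)).2

theorem fib_ind' {N : ℕ} (hN : Even N) (p q : ℝ) (hpq : p < q) (σ : Fin (N + 1) → Fin M) (hσ : Function.Injective σ)
    (r : Fin (N + 1)) (e : Fin M → ℝ) (h : ∀ t ∈ Icc p q, StrictMono (Function.update e (σ r) t ∘ σ)) :
    AI (Icc p q) (fun (o : Option (LT N)) (t : ℝ) => o.elim (t : ℂ) fun k => perc k (Function.update e (σ r) t ∘ σ)) := by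
  have h1 := fun t : ℝ => er_update σ hσ r e t
  generalize hE : (fun t : ℝ => Function.update e (σ r) t ∘ σ) = E at *
  have h2 : ∀ t : ℝ, Function.update e (σ r) t ∘ σ = E t := fun t => congrFun hE t
  simp only [h2] at h h1 ⊢
  have h3 := fib_ind hN p q hpq (r.removeNth (e ∘ σ)) r (fun t ht => by rw [h1]; exact h t ht)
  simp only [h1] at h3
  exact h3

/-- **One more curve**, with a branch point on which the other functions do not depend. -/
theorem add_curve {N : ℕ} (hN : Even N) {κ : Type} (p q : Fin M → ℝ) (hpq : ∀ m, p m < q m)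
    (hZ : ∀ e : Fin M → ℝ, (∀ m, e m ∈ Icc (p m) (q m)) → StrictMono e)
    (σ : Fin (N + 1) → Fin M) (hσ : StrictMono σ) (r : Fin (N + 1)) (g : κ → (Fin M → ℝ) → ℂ)
    (hg : ∀ x e t, g x (Function.update e (σ r) t) = g x e)
    (h : AI {e : Fin M → ℝ | ∀ m, e m ∈ Icc (p m) (q m)} (Sum.elim g fun m e => ((e m : ℝ) : ℂ))) :
    AI {e : Fin M → ℝ | ∀ m, e m ∈ Icc (p m) (q m)}
      (Sum.elim (Sum.elim (fun (k : LT N) e => perc k (e ∘ σ)) g) fun m e => ((e m : ℝ) : ℂ)) := by
  classical
  intro P hP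
  have hup : ∀ e : Fin M → ℝ, (∀ m, e m ∈ Icc (p m) (q m)) → ∀ t ∈ Icc (p (σ r)) (q (σ r)),
      ∀ m, Function.update e (σ r) t m ∈ Icc (p m) (q m) := by
    intro e he t ht m
    by_cases hm : m = σ r
    · subst hm
      rw [Function.update_self]
      exact ht
    · rw [Function.update_of_ne hm]
      exact he m
  have h1 : ∀ e ∈ {e : Fin M → ℝ | ∀ m, e m ∈ Icc (p m) (q m)}, AI (Icc (p (σ r)) (q (σ r)))
      (fun (o : Option (LT N)) (t : ℝ) => o.elim (t : ℂ) fun k => perc k (Function.update e (σ r) t ∘ σ)) :=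
    fun e he => fib_ind' hN _ _ (hpq _) σ hσ.injective r e fun t ht => (hZ _ (hup e he t ht)).comp hσ
  let ρ : (LT N ⊕ κ) ⊕ Fin M → Option (LT N) ⊕ (κ ⊕ Fin M) :=
    Sum.elim (Sum.elim (fun k => Sum.inl (some k)) (fun x => Sum.inr (Sum.inl x)))
      (fun m => if m = σ r then Sum.inl none else Sum.inr (Sum.inr m))
  have hρ : Function.Injective ρ := by
    rintro ((k | x) | m) ((k' | x') | m') heq
    · simp only [ρ, Sum.elim_inl, Sum.inl.injEq, Option.some.injEq] at heq
      rw [heq]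
    · simp [ρ] at heq
    · by_cases hm' : m' = σ r <;> simp [ρ, hm'] at heq
    · simp [ρ] at heq
    · simp only [ρ, Sum.elim_inl, Sum.elim_inr, Sum.inr.injEq, Sum.inl.injEq] at heq
      rw [heq]
    · by_cases hm' : m' = σ r <;> simp [ρ, hm'] at heq
    · by_cases hm : m = σ r <;> simp [ρ, hm] at heq
    · by_cases hm : m = σ r <;> simp [ρ, hm] at heq
    · by_cases hm : m = σ r <;> by_cases hm' : m' = σ r
      · rw [hm, hm']
      · simp [ρ, hm, hm'] at heq
      · simp [ρ, hm, hm'] at heq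
      · simp only [ρ, Sum.elim_inr, if_neg hm, if_neg hm', Sum.inr.injEq] at heq
        rw [heq]
  have h3 := fub {e : Fin M → ℝ | ∀ m, e m ∈ Icc (p m) (q m)} (fun _ => Icc (p (σ r)) (q (σ r)))
    (fun (o : Option (LT N)) e (t : ℝ) => o.elim (t : ℂ) fun k => perc k (Function.update e (σ r) t ∘ σ))
    (Sum.elim g fun m e => ((e m : ℝ) : ℂ)) h h1 (MvPolynomial.rename ρ P) (by
      intro e he t ht
      rw [MvPolynomial.eval_rename, ← hP _ (hup e he t ht)]
      congr 2
      funext x
      rcases x with (k | x) | m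
      · rfl
      · simp only [ρ, Function.comp, Sum.elim_inl, Sum.elim_inr]
        exact (hg x e t).symm
      · by_cases hm : m = σ r
        · simp [ρ, hm]
        · simp [ρ, hm])
  exact MvPolynomial.rename_injective _ hρ (by rw [h3, map_zero])

theorem AI_curves (p q : Fin M → ℝ) (hpq : ∀ m, p m < q m)
    (hZ : ∀ e : Fin M → ℝ, (∀ m, e m ∈ Icc (p m) (q m)) → StrictMono e) :
    ∀ (k : ℕ) (N : Fin k → ℕ), (∀ i, Even (N i)) → ∀ σ : ∀ i, Fin (N i + 1) → Fin M, (∀ i, StrictMono (σ i)) →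
      (∀ i, ∃ r, ∀ i' < i, ∀ s, σ i' s ≠ σ i r) →
      AI {e : Fin M → ℝ | ∀ m, e m ∈ Icc (p m) (q m)}
        (Sum.elim (fun (x : Σ i, LT (N i)) e => perc x.2 (e ∘ σ x.1)) fun m e => ((e m : ℝ) : ℂ)) := by
  intro k
  induction k with
  | zero =>
    intro N hN σ hσ hr
    have h1 := (AI_coord (fun m => Icc (p m) (q m)) fun m => Icc_infinite (hpq m)).comp
      (fun x : (Σ i : Fin 0, LT (N i)) ⊕ Fin M => Sum.elim (fun x => x.1.elim0) id x) (by
        rintro (x | m) (x' | m') h
        · exact x.1.elim0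
        · exact x.1.elim0
        · exact x'.1.elim0
        · simp only [Sum.elim_inr, id] at h
          rw [h])
    refine h1.congr fun x e _ => ?_
    rcases x with x | m
    · exact x.1.elim0
    · rfl
  | succ k ih =>
    intro N hN σ hσ hr
    obtain ⟨r, hr'⟩ := hr (Fin.last k)
    have h1 := ih (fun i => N i.castSucc) (fun i => hN _) (fun i => σ i.castSucc) (fun i => hσ _) (fun i => by
      obtain ⟨s, hs⟩ := hr i.castSucc
      exact ⟨s, fun i' hi' u => hs i'.castSucc (by simpa using hi') u⟩)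
    have h2 := add_curve (hN (Fin.last k)) p q hpq hZ (σ (Fin.last k)) (hσ _) r _ (by
      intro x e t
      have h3 : Function.update e (σ (Fin.last k) r) t ∘ σ x.1.castSucc = e ∘ σ x.1.castSucc := by
        funext s
        simp only [Function.comp]
        rw [Function.update_of_ne (hr' _ (Fin.castSucc_lt_last _) s)]
      rw [h3]) h1
    let φ : (Σ i : Fin (k + 1), LT (N i)) → LT (N (Fin.last k)) ⊕ (Σ i : Fin k, LT (N i.castSucc)) := fun x =>
      Fin.lastCases (motive := fun i => LT (N i) → LT (N (Fin.last k)) ⊕ (Σ i : Fin k, LT (N i.castSucc)))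
        (fun a => Sum.inl a) (fun i a => Sum.inr ⟨i, a⟩) x.1 x.2
    have hφ1 : ∀ a, φ ⟨Fin.last k, a⟩ = Sum.inl a := fun a => by simp [φ]
    have hφ2 : ∀ i a, φ ⟨i.castSucc, a⟩ = Sum.inr ⟨i, a⟩ := fun i a => by simp [φ]
    have hφ : Function.Injective φ := by
      rintro ⟨i, a⟩ ⟨i', a'⟩ h
      revert a a' h
      refine Fin.lastCases ?_ (fun j => ?_) i <;> refine Fin.lastCases ?_ (fun j' => ?_) i' <;> intro a a' h
      · rw [hφ1, hφ1, Sum.inl.injEq] at h
        rw [h]
      · rw [hφ1, hφ2] at h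
        exact absurd h (by simp)
      · rw [hφ1, hφ2] at h
        exact absurd h (by simp)
      · rw [hφ2, hφ2, Sum.inr.injEq] at h
        cases h
        rfl
    have h4 := h2.comp (Sum.map φ id) (Function.Injective.sumMap hφ Function.injective_id)
    refine h4.congr fun x e _ => ?_
    rcases x with ⟨i, a⟩ | m
    · revert a
      refine Fin.lastCases ?_ (fun j => ?_) i <;> intro a
      · simp only [Sum.map_inl, hφ1, Sum.elim_inl]
      · simp only [Sum.map_inl, hφ2, Sum.elim_inl, Sum.elim_inr]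
    · rfl

end Pool.Agent.Q23.MV
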