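import Pool.Agent.Q23.MV.MonoE
import Pool.Agent.Q23.MV.Share

/-!
# Hyperelliptic periods are independent of arbitrary functions which are meromorphic in one branch point
-/

set_option autoImplicit false

open Set Filter Topology Matrix

namespace Pool.Agent.Q23.MV.ME

open Pool.Agent.Y118.HP Pool.Agent.Q29.HypInd Pool.Agent.TH818.AP

variable {n : ℕ}

/-- `f` is on `[α, β]` the quotient of two entire functions -/
def Mer (α β : ℝ) (f : ℝ → ℂ) : Prop :=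
  ∃ D H : ℂ → ℂ, Differentiable ℂ D ∧ Differentiable ℂ H ∧ ∀ t ∈ Icc α β, D (t : ℂ) ≠ 0 ∧ D (t : ℂ) * f t = H (t : ℂ)

theorem Mer.of_entire {α β : ℝ} {f : ℝ → ℂ} (H : ℂ → ℂ) (hH : Differentiable ℂ H) (h : ∀ t ∈ Icc α β, f t = H (t : ℂ)) :
    Mer α β f :=
  ⟨fun _ => 1, H, differentiable_const _, hH, fun t ht => ⟨one_ne_zero, by rw [one_mul, h t ht]⟩⟩

theorem clear {κ : Type} (α β : ℝ) (h : κ → ℝ → ℂ) (hh : ∀ k, Mer α β (h k)) (P : MvPolynomial (LT n ⊕ κ) ℂ) :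
    ∃ (D : En) (Q : MP n), ∀ t ∈ Icc α β, D.1 (t : ℂ) ≠ 0 ∧ ∀ X : Matrix (Fin n) (Fin n) ℂ,
      ev Q (t : ℂ) X = D.1 (t : ℂ) * MvPolynomial.eval (Sum.elim (fun x : LT n => X x.1.1 x.1.2) (fun k => h k t)) P := by
  induction P using MvPolynomial.induction_on with
  | C c =>
    refine ⟨⟨fun _ => 1, differentiable_const _⟩, MvPolynomial.C c, fun t _ => ⟨one_ne_zero, fun X => ?_⟩⟩
    unfold ev
    rw [MvPolynomial.eval_C, MvPolynomial.eval_C, one_mul]
  | add p q hp hq =>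
    obtain ⟨D₁, Q₁, h1⟩ := hp
    obtain ⟨D₂, Q₂, h2⟩ := hq
    refine ⟨⟨fun z => D₁.1 z * D₂.1 z, D₁.2.mul D₂.2⟩, MvPolynomial.X (Sum.inl D₂) * Q₁ + MvPolynomial.X (Sum.inl D₁) * Q₂,
      fun t ht => ⟨mul_ne_zero (h1 t ht).1 (h2 t ht).1, fun X => ?_⟩⟩
    have e1 := (h1 t ht).2 X
    have e2 := (h2 t ht).2 X
    unfold ev at e1 e2 ⊢
    rw [map_add, map_mul, map_mul, MvPolynomial.eval_X, MvPolynomial.eval_X, e1, e2, map_add]
    simp only [Sum.elim_inl]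
    ring
  | mul_X p i hp =>
    obtain ⟨D₁, Q₁, h1⟩ := hp
    rcases i with x | k
    · refine ⟨D₁, Q₁ * MvPolynomial.X (Sum.inr x.1), fun t ht => ⟨(h1 t ht).1, fun X => ?_⟩⟩
      have e1 := (h1 t ht).2 X
      unfold ev at e1 ⊢
      rw [map_mul, MvPolynomial.eval_X, e1, map_mul, MvPolynomial.eval_X]
      simp only [Sum.elim_inr, Sum.elim_inl]
      ring
    · obtain ⟨D, H, hD, hH, hDH⟩ := hh k
      refine ⟨⟨fun z => D₁.1 z * D z, D₁.2.mul hD⟩, Q₁ * MvPolynomial.X (Sum.inl ⟨H, hH⟩),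
        fun t ht => ⟨mul_ne_zero (h1 t ht).1 (hDH t ht).1, fun X => ?_⟩⟩
      have e1 := (h1 t ht).2 X
      unfold ev at e1 ⊢
      rw [map_mul, MvPolynomial.eval_X, e1, map_mul, MvPolynomial.eval_X]
      simp only [Sum.elim_inr, Sum.elim_inl]
      rw [← (hDH t ht).2]
      ring

/-- relations between the periods and meromorphic functions are invariant -/
theorem sep (hn : Even n) {a : Fin n → ℝ} (ha : StrictMono a) (m : Fin (n + 1)) {κ : Type} (α β : ℝ) (hαβ : α < β)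
    (hgap : ∀ t ∈ Icc α β, InGap a m t) (h : κ → ℝ → ℂ) (hh : ∀ k, Mer α β (h k)) (P : MvPolynomial (LT n ⊕ κ) ℂ)
    (hP : ∀ t ∈ Icc α β, MvPolynomial.eval (Sum.elim (fun x : LT n => ((per (er a m t) x.1.1 x.1.2 : ℝ) : ℂ)) (fun k => h k t)) P = 0)
    (t : ℝ) (ht : t ∈ Icc α β) (g : Matrix (Fin n) (Fin n) ℂ) (hg : g ∈ SpS ℂ n) :
    MvPolynomial.eval (Sum.elim (fun x : LT n => (g * PM a m (t : ℂ)) x.1.1 x.1.2) (fun k => h k t)) P = 0 := by
  obtain ⟨D, Q, hQ⟩ := clear α β h hh P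
  have h1 : ∀ t ∈ Icc α β, ev Q (t : ℂ) (PM a m t) = 0 := by
    intro t ht
    rw [(hQ t ht).2, PM_real ha (hgap t ht)]
    have h2 := hP t ht
    have h3 : (Sum.elim (fun x : LT n => ((RM a m t).map (algebraMap ℝ ℂ)) x.1.1 x.1.2) (fun k => h k t) : LT n ⊕ κ → ℂ) =
        Sum.elim (fun x : LT n => ((per (er a m t) x.1.1 x.1.2 : ℝ) : ℂ)) (fun k => h k t) := by
      funext o
      rcases o with x | k
      · rfl
      · rfl
    rw [h3, h2, mul_zero]
  have h2 := func_inv hn ha m Q hαβ hgap h1 g hg (t : ℂ) (hgap t ht).mem_Dm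
  rw [(hQ t ht).2] at h2
  exact (mul_eq_zero.1 h2).resolve_left (hQ t ht).1

theorem PM_det (hn : Even n) {a : Fin n → ℝ} (ha : StrictMono a) {m : Fin (n + 1)} {t : ℝ} (ht : InGap a m t) :
    (PM a m (t : ℂ)).det ≠ 0 := by
  rw [PM_real ha ht]
  have h1 : ((RM a m t).map (algebraMap ℝ ℂ)).det = algebraMap ℝ ℂ (RM a m t).det := by
    rw [RingHom.map_det]
    rfl
  rw [h1]
  intro h2
  exact RM_det hn ha ht ((map_eq_zero_iff (algebraMap ℝ ℂ) (algebraMap ℝ ℂ).injective).1 h2)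

theorem coset_AI (hn : Even n) {a : Fin n → ℝ} (ha : StrictMono a) {m : Fin (n + 1)} {t : ℝ} (ht : InGap a m t) :
    AI {X : Matrix (Fin n) (Fin n) ℂ | ∃ g ∈ SpS ℂ n, X = g * PM a m (t : ℂ)} (fun (x : LT n) X => X x.1.1 x.1.2) :=
  fun P hP => coset hn _ (PM_det hn ha ht) P fun g hg => hP _ ⟨g, hg, rfl⟩

variable {M : ℕ}

/-- **One more curve.** The functions `g` are meromorphic in one of the branch points. -/
theorem add_curve_E {N : ℕ} (hN : Even N) {κ : Type} (p q : Fin M → ℝ) (hpq : ∀ m, p m < q m)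
    (σ : Fin (N + 1) → Fin M) (hσ : Function.Injective σ)
    (hZ : ∀ e : Fin M → ℝ, (∀ m, e m ∈ Icc (p m) (q m)) → StrictMono (e ∘ σ)) (r : Fin (N + 1)) (g : κ → (Fin M → ℝ) → ℂ)
    (hg : ∀ x e, (∀ m, e m ∈ Icc (p m) (q m)) → Mer (p (σ r)) (q (σ r)) (fun t => g x (Function.update e (σ r) t)))
    (h : AI {e : Fin M → ℝ | ∀ m, e m ∈ Icc (p m) (q m)} g) :
    AI {e : Fin M → ℝ | ∀ m, e m ∈ Icc (p m) (q m)} (Sum.elim (fun (k : LT N) e => perc k (e ∘ σ)) g) := by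
  classical
  intro P hP
  have hup : ∀ e : Fin M → ℝ, (∀ m, e m ∈ Icc (p m) (q m)) → ∀ t ∈ Icc (p (σ r)) (q (σ r)),
      ∀ m, Function.update e (σ r) t m ∈ Icc (p m) (q m) := by
    intro e he t ht m
    by_cases hm : m = σ r
    · subst hm
      rw [Function.update_self]
      exact ht
    · rw [Function.update_of_ne hm]
      exact he m
  have hin : ∀ e : Fin M → ℝ, (∀ m, e m ∈ Icc (p m) (q m)) → ∀ t ∈ Icc (p (σ r)) (q (σ r)),
      StrictMono (r.removeNth (e ∘ σ)) ∧ InGap (r.removeNth (e ∘ σ)) r t := by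
    intro e he t ht
    have h1 := hZ _ (hup e he t ht)
    rw [← er_update σ hσ r e t] at h1
    exact inGap_of h1
  refine fub (σ₁ := LT N) (σ₂ := κ) (Ω₁ := Matrix (Fin N) (Fin N) ℂ) (Ω₂ := Fin M → ℝ)
    {e : Fin M → ℝ | ∀ m, e m ∈ Icc (p m) (q m)}
    (fun e => {X | ∃ g ∈ SpS ℂ N, X = g * PM (r.removeNth (e ∘ σ)) r ((e (σ r) : ℝ) : ℂ)})
    (fun x _ X => X x.1.1 x.1.2) g h (fun e he => ?_) P (fun e he X hX => ?_)
  · exact coset_AI hN (hin e he _ (he _)).1 (hin e he _ (he _)).2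
  · obtain ⟨g', hg', rfl⟩ := hX
    have h1 := sep hN (hin e he _ (he _)).1 r (p (σ r)) (q (σ r)) (hpq _) (fun t ht => (hin e he t ht).2)
      (fun k t => g k (Function.update e (σ r) t)) (fun k => hg k e he) P (fun t ht => by
        have h2 := hP (Function.update e (σ r) t) (hup e he t ht)
        rw [← h2]
        congr 2
        funext o
        rcases o with x | k
        · simp only [Sum.elim_inl]
          show ((per (er (r.removeNth (e ∘ σ)) r t) x.1.1 x.1.2 : ℝ) : ℂ) = perc x (Function.update e (σ r) t ∘ σ)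
          rw [er_update σ hσ r e t]
          rfl
        · rfl) (e (σ r)) (he _) g' hg'
    rw [← h1]
    congr 2
    funext o
    rcases o with x | k
    · rfl
    · simp only [Sum.elim_inr, Function.update_eq_self]

end Pool.Agent.Q23.MV.ME
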