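import Pool.Agent.Q23.MV.MonoE2

/-!
# Complete periods of all hyperelliptic curves jointly with meromorphic functions of the branch points
-/

set_option autoImplicit false

open Set Filter Topology

namespace Pool.Agent.Q23.MV.ME

open Pool.Agent.Y118.HP Pool.Agent.Q29.HypInd Pool.Agent.TH818.AP

theorem per_ext {N : ℕ} (hN : Even N) (e0 : Fin (N + 1) → ℝ) (he0 : StrictMono e0)
    (w : LT N → (Fin (N + 1) → ℂ) → ℂ)
    (hw : ∀ᶠ e : Fin (N + 1) → ℝ in 𝓝 e0, ∀ k : LT N, w k (fun r => (e r : ℂ)) = ((per e k.1.1 k.1.2 : ℝ) : ℂ))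
    {κ : Type} [Finite κ] (g : κ → (Fin (N + 1) → ℂ) → ℂ)
    (hgM : ∀ k, ∃ D H : (Fin (N + 1) → ℂ) → ℂ,
      (∀ z : Fin (N + 1) → ℂ, Differentiable ℂ (fun t => D (Function.update z (Fin.last N) t)) ∧
        Differentiable ℂ (fun t => H (Function.update z (Fin.last N) t))) ∧
      ∀ᶠ e : Fin (N + 1) → ℝ in 𝓝 e0, D (fun r => (e r : ℂ)) ≠ 0 ∧
        D (fun r => (e r : ℂ)) * g k (fun r => (e r : ℂ)) = H (fun r => (e r : ℂ)))
    (hg : ∀ P : MvPolynomial (κ ⊕ Fin (N + 1)) ℂ, (∀ᶠ μ : Fin (N + 1) → ℝ in 𝓝 e0, MvPolynomial.eval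
      (Sum.elim (fun k => g k fun l => (μ l : ℂ)) (fun l => (μ l : ℂ))) P = 0) → P = 0)
    (P : MvPolynomial ((LT N ⊕ κ) ⊕ Fin (N + 1)) ℂ)
    (hP : ∀ᶠ μ : Fin (N + 1) → ℝ in 𝓝 e0, MvPolynomial.eval
      (Sum.elim (fun k => Sum.elim w g k fun l => (μ l : ℂ)) (fun l => (μ l : ℂ))) P = 0) : P = 0 := by
  classical
  choose D H hDH1 hDH2 using hgM
  obtain ⟨δ, hδ, hball⟩ := Metric.eventually_nhds_iff_ball.1
    ((strictMono_near e0 he0).and (hw.and ((eventually_all.2 hDH2).and hP)))
  have hbox : ∀ e : Fin (N + 1) → ℝ, (∀ m, e m ∈ Icc (e0 m - δ / 2) (e0 m + δ / 2)) → e ∈ Metric.ball e0 δ := by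
    intro e he
    rw [Metric.mem_ball, dist_pi_lt_iff hδ]
    intro m
    rw [Real.dist_eq, abs_lt]
    constructor
    · linarith [(he m).1]
    · linarith [(he m).2]
  have hnhds : ∀ᶠ e : Fin (N + 1) → ℝ in 𝓝 e0, ∀ m, e m ∈ Icc (e0 m - δ / 2) (e0 m + δ / 2) := by
    filter_upwards [Metric.ball_mem_nhds e0 (half_pos hδ)] with e he m
    have h1 := (dist_pi_lt_iff (half_pos hδ)).1 (Metric.mem_ball.1 he) m
    rw [Real.dist_eq, abs_lt] at h1
    constructor
    · linarith [h1.1]
    · linarith [h1.2]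
  let Z : Set (Fin (N + 1) → ℝ) := {e | ∀ m, e m ∈ Icc (e0 m - δ / 2) (e0 m + δ / 2)}
  let G : κ ⊕ Fin (N + 1) → (Fin (N + 1) → ℝ) → ℂ := Sum.elim (fun k e => g k fun l => (e l : ℂ)) (fun l e => (e l : ℂ))
  have hG : AI Z G := by
    intro Q hQ
    refine hg Q ?_
    filter_upwards [hnhds] with e he
    rw [← hQ e he]
    congr 2
    funext x
    rcases x with k | l <;> rfl
  have hup : ∀ e : Fin (N + 1) → ℝ, (∀ m, e m ∈ Icc (e0 m - δ / 2) (e0 m + δ / 2)) →
      ∀ t ∈ Icc (e0 (Fin.last N) - δ / 2) (e0 (Fin.last N) + δ / 2),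
      ∀ m, Function.update e (Fin.last N) t m ∈ Icc (e0 m - δ / 2) (e0 m + δ / 2) := by
    intro e he t ht m
    by_cases hm : m = Fin.last N
    · subst hm
      rw [Function.update_self]
      exact ht
    · rw [Function.update_of_ne hm]
      exact he m
  have hcast : ∀ (e : Fin (N + 1) → ℝ) (t : ℝ), (fun r => ((Function.update e (Fin.last N) t r : ℝ) : ℂ)) =
      Function.update (fun r => (e r : ℂ)) (Fin.last N) (t : ℂ) := by
    intro e t
    funext r
    by_cases hr : r = Fin.last N
    · subst hr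
      rw [Function.update_self, Function.update_self]
    · rw [Function.update_of_ne hr, Function.update_of_ne hr]
  have h1 := add_curve_E hN (fun m => e0 m - δ / 2) (fun m => e0 m + δ / 2) (fun m => by linarith) (id : Fin (N + 1) → Fin (N + 1))
    Function.injective_id (fun e he => (hball e (hbox e he)).1) (Fin.last N) G (fun x e he => by
      rcases x with k | l
      · refine ⟨fun t => D k (Function.update (fun r => (e r : ℂ)) (Fin.last N) t),
          fun t => H k (Function.update (fun r => (e r : ℂ)) (Fin.last N) t), (hDH1 k _).1, (hDH1 k _).2, fun t ht => ?_⟩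
        have h2 := (hball _ (hbox _ (hup e he t ht))).2.2.1 k
        rw [hcast] at h2
        refine ⟨h2.1, ?_⟩
        show _ * g k (fun l => ((Function.update e (Fin.last N) t l : ℝ) : ℂ)) = _
        rw [hcast]
        exact h2.2
      · refine Mer.of_entire (fun t => Function.update (fun r => (e r : ℂ)) (Fin.last N) t l) ?_ fun t ht => ?_
        · by_cases hl : l = Fin.last N
          · subst hl
            simp only [Function.update_self]
            exact differentiable_id
          · simp only [Function.update_of_ne hl]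
            exact differentiable_const _
        · have := congrFun (hcast e t) l
          exact this) hG
  have h2 := h1 (MvPolynomial.rename (Equiv.sumAssoc (LT N) κ (Fin (N + 1))) P) fun e he => by
    rw [MvPolynomial.eval_rename]
    obtain ⟨-, h3, -, h4⟩ := hball e (hbox e he)
    rw [← h4]
    congr 2
    funext x
    rcases x with (k | k) | l
    · exact (h3 k).symm
    · rfl
    · rfl
  exact MvPolynomial.rename_injective _ (Equiv.injective _) (by rw [h2, map_zero])

end Pool.Agent.Q23.MV.ME
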