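import Pool.Agent.Q23.MV.MonoE3
import Pool.Agent.Q23.MV.Gam
import Pool.Agent.Q23.AQ.It

/-!
# Iterated exponentials, Gamma values and polygamma values of the branch points
-/

set_option autoImplicit false

open Set Filter Topology

namespace Pool.Agent.Q23.MV.ME

open Pool.Agent.Y118.HP Pool.Agent.Q29.HypInd Pool.Agent.TH818.AP Pool.Agent.Q136.LR Pool.Agent.Y890.MV

/-- functions of one variable at all coordinates -/
theorem prod_near {M : ℕ} {κ : Type} (e0 : Fin M → ℝ) (f : κ → ℂ → ℂ)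
    (hf : ∀ a b : ℝ, a < b → AI (Icc a b) (fun (o : Option κ) (t : ℝ) => o.elim (t : ℂ) fun k => f k t))
    (P : MvPolynomial ((Fin M × κ) ⊕ Fin M) ℂ)
    (hP : ∀ᶠ μ : Fin M → ℝ in 𝓝 e0, MvPolynomial.eval
      (Sum.elim (fun x => f x.2 (μ x.1 : ℂ)) (fun l => (μ l : ℂ))) P = 0) : P = 0 := by
  classical
  obtain ⟨δ, hδ, hball⟩ := Metric.eventually_nhds_iff_ball.1 hP
  have h1 := AI.prod M (fun r => Icc (e0 r - δ / 2) (e0 r + δ / 2))
    (fun _ (o : Option κ) (t : ℝ) => o.elim (t : ℂ) fun k => f k t) (fun r => hf _ _ (by linarith))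
  let ρ : (Fin M × κ) ⊕ Fin M → Fin M × Option κ := Sum.elim (fun x => (x.1, some x.2)) (fun l => (l, none))
  have hρ : Function.Injective ρ := by
    rintro (x | l) (x' | l') h
    · simp only [ρ, Sum.elim_inl, Prod.mk.injEq, Option.some.injEq] at h
      rw [Prod.ext h.1 h.2]
    · simp [ρ] at h
    · simp [ρ] at h
    · simp only [ρ, Sum.elim_inr, Prod.mk.injEq] at h
      rw [h.1]
  have h2 := h1.comp ρ hρ
  refine h2 P fun e he => ?_
  have h3 : e ∈ Metric.ball e0 δ := by
    rw [Metric.mem_ball, dist_pi_lt_iff hδ]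
    intro m
    rw [Real.dist_eq, abs_lt]
    have h4 := he m
    constructor
    · linarith [h4.1]
    · linarith [h4.2]
  rw [← hball e h3]
  congr 2
  funext x
  rcases x with x | l <;> rfl

/-- an analytic function which vanishes at the real points near a real point vanishes near this point -/
theorem zero_of_real {X : Type} [Fintype X] (G : (X → ℂ) → ℂ) (e0 : X → ℝ)
    (hG : ∀ᶠ z in 𝓝 (fun r => (e0 r : ℂ)), AnalyticAt ℂ G z)
    (h : ∀ᶠ e : X → ℝ in 𝓝 e0, G (fun r => (e r : ℂ)) = 0) : ∀ᶠ z in 𝓝 (fun r => (e0 r : ℂ)), G z = 0 := by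
  obtain ⟨ρ, hρ, h1⟩ := Metric.eventually_nhds_iff_ball.1 hG
  obtain ⟨ρ', hρ', h2⟩ := Metric.eventually_nhds_iff_ball.1 h
  set η := min ρ ρ' with hη
  have hη0 : 0 < η := lt_min hρ hρ'
  filter_upwards [Metric.ball_mem_nhds _ (show 0 < η / 4 by positivity)] with z hz
  have hz' := (dist_pi_lt_iff (show 0 < η / 4 by positivity)).1 (Metric.mem_ball.1 hz)
  let γ : ℂ → X → ℂ := fun t r => ((z r).re : ℂ) + t * ((z r).im : ℂ)
  have hre : ∀ r, |(z r).re - e0 r| < η / 4 := by
    intro r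
    have h3 := hz' r
    rw [Complex.dist_eq] at h3
    refine lt_of_le_of_lt ?_ h3
    have h4 := Complex.abs_re_le_norm (z r - (e0 r : ℂ))
    simpa using h4
  have him : ∀ r, |(z r).im| < η / 4 := by
    intro r
    have h3 := hz' r
    rw [Complex.dist_eq] at h3
    refine lt_of_le_of_lt ?_ h3
    have h4 := Complex.abs_im_le_norm (z r - (e0 r : ℂ))
    simpa using h4
  have hγ : ∀ t ∈ Metric.ball (0 : ℂ) 2, γ t ∈ Metric.ball (fun r => (e0 r : ℂ)) ρ := by
    intro t ht
    rw [mem_ball_zero_iff] at ht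
    have h5 : γ t ∈ Metric.ball (fun r => (e0 r : ℂ)) η := by
      rw [Metric.mem_ball, dist_pi_lt_iff hη0]
      intro r
      rw [Complex.dist_eq]
      have h3 : γ t r - (e0 r : ℂ) = (((z r).re - e0 r : ℝ) : ℂ) + t * (((z r).im : ℝ) : ℂ) := by
        simp only [γ]
        push_cast
        ring
      rw [h3]
      refine lt_of_le_of_lt (norm_add_le _ _) ?_
      rw [norm_mul, Complex.norm_real, Complex.norm_real, Real.norm_eq_abs, Real.norm_eq_abs]
      have h6 : ‖t‖ * |(z r).im| ≤ 2 * (η / 4) :=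
        mul_le_mul ht.le (him r).le (abs_nonneg _) (by norm_num)
      linarith [hre r]
    exact Metric.ball_subset_ball (min_le_left _ _) h5
  have han : AnalyticOnNhd ℂ (fun t => G (γ t)) (Metric.ball 0 2) := by
    intro t ht
    refine AnalyticAt.comp (g := G) (f := γ) (h1 _ (hγ t ht)) ?_
    rw [analyticAt_pi_iff]
    intro r
    exact analyticAt_const.add (analyticAt_id.mul analyticAt_const)
  have hzero : ∀ t ∈ Metric.ball (0 : ℂ) 2, G (γ t) = 0 := by
    refine han.eqOn_zero_of_preconnected_of_frequently_eq_zero (convex_ball _ _).isPreconnected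
      (Metric.mem_ball_self (by norm_num)) ?_
    have h3 : Tendsto (fun t : ℝ => (t : ℂ)) (𝓝[>] (0 : ℝ)) (𝓝[≠] ((0 : ℝ) : ℂ)) := by
      refine tendsto_nhdsWithin_iff.2 ⟨?_, ?_⟩
      · exact (Complex.continuous_ofReal.tendsto 0).mono_left nhdsWithin_le_nhds
      · filter_upwards [self_mem_nhdsWithin] with t ht
        simp only [mem_compl_iff, mem_singleton_iff, Complex.ofReal_inj]
        exact ne_of_gt ht
    rw [Complex.ofReal_zero] at h3
    refine h3.frequently (Eventually.frequently ?_)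
    filter_upwards [Ioo_mem_nhdsGT (show (0 : ℝ) < 1 by norm_num)] with t ht
    have h4 : γ (t : ℂ) = fun r => (((z r).re + t * (z r).im : ℝ) : ℂ) := by
      funext r
      simp only [γ]
      push_cast
      ring
    rw [h4]
    refine h2 _ ?_
    rw [Metric.mem_ball, dist_pi_lt_iff hρ']
    intro r
    rw [Real.dist_eq]
    have h5 : (z r).re + t * (z r).im - e0 r = ((z r).re - e0 r) + t * (z r).im := by ring
    rw [h5]
    refine lt_of_lt_of_le (lt_of_le_of_lt (abs_add_le _ _) ?_) (min_le_right ρ ρ')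
    rw [abs_mul, abs_of_pos ht.1]
    have h6 : t * |(z r).im| ≤ 1 * (η / 4) := mul_le_mul ht.2.le (him r).le (abs_nonneg _) (by norm_num)
    linarith [hre r]
  have h3 := hzero Complex.I (by rw [mem_ball_zero_iff, Complex.norm_I]; norm_num)
  have h4 : γ Complex.I = z := by
    funext r
    simp only [γ]
    rw [mul_comm]
    exact Complex.re_add_im (z r)
  rwa [h4] at h3

theorem mer_psi (k : ℕ) : ∃ D H : ℂ → ℂ, Differentiable ℂ D ∧ Differentiable ℂ H ∧
    ∀ z, NP z → D z ≠ 0 ∧ D z * psi k z = H z := by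
  induction k with
  | zero =>
    have hR := Complex.differentiable_one_div_Gamma
    refine ⟨fun z => (Complex.Gamma z)⁻¹, fun z => -deriv (fun z => (Complex.Gamma z)⁻¹) z, hR, ?_, fun z hz => ⟨np_iff.1 hz, ?_⟩⟩
    · exact (hR.contDiff (n := 2)).differentiable_deriv_two.neg
    · have h1 : DifferentiableAt ℂ Complex.Gamma z := (gam_an hz).differentiableAt
      have h2 : Complex.Gamma z ≠ 0 := Complex.Gamma_ne_zero hz
      have h3 : deriv (fun z => (Complex.Gamma z)⁻¹) z = -deriv Complex.Gamma z / Complex.Gamma z ^ 2 :=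
        (h1.hasDerivAt.inv h2).deriv
      have h4 : psi 0 z = deriv Complex.Gamma z / Complex.Gamma z := by
        rw [psi, iteratedDeriv_zero]
        rfl
      show (Complex.Gamma z)⁻¹ * psi 0 z = -deriv (fun z => (Complex.Gamma z)⁻¹) z
      rw [h3, h4]
      field_simp
  | succ k ih =>
    obtain ⟨D, H, hD, hH, h⟩ := ih
    have hD' : Differentiable ℂ (deriv D) := (hD.contDiff (n := 2)).differentiable_deriv_two
    have hH' : Differentiable ℂ (deriv H) := (hH.contDiff (n := 2)).differentiable_deriv_two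
    refine ⟨fun z => D z ^ 2, fun z => deriv H z * D z - H z * deriv D z, hD.pow 2, (hH'.mul hD).sub (hH.mul hD'),
      fun z hz => ⟨pow_ne_zero _ (h z hz).1, ?_⟩⟩
    have h1 : psi k =ᶠ[𝓝 z] fun z => H z / D z := by
      filter_upwards [np_ev hz] with w hw
      rw [eq_div_iff (h w hw).1, mul_comm]
      exact (h w hw).2
    have h2 : psi (k + 1) z = deriv (psi k) z := by
      have : psi (k + 1) = deriv (psi k) := by
        funext w
        rw [psi, iteratedDeriv_succ]
        rfl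
      rw [this]
    rw [h2, h1.deriv_eq, deriv_fun_div (hH z) (hD z) (h z hz).1]
    have := (h z hz).1
    field_simp

/-- linear forms -/
theorem lin_upd {M : ℕ} (c : Fin M → ℂ) (y : ℂ) (r : Fin M) (D : ℂ → ℂ) (hD : Differentiable ℂ D) (z : Fin M → ℂ) :
    Differentiable ℂ (fun t => D (∑ j, c j * Function.update z r t j + y)) := by
  refine hD.comp (Differentiable.add_const y ?_)
  refine Differentiable.fun_sum fun j _ => ?_
  refine Differentiable.const_mul ?_ _
  by_cases hj : j = r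
  · subst hj
    simp only [Function.update_self]
    exact differentiable_id
  · simp only [Function.update_of_ne hj]
    exact differentiable_const _

/-- the functions `ψ^(j)(k_i·e + y_i)`, `Γ(k_i·e + y_i)`, `exp (L_i·e)` -/
noncomputable def gE {M r : ℕ} {τ : Type} (s : ℕ) (k : Fin r → Fin M → ℚ) (y : Fin r → ℂ) (L : τ → Fin M → ℝ) :
    ((Fin r × Fin s) ⊕ Fin r) ⊕ τ → (Fin M → ℂ) → ℂ :=
  Sum.elim (gM s k y) fun i x => Complex.exp (∑ j, (L i j : ℂ) * x j)

theorem gE_an {M r : ℕ} {τ : Type} (s : ℕ) (k : Fin r → Fin M → ℚ) (y : Fin r → ℂ) (L : τ → Fin M → ℝ)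
    (a : ((Fin r × Fin s) ⊕ Fin r) ⊕ τ) : AnalyticOnNhd ℂ (gE s k y L a) (DomM k y) := by
  rcases a with a | i
  · exact gM_an s k y a
  · intro x _
    have h1 : AnalyticAt ℂ (fun x : Fin M → ℂ => ∑ j, (L i j : ℂ) * x j) x :=
      Finset.analyticAt_fun_sum _ fun j _ => analyticAt_const.mul
        ((ContinuousLinearMap.proj (R := ℂ) (φ := fun _ : Fin M => ℂ) j).analyticAt x)
    exact h1.cexp

theorem gE_mer {N r : ℕ} {τ : Type} (s : ℕ) (k : Fin r → Fin (N + 1) → ℚ) (y : Fin r → ℂ) (L : τ → Fin (N + 1) → ℝ)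
    (e0 : Fin (N + 1) → ℝ) (h0 : (fun r => (e0 r : ℂ)) ∈ DomM k y) (a : ((Fin r × Fin s) ⊕ Fin r) ⊕ τ) :
    ∃ D H : (Fin (N + 1) → ℂ) → ℂ,
      (∀ z : Fin (N + 1) → ℂ, Differentiable ℂ (fun t => D (Function.update z (Fin.last N) t)) ∧
        Differentiable ℂ (fun t => H (Function.update z (Fin.last N) t))) ∧
      ∀ᶠ e : Fin (N + 1) → ℝ in 𝓝 e0, D (fun r => (e r : ℂ)) ≠ 0 ∧
        D (fun r => (e r : ℂ)) * gE s k y L a (fun r => (e r : ℂ)) = H (fun r => (e r : ℂ)) := by
  have hev : ∀ᶠ e : Fin (N + 1) → ℝ in 𝓝 e0, (fun r => (e r : ℂ)) ∈ DomM k y := by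
    have hc : Continuous fun e : Fin (N + 1) → ℝ => fun m => (e m : ℂ) :=
      continuous_pi fun m => Complex.continuous_ofReal.comp (continuous_apply m)
    exact hc.continuousAt.eventually ((domM_open k y).mem_nhds h0)
  rcases a with (p | i) | i
  · obtain ⟨D, H, hD, hH, h⟩ := mer_psi p.2
    refine ⟨fun z => D (∑ j, (k p.1 j : ℂ) * z j + y p.1), fun z => H (∑ j, (k p.1 j : ℂ) * z j + y p.1),
      fun z => ⟨lin_upd _ _ _ D hD z, lin_upd _ _ _ H hH z⟩, ?_⟩
    filter_upwards [hev] with e he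
    exact h _ (he p.1)
  · refine ⟨fun z => (Complex.Gamma (∑ j, (k i j : ℂ) * z j + y i))⁻¹, fun _ => 1,
      fun z => ⟨lin_upd _ _ _ (fun z => (Complex.Gamma z)⁻¹) Complex.differentiable_one_div_Gamma z, differentiable_const _⟩, ?_⟩
    filter_upwards [hev] with e he
    have h1 := np_iff.1 (he i)
    refine ⟨h1, ?_⟩
    show (Complex.Gamma (∑ j, (k i j : ℂ) * (e j : ℂ) + y i))⁻¹ * Complex.Gamma (∑ j, (k i j : ℂ) * (e j : ℂ) + y i) = 1
    exact inv_mul_cancel₀ (Complex.Gamma_ne_zero (he i))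
  · refine ⟨fun _ => 1, fun z => Complex.exp (∑ j, (L i j : ℂ) * z j), fun z => ⟨differentiable_const _, ?_⟩,
      Eventually.of_forall fun e => ⟨one_ne_zero, by rw [one_mul]; rfl⟩⟩
    have := lin_upd (fun j => (L i j : ℂ)) 0 (Fin.last N) Complex.exp Complex.differentiable_exp z
    simpa only [add_zero] using this

theorem eval_an {σ X : Type} [Fintype X] (f : σ → (X → ℂ) → ℂ) (U : Set (X → ℂ)) (hf : ∀ i, AnalyticOnNhd ℂ (f i) U)
    (P : MvPolynomial σ ℂ) : AnalyticOnNhd ℂ (fun z => MvPolynomial.eval (fun i => f i z) P) U := by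
  induction P using MvPolynomial.induction_on with
  | C c => simp only [MvPolynomial.eval_C]; exact fun z _ => analyticAt_const
  | add p q hp hq => simp only [map_add]; exact fun z hz => (hp z hz).add (hq z hz)
  | mul_X p i hp => simp only [map_mul, MvPolynomial.eval_X]; exact fun z hz => (hp z hz).mul (hf i z hz)

theorem gE_near {M r : ℕ} {τ : Type} [Fintype τ] [DecidableEq τ] (s : ℕ)
    (k : Fin r → Fin M → ℚ) (y : Fin r → ℂ) (hk : ∀ i, k i ≠ 0) (hind : IndM k y) (L : τ → Fin M → ℝ)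
    (hL : ∀ m : τ → ℤ, (∀ j, ∑ i, (m i : ℝ) * L i j = 0) → m = 0)
    (e0 : Fin M → ℝ) (h0 : (fun r => (e0 r : ℂ)) ∈ DomM k y)
    (P : MvPolynomial ((((Fin r × Fin s) ⊕ Fin r) ⊕ τ) ⊕ Fin M) ℂ)
    (hP : ∀ᶠ μ : Fin M → ℝ in 𝓝 e0, MvPolynomial.eval
      (Sum.elim (fun a => gE s k y L a fun l => (μ l : ℂ)) (fun l => (μ l : ℂ))) P = 0) : P = 0 := by
  classical
  have hG : AnalyticOnNhd ℂ (fun z : Fin M → ℂ => MvPolynomial.eval
      (fun a => (Sum.elim (gE s k y L) (fun l z => z l) : _ → (Fin M → ℂ) → ℂ) a z) P) (DomM k y) := by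
    refine eval_an _ _ (fun a => ?_) P
    rcases a with a | l
    · exact gE_an s k y L a
    · exact fun z _ => (ContinuousLinearMap.proj (R := ℂ) (φ := fun _ : Fin M => ℂ) l).analyticAt z
  have h1 := zero_of_real _ e0 (by
    filter_upwards [(domM_open k y).mem_nhds h0] with z hz using hG z hz) (by
    filter_upwards [hP] with μ hμ
    rw [← hμ]
    congr 2
    funext a
    rcases a with a | l <;> rfl)
  obtain ⟨V, hV1, hVo, hV0⟩ := eventually_nhds_iff.1 (h1.and ((domM_open k y).mem_nhds h0))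
  have h2 := gM_ind s k y hk hind L hL V hVo ⟨_, hV0⟩ (fun z hz => (hV1 z hz).2) (MvPolynomial.sumAlgEquiv ℂ _ _ P) (by
    intro z hz
    rw [evM_flat, AlgEquiv.symm_apply_apply, ← (hV1 z hz).1]
    congr 2
    funext a
    rcases a with (a | i) | l <;> rfl)
  rw [← (MvPolynomial.sumAlgEquiv ℂ _ _).symm_apply_apply P, h2, map_zero]

end Pool.Agent.Q23.MV.ME
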