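import Pool.Agent.Q23.MV.ELM
import Pool.Agent.H340R2.LW

/-!
# Packaging
-/

set_option autoImplicit false

open Set Filter Topology NumberField

namespace Pool.Agent.Q23.MV

open Pool.Agent.TH818.AP Pool.Agent.Y771 Pool.Agent.Y890.MV

/-- products of domains containing the positive reals -/
theorem prod_dom {X : Type} [Fintype X] (V : X → Set ℂ) (hVc : ∀ j, IsPreconnected (V j)) (hVo : ∀ j, IsOpen (V j))
    (hpos : ∀ j, ∀ t : ℝ, 0 < t → (t : ℂ) ∈ V j) :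
    IsPreconnected (Set.pi univ V) ∧ IsOpen (Set.pi univ V) ∧ (Set.pi univ V).Nonempty ∧
      ∀ x : X → ℝ, (∀ j, 0 < x j) → (fun j => (x j : ℂ)) ∈ Set.pi univ V := by
  refine ⟨isPreconnected_univ_pi hVc, isOpen_set_pi finite_univ fun j _ => hVo j,
    ⟨fun _ => ((1 : ℝ) : ℂ), fun j _ => hpos j 1 one_pos⟩, fun x hx j _ => hpos j _ (hx j)⟩

theorem slit_dom : IsPreconnected Complex.slitPlane ∧ IsOpen Complex.slitPlane ∧
    ∀ t : ℝ, 0 < t → (t : ℂ) ∈ Complex.slitPlane :=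
  ⟨(Complex.starConvex_one_slitPlane.isPathConnected Complex.one_mem_slitPlane).isConnected.isPreconnected,
    Complex.isOpen_slitPlane, fun _ ht => Complex.ofReal_mem_slitPlane.2 ht⟩

/-- exact relations between exponentials of exponential-logarithmic polynomials -/
theorem mvFewEL {X κ σ : Type} [Fintype X] [DecidableEq X] [Nonempty X] [Fintype κ] [DecidableEq κ] [Fintype σ]
    (α : σ → X → ℝ) (k i : σ → X → ℕ)
    (hinj : Function.Injective fun l => (α l, k l, i l)) (hα : ∀ l j, 0 ≤ α l j) (c : κ → σ → ℝ)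
    (hc : ∀ (μ : κ → ℤ) (n : ℤ), (∀ l, (α l ≠ 0 ∨ k l ≠ 0) → ∑ y, (μ y : ℝ) * c y l = 0) →
      (∀ p : ℕ, 1 ≤ p → ∑ l ∈ Finset.univ.filter (fun l => (α l = 0 ∧ k l = 0) ∧ ∑ j, i l j = p),
        ∑ y, (μ y : ℝ) * c y l = if p = 1 then (n : ℝ) else 0) → μ = 0)
    (V : X → Set ℂ) (hVc : ∀ j, IsPreconnected (V j)) (hVo : ∀ j, IsOpen (V j))
    (hpos : ∀ j, ∀ t : ℝ, 0 < t → (t : ℂ) ∈ V j) (hV : ∀ l j, i l j ≠ 0 → V j ⊆ Complex.slitPlane)
    (Lc : Set (X → ℂ)) (hLc : IsCompact Lc) (hLU : Lc ⊆ Set.pi univ V) (m g d : ℕ) (A ε : ℝ) (hε : 0 < ε) :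
    ∃ (D : ℕ) (C T₀ : ℝ), ∀ (F : Type) [Field F] [NumberField F], Module.finrank ℚ F ≤ m → ∀ (ι : F →+* ℂ)
      (ξ : Fin g → ℂ) (T : ℝ), T₀ ≤ T → ∃ Φ : Finset (MvPolynomial X ℂ), (Φ.card : ℝ) ≤ C * T ^ ε ∧
        (∀ Q ∈ Φ, Q ≠ 0 ∧ Q.totalDegree ≤ D) ∧
        ∀ x : X → F, (fun j => ι (x j)) ∈ Lc →
          (∀ j, ∃ a b : 𝓞 F, b ≠ 0 ∧ (∀ φ : F →+* ℂ, ‖φ a‖ ≤ T ∧ ‖φ b‖ ≤ T) ∧ x j = a / b) →
          (∀ Q ∈ Φ, MvPolynomial.eval (fun j => ι (x j)) Q ≠ 0) →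
          ∀ P : MvPolynomial κ ℂ, P ≠ 0 → (∀ y, P.degreeOf y ≤ d) →
            (∀ s, ∃ c : Fin g → 𝓞 F, (∀ a (φ : F →+* ℂ), ‖φ (c a)‖ ≤ T ^ A) ∧ P.coeff s = ∑ a, ξ a * ι (c a)) →
            MvPolynomial.aeval (fun y => fL α k i c y (fun j => ι (x j))) P ≠ 0 := by
  obtain ⟨h1, h2, h3, h4⟩ := prod_dom V hVc hVo hpos
  exact mvFew h1 h2 h3 (fun y => fL_an α k i c y _ fun x hx l j hl => hV l j hl (hx j (mem_univ j)))
    (el_mv α k i hinj hα c hc _ h4) Lc hLc hLU m g d A ε hε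

/-- a transcendental multiple of one coordinate may be added, if the coefficients are algebraic -/
theorem few_lin {X κ : Type} [Fintype X] [Fintype κ] [DecidableEq κ] (f : κ → (X → ℂ) → ℂ)
    (Lc : Set (X → ℂ)) (j0 : X) (hL0 : ∀ x ∈ Lc, x j0 ≠ 0) (θ : ℂ) (hθ : Transcendental ℚ θ) (m d : ℕ) (A ε : ℝ)
    (h : ∃ (D : ℕ) (C T₀ : ℝ), ∀ (F : Type) [Field F] [NumberField F], Module.finrank ℚ F ≤ m → ∀ (ι : F →+* ℂ)
      (ξ : Fin (d + 1) → ℂ) (T : ℝ), T₀ ≤ T → ∃ Φ : Finset (MvPolynomial X ℂ), (Φ.card : ℝ) ≤ C * T ^ ε ∧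
        (∀ Q ∈ Φ, Q ≠ 0 ∧ Q.totalDegree ≤ D) ∧
        ∀ x : X → F, (fun j => ι (x j)) ∈ Lc →
          (∀ j, ∃ a b : 𝓞 F, b ≠ 0 ∧ (∀ φ : F →+* ℂ, ‖φ a‖ ≤ T ∧ ‖φ b‖ ≤ T) ∧ x j = a / b) →
          (∀ Q ∈ Φ, MvPolynomial.eval (fun j => ι (x j)) Q ≠ 0) →
          ∀ P : MvPolynomial κ ℂ, P ≠ 0 → (∀ y, P.degreeOf y ≤ d) →
            (∀ s, ∃ c : Fin (d + 1) → 𝓞 F, (∀ a (φ : F →+* ℂ), ‖φ (c a)‖ ≤ T ^ (A + d)) ∧
              P.coeff s = ∑ a, ξ a * ι (c a)) →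
            MvPolynomial.aeval (fun y => f y (fun j => ι (x j))) P ≠ 0) :
    ∃ (D : ℕ) (C T₀ : ℝ), ∀ (F : Type) [Field F] [NumberField F], Module.finrank ℚ F ≤ m → ∀ (ι : F →+* ℂ)
      (T : ℝ), T₀ ≤ T → ∃ Φ : Finset (MvPolynomial X ℂ), (Φ.card : ℝ) ≤ C * T ^ ε ∧
        (∀ Q ∈ Φ, Q ≠ 0 ∧ Q.totalDegree ≤ D) ∧
        ∀ x : X → F, (fun j => ι (x j)) ∈ Lc →
          (∀ j, ∃ a b : 𝓞 F, b ≠ 0 ∧ (∀ φ : F →+* ℂ, ‖φ a‖ ≤ T ∧ ‖φ b‖ ≤ T) ∧ x j = a / b) →
          (∀ Q ∈ Φ, MvPolynomial.eval (fun j => ι (x j)) Q ≠ 0) →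
          ∀ P : MvPolynomial (Option κ) (𝓞 F), P ≠ 0 → (∀ y, P.degreeOf y ≤ d) →
            (∀ s (φ : F →+* ℂ), ‖φ ((P.coeff s : 𝓞 F) : F)‖ ≤ T ^ A) →
            MvPolynomial.eval₂ (ι.comp (algebraMap (𝓞 F) F))
              (fun o => o.elim (θ * ι (x j0)) fun y => f y (fun j => ι (x j))) P ≠ 0 := by
  classical
  obtain ⟨D, C, T₀, H⟩ := h
  refine ⟨D, C, max T₀ 1, fun F _ _ hF ι T hT => ?_⟩
  have hT1 : 1 ≤ T := (le_max_right _ _).trans hT
  have hT0 : 0 < T := by linarith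
  obtain ⟨Φ, h1, h2, h3⟩ := H F hF ι (fun k => θ ^ (k : ℕ)) T ((le_max_left _ _).trans hT)
  refine ⟨Φ, h1, h2, fun x hx hq hΦ P hP hd hc hP0 => ?_⟩
  obtain ⟨a, b, hb, hab, hj⟩ := hq j0
  set ρ : 𝓞 F →+* ℂ := ι.comp (algebraMap (𝓞 F) F) with hρ
  have hρi : Function.Injective ρ := ι.injective.comp (FaithfulSMul.algebraMap_injective (𝓞 F) F)
  have hρa : ∀ r, ρ r = ι (r : F) := fun r => rfl
  have hb' : ρ b ≠ 0 := (map_ne_zero_iff ρ hρi).2 hb
  have hxj : ι (x j0) = ρ a / ρ b := by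
    rw [hj, map_div₀]
    rfl
  have ha : a ≠ 0 := by
    rintro rfl
    apply hL0 _ hx
    change ι (x j0) = 0
    rw [hxj, map_zero, zero_div]
  set R := MvPolynomial.optionEquivLeft ℂ κ (MvPolynomial.map ρ P) with hR
  have hRc : ∀ (k : ℕ) (e : κ →₀ ℕ), MvPolynomial.coeff e (R.coeff k) = ρ (P.coeff (e.optionElim k)) := by
    intro k e
    rw [hR, MvPolynomial.optionEquivLeft_coeff_coeff, MvPolynomial.coeff_map]
  have hdeg : ∀ (k : ℕ) (e : κ →₀ ℕ), P.coeff (e.optionElim k) ≠ 0 → k ≤ d ∧ ∀ y, e y ≤ d := by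
    intro k e hne
    have h5 := fun o => (MvPolynomial.monomial_le_degreeOf o (MvPolynomial.mem_support_iff.2 hne)).trans (hd o)
    refine ⟨?_, fun y => ?_⟩
    · have := h5 none
      rwa [Finsupp.optionElim_apply_none] at this
    · have := h5 (some y)
      rwa [Finsupp.optionElim_apply_some] at this
  have hRd : R.natDegree ≤ d := by
    rw [Polynomial.natDegree_le_iff_coeff_eq_zero]
    intro k hk
    ext e
    rw [hRc, MvPolynomial.coeff_zero]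
    by_contra hne
    have h5 := hdeg k e (fun h6 => hne (by rw [h6, map_zero]))
    omega
  let Q : MvPolynomial κ ℂ := ∑ k ∈ Finset.range (d + 1),
    MvPolynomial.C (ρ b ^ d * (θ * ι (x j0)) ^ k) * R.coeff k
  have hQc : ∀ e : κ →₀ ℕ, Q.coeff e = ∑ k : Fin (d + 1), θ ^ (k : ℕ) *
      ι ((P.coeff (e.optionElim (k : ℕ)) * (a ^ (k : ℕ) * b ^ (d - k)) : 𝓞 F) : F) := by
    intro e
    simp only [Q]
    rw [MvPolynomial.coeff_sum, Finset.sum_range]
    refine Finset.sum_congr rfl fun k _ => ?_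
    rw [MvPolynomial.coeff_C_mul, hRc, ← hρa, map_mul, map_mul, map_pow, map_pow, hxj]
    have hk : (d : ℕ) = k + (d - k) := by omega
    have h5 : ρ b ^ d = ρ b ^ (k : ℕ) * ρ b ^ (d - k) := by rw [← pow_add, ← hk]
    rw [h5, mul_pow, div_pow]
    field_simp
  have hQ0 : Q ≠ 0 := by
    intro hQ0
    apply hP
    have h5 : ∀ (e : κ →₀ ℕ) (k : Fin (d + 1)), P.coeff (e.optionElim (k : ℕ)) = 0 := by
      intro e
      have h6 : ∑ k : Fin (d + 1), θ ^ (k : ℕ) *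
          ι ((P.coeff (e.optionElim (k : ℕ)) * (a ^ (k : ℕ) * b ^ (d - k)) : 𝓞 F) : F) = 0 := by
        rw [← hQc, hQ0, MvPolynomial.coeff_zero]
      -- `θ` is transcendental over `F`
      letI : Algebra F ℂ := ι.toAlgebra
      have h7 : ¬ IsAlgebraic F θ := by
        intro h8
        haveI : Algebra.IsAlgebraic ℚ F := NumberField.isAlgebraic F
        haveI : IsScalarTower ℚ F ℂ := IsScalarTower.of_algebraMap_eq' (Subsingleton.elim _ _)
        exact hθ (h8.restrictScalars ℚ)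
      let p : Polynomial F := ∑ k : Fin (d + 1), Polynomial.C
        ((P.coeff (e.optionElim (k : ℕ)) * (a ^ (k : ℕ) * b ^ (d - k)) : 𝓞 F) : F) * Polynomial.X ^ (k : ℕ)
      have h9 : p = 0 := by
        by_contra hp
        refine h7 ⟨p, hp, ?_⟩
        rw [← h6]
        simp only [p, map_sum, map_mul, map_pow, Polynomial.aeval_C, Polynomial.aeval_X]
        refine Finset.sum_congr rfl fun k _ => ?_
        rw [mul_comm]
        rfl
      intro k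
      have h10 : p.coeff k = ((P.coeff (e.optionElim (k : ℕ)) * (a ^ (k : ℕ) * b ^ (d - k)) : 𝓞 F) : F) := by
        simp only [p, Polynomial.finsetSum_coeff, Polynomial.coeff_C_mul, Polynomial.coeff_X_pow]
        rw [Finset.sum_eq_single k]
        · simp
        · intro k' _ hk'
          rw [if_neg (fun h => hk' (Fin.ext h.symm)), mul_zero]
        · intro h
          exact absurd (Finset.mem_univ _) h
      rw [h9, Polynomial.coeff_zero] at h10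
      have h11 : (P.coeff (e.optionElim (k : ℕ)) * (a ^ (k : ℕ) * b ^ (d - k)) : 𝓞 F) = 0 := by
        apply FaithfulSMul.algebraMap_injective (𝓞 F) F
        rw [map_zero]
        exact h10.symm
      exact (mul_eq_zero.1 h11).resolve_right (mul_ne_zero (pow_ne_zero _ ha) (pow_ne_zero _ hb))
    refine MvPolynomial.ext _ _ fun s => ?_
    rw [MvPolynomial.coeff_zero]
    by_contra hne
    have h6 : s = (s.some).optionElim (s none) := by simp
    rw [h6] at hne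
    have h7 := (hdeg _ _ hne).1
    exact hne (h5 s.some ⟨s none, by omega⟩)
  refine h3 x hx hq hΦ Q hQ0 (fun y => ?_) (fun e => ?_) ?_
  · rw [MvPolynomial.degreeOf_le_iff]
    intro e he
    rw [MvPolynomial.mem_support_iff, hQc] at he
    obtain ⟨k, -, hk⟩ := Finset.exists_ne_zero_of_sum_ne_zero he
    refine (hdeg k e fun h5 => hk ?_).2 y
    rw [h5]
    simp
  · refine ⟨fun k => P.coeff (e.optionElim (k : ℕ)) * (a ^ (k : ℕ) * b ^ (d - k)), fun k φ => ?_, hQc e⟩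
    have hT' : T ^ (A + d) = T ^ A * T ^ d := by
      rw [Real.rpow_add hT0, Real.rpow_natCast]
    rw [hT']
    push_cast
    rw [map_mul, map_mul, map_pow, map_pow, norm_mul, norm_mul, norm_pow, norm_pow]
    refine mul_le_mul (hc _ φ) ?_ (by positivity) (Real.rpow_nonneg hT0.le _)
    have hk : (d : ℕ) = k + (d - k) := by omega
    calc ‖φ a‖ ^ (k : ℕ) * ‖φ b‖ ^ (d - k : ℕ) ≤ T ^ (k : ℕ) * T ^ (d - k : ℕ) :=
          mul_le_mul (pow_le_pow_left₀ (norm_nonneg _) (hab φ).1 _) (pow_le_pow_left₀ (norm_nonneg _) (hab φ).2 _)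
            (by positivity) (by positivity)
      _ = T ^ d := by rw [← pow_add, ← hk]
  · have h5 := MvPolynomial.optionEquivLeft_elim_eval ℂ κ (fun y => f y (fun j => ι (x j))) (θ * ι (x j0))
      (MvPolynomial.map ρ P)
    rw [MvPolynomial.eval_map, ← hR, Polynomial.eval_eq_sum_range' (n := d + 1)
      (Nat.lt_succ_of_le ((Polynomial.natDegree_map_le).trans hRd))] at h5
    have h6 : MvPolynomial.eval₂ ρ (fun o : Option κ => o.elim (θ * ι (x j0)) fun y => f y (fun j => ι (x j))) P =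
        0 := hP0
    rw [h6] at h5
    simp only [Q, map_sum, map_mul, MvPolynomial.aeval_C, MvPolynomial.aeval_eq_eval]
    calc _ = ρ b ^ d * ∑ k ∈ Finset.range (d + 1), (Polynomial.map (MvPolynomial.eval fun y => f y fun j => ι (x j))
          R).coeff k * (θ * ι (x j0)) ^ k := by
          rw [Finset.mul_sum]
          refine Finset.sum_congr rfl fun k _ => ?_
          rw [Polynomial.coeff_map]
          simp only [Algebra.algebraMap_self, RingHom.id_apply, RingHom.coe_coe]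
          ring
      _ = 0 := by rw [← h5, mul_zero]

end Pool.Agent.Q23.MV
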