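import Pool.Agent.TH659.HY.Fun
import Pool.Agent.Q23.MV.Hyp

/-!
# Hyperelliptic integrals of the first, second and third kind on one curve: independence
-/

set_option autoImplicit false

open Polynomial Set Filter Topology

namespace Pool.Agent.Q23.MV.H3

open Pool.Agent.TH659.HY

variable {f : ℝ[X]}

/-- no simple poles -/
theorem root_of (a : ℝ) (ha : f.eval a ≠ 0) (B Q V1 W : ℝ[X]) (hco : IsCoprime B Q) (hQ : Q ≠ 0) (hV1 : V1.eval a ≠ 0)
    (h : (2 * f * (derivative B * Q - B * derivative Q) + B * derivative f * Q) * ((X - C a) * V1) = 2 * Q * Q * W) :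
    W.eval a = 0 := by
  obtain ⟨R, hQR, hR⟩ := Polynomial.exists_eq_pow_rootMultiplicity_mul_and_not_dvd Q hQ a
  generalize Polynomial.rootMultiplicity a Q = e at hQR
  have hRa : R.eval a ≠ 0 := by
    intro h0
    exact hR (dvd_iff_isRoot.2 h0)
  rcases e with _ | k
  · rw [pow_zero, one_mul] at hQR
    have h1 := congrArg (Polynomial.eval a) h
    simp only [eval_mul, eval_sub, eval_X, eval_C, sub_self, zero_mul, mul_zero] at h1
    rw [hQR] at h1
    have h2 : (2 : ℝ[X]).eval a = 2 := by simp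
    rw [h2] at h1
    have h3 := h1.symm
    simpa [hRa] using h3
  · exfalso
    have hd : derivative Q = (X - C a) ^ k * ((k + 1 : ℝ[X]) * R + (X - C a) * derivative R) := by
      rw [hQR, derivative_mul, derivative_X_sub_C_pow]
      have hC : (C ((k : ℝ) + 1) : ℝ[X]) = (k : ℝ[X]) + 1 := by simp
      push_cast
      rw [hC]
      ring
    have h1 : (X - C a) ^ (k + 1) * (V1 * (2 * f * (derivative B * (X - C a) * R -
        B * ((k + 1 : ℝ[X]) * R + (X - C a) * derivative R)) + B * derivative f * (X - C a) * R)) =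
        (X - C a) ^ (k + 1) * (2 * (X - C a) ^ (k + 1) * R * R * W) := by
      rw [hd, hQR] at h
      linear_combination h
    have h2 := mul_left_cancel₀ (pow_ne_zero _ (X_sub_C_ne_zero a)) h1
    have h3 := congrArg (Polynomial.eval a) h2
    simp only [eval_mul, eval_sub, eval_add, eval_pow, eval_X, eval_C, sub_self, zero_mul, mul_zero, zero_sub, add_zero,
      zero_pow (Nat.succ_ne_zero k)] at h3
    have h4 : (2 : ℝ[X]).eval a = 2 := by simp
    have h5 : ((k : ℝ[X])).eval a = k := by simp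
    rw [h4, h5, eval_one] at h3
    have hk : (k : ℝ) + 1 ≠ 0 := by positivity
    have hB : B.eval a = 0 := by
      simpa [hV1, ha, hRa, hk] using h3
    obtain ⟨p, q, hpq⟩ := hco
    have h6 := congrArg (Polynomial.eval a) hpq
    rw [hQR] at h6
    simp [hB] at h6

theorem key3 (hf : Squarefree f) {ι : Type} [Fintype ι] [DecidableEq ι] (al : ι → ℝ) (hal : Function.Injective al)
    (hfa : ∀ l, f.eval (al l) ≠ 0) (P Q W : ℝ[X]) (hQ : Q ≠ 0)
    (hW : W.natDegree + 2 ≤ f.natDegree + Fintype.card ι)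
    (h : (2 * f * (derivative P * Q - P * derivative Q) + P * derivative f * Q) * ∏ l, (X - C (al l)) = 2 * Q * Q * W) :
    W = 0 := by
  classical
  obtain ⟨g, P1, Q1, hg0, hco, rfl, rfl⟩ : ∃ g P1 Q1 : ℝ[X], g ≠ 0 ∧ IsCoprime P1 Q1 ∧ P = g * P1 ∧ Q = g * Q1 := by
    have hg0 : EuclideanDomain.gcd P Q ≠ 0 := by
      intro h0
      exact hQ ((EuclideanDomain.gcd_eq_zero_iff.1 h0).2)
    obtain ⟨P1, hP1⟩ := EuclideanDomain.gcd_dvd_left P Q
    obtain ⟨Q1, hQ1⟩ := EuclideanDomain.gcd_dvd_right P Q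
    refine ⟨EuclideanDomain.gcd P Q, P1, Q1, hg0, ?_, hP1, hQ1⟩
    have hab := EuclideanDomain.gcd_eq_gcd_ab P Q
    refine ⟨EuclideanDomain.gcdA P Q, EuclideanDomain.gcdB P Q, ?_⟩
    apply mul_left_cancel₀ hg0
    linear_combination (-EuclideanDomain.gcdA P Q) * hP1 - EuclideanDomain.gcdB P Q * hQ1 - hab
  have hQ1 : Q1 ≠ 0 := right_ne_zero_of_mul hQ
  have h1 : (2 * f * (derivative P1 * Q1 - P1 * derivative Q1) + P1 * derivative f * Q1) * ∏ l, (X - C (al l)) =
      2 * Q1 * Q1 * W := by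
    apply mul_left_cancel₀ (mul_ne_zero hg0 hg0)
    rw [derivative_mul, derivative_mul] at h
    linear_combination h
  have hdvd : ∏ l, (X - C (al l)) ∣ W := by
    refine Finset.prod_dvd_of_coprime (fun i _ j _ hij => Polynomial.pairwise_coprime_X_sub_C hal hij) fun l _ => ?_
    rw [dvd_iff_isRoot]
    have h2 : ∏ l, (X - C (al l)) = (X - C (al l)) * ∏ l' ∈ Finset.univ.erase l, (X - C (al l')) :=
      (Finset.mul_prod_erase _ _ (Finset.mem_univ l)).symm
    rw [h2] at h1
    refine root_of (al l) (hfa l) P1 Q1 _ W hco hQ1 ?_ h1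
    rw [eval_prod, Finset.prod_ne_zero_iff]
    intro l' hl'
    rw [eval_sub, eval_X, eval_C, sub_ne_zero]
    intro h3
    exact (Finset.mem_erase.1 hl').1 (hal h3).symm
  obtain ⟨W1, rfl⟩ := hdvd
  have hV0 : ∏ l, (X - C (al l)) ≠ 0 := Finset.prod_ne_zero_iff.2 fun l _ => X_sub_C_ne_zero _
  have h3 : 2 * f * (derivative P1 * Q1 - P1 * derivative Q1) + P1 * derivative f * Q1 = 2 * Q1 * Q1 * W1 := by
    apply mul_right_cancel₀ hV0
    linear_combination h1
  by_cases hW1 : W1 = 0
  · rw [hW1, mul_zero]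
  · have h4 : (∏ l, (X - C (al l))).natDegree = Fintype.card ι := by
      rw [Polynomial.natDegree_finsetProd_X_sub_C_eq_card]
      rfl
    rw [natDegree_mul hV0 hW1, h4] at hW
    rw [key hf P1 Q1 W1 hQ1 (by omega) h3, mul_zero]

variable {E : Type} [Field E] [Algebra ℝ E] {D : Derivation ℝ E E} {τ S : E}

/-- independence of the integrals `∫ W_i / (V √f)` -/
theorem indep3 (h : Data f D τ S) (hconst : ∀ x : E, D x = 0 → ∃ c : ℝ, algebraMap ℝ E c = x) [CharZero E]
    {ι σ : Type} [Fintype ι] [DecidableEq ι] [Fintype σ] [DecidableEq σ] (al : ι → ℝ) (hal : Function.Injective al)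
    (hfa : ∀ l, f.eval (al l) ≠ 0) (Wf : σ → ℝ[X]) (hdeg : ∀ i, (Wf i).natDegree + 2 ≤ f.natDegree + Fintype.card ι)
    (hlin : ∀ c : σ → ℝ, ∑ i, C (c i) * Wf i = 0 → c = 0)
    (y : σ → E) (hy : ∀ i, D (y i) * S * aeval τ (∏ l, (X - C (al l))) = aeval τ (Wf i)) :
    AlgebraicIndependent (Fd h) y := by
  have hV0 : ∏ l, (X - C (al l)) ≠ 0 := Finset.prod_ne_zero_iff.2 fun l _ => X_sub_C_ne_zero _
  have hVt : aeval τ (∏ l, (X - C (al l))) ≠ 0 := fun h0 => hV0 (h.tr _ h0)
  have hw : ∀ i, D (y i) ∈ Fd h := by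
    intro i
    have h1 : D (y i) = aeval τ (Wf i) * S⁻¹ * (aeval τ (∏ l, (X - C (al l))))⁻¹ := by
      rw [← hy i]
      have := S_ne h
      field_simp
    rw [h1]
    exact mul_mem (mul_mem (poly_mem h _) (inv_mem (S_mem h))) (inv_mem (poly_mem h _))
  refine Pool.Agent.W253.LF.t_OST ℝ (Fd h) E (DF h) D (fun x => rfl) hconst σ y
    (fun i => ⟨D (y i), hw i⟩) (fun i => rfl) ?_
  intro c x hx
  obtain ⟨A, B, Q, hQ, hx1⟩ := x.2
  set W : ℝ[X] := ∑ i, C (c i) * Wf i with hWdef
  set V : ℝ[X] := ∏ l, (X - C (al l)) with hV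
  have h1 : D (x : E) * S * aeval τ V = aeval τ W := by
    have h2 : (x : E) = ∑ i, algebraMap ℝ E (c i) * y i := hx.symm
    rw [h2, map_sum, Finset.sum_mul, Finset.sum_mul, hWdef, map_sum]
    refine Finset.sum_congr rfl fun i _ => ?_
    rw [Derivation.leibniz, Derivation.map_algebraMap, smul_zero, add_zero, smul_eq_mul, mul_assoc, mul_assoc,
      ← mul_assoc (D (y i)), hy i, map_mul, aeval_C]
  have h2 := D_rep h x A B Q hx1
  have h3 := sep h (f * (2 * f * (derivative B * Q - B * derivative Q) + B * derivative f * Q) * V - 2 * f * Q * Q * W)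
    (2 * f * (derivative A * Q - A * derivative Q) * V) (by
      simp only [map_mul, map_sub, map_add, map_ofNat] at h2 ⊢
      rw [← h1, ← h.SS]
      rw [← h.SS] at h2
      linear_combination (-S * aeval τ V) * h2)
  have h4 : (2 * f * (derivative B * Q - B * derivative Q) + B * derivative f * Q) * V = 2 * Q * Q * W := by
    apply mul_left_cancel₀ (f_ne h)
    linear_combination h3.1
  apply hlin
  by_cases hσ : Nonempty σ
  · obtain ⟨i0⟩ := hσ
    have h0 : 2 ≤ f.natDegree + Fintype.card ι := le_trans (Nat.le_add_left _ _) (hdeg i0)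
    refine key3 h.sf al hal hfa B Q W hQ ?_ h4
    have h5 : W.natDegree ≤ f.natDegree + Fintype.card ι - 2 := by
      refine natDegree_sum_le_of_forall_le _ _ fun i _ => ?_
      refine (natDegree_C_mul_le _ _).trans ?_
      have := hdeg i
      omega
    omega
  · have : IsEmpty σ := not_nonempty_iff.1 hσ
    simp

end Pool.Agent.Q23.MV.H3
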