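import Pool.Agent.Q23.MV.Third

/-!
# Integrals of the first, second and third kind: functions
-/

set_option autoImplicit false

open Polynomial Set Filter Topology

namespace Pool.Agent.Q23.MV.H3

open Pool.Agent.TH659.HY Pool.Agent.TH818.AR Pool.Agent.TH818.AP

/-- the integrands -/
noncomputable def gi (f V W : ℝ[X]) (t : ℝ) : ℝ := W.eval t / (V.eval t * √(f.eval t))

theorem gi_an (f V W : ℝ[X]) {t : ℝ} (h : 0 < f.eval t) (hV : V.eval t ≠ 0) : AnalyticAt ℝ (gi f V W) t :=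
  (AnalyticOnNhd.eval_polynomial W t (mem_univ _)).div
    ((AnalyticOnNhd.eval_polynomial V t (mem_univ _)).mul (sqrt_an f h))
    (mul_ne_zero hV (Real.sqrt_pos.2 h).ne')

/-- the integrals -/
noncomputable def GI (f V W : ℝ[X]) (c t : ℝ) : ℝ := ∫ s in c..t, gi f V W s

theorem GI_deriv (f V W : ℝ[X]) (a b : ℝ) (h : ∀ t ∈ Ioo a b, 0 < f.eval t ∧ V.eval t ≠ 0) (c : ℝ) (hc : c ∈ Ioo a b)
    (t : ℝ) (ht : t ∈ Ioo a b) : HasDerivAt (GI f V W c) (gi f V W t) t := by
  have hcont : ContinuousOn (gi f V W) (Ioo a b) := fun s hs =>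
    (gi_an f V W (h s hs).1 (h s hs).2).continuousAt.continuousWithinAt
  have hsub : uIcc c t ⊆ Ioo a b := (ordConnected_Ioo.uIcc_subset hc ht)
  refine intervalIntegral.integral_hasDerivAt_right ((hcont.mono hsub).intervalIntegrable) ?_
    (gi_an f V W (h t ht).1 (h t ht).2).continuousAt
  exact hcont.stronglyMeasurableAtFilter isOpen_Ioo t ht

theorem GI_an (f V W : ℝ[X]) (a b : ℝ) (h : ∀ t ∈ Ioo a b, 0 < f.eval t ∧ V.eval t ≠ 0) (c : ℝ) (hc : c ∈ Ioo a b)
    (t : ℝ) (ht : t ∈ Ioo a b) : AnalyticAt ℝ (GI f V W c) t := by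
  obtain ⟨G, hG, hGd⟩ := Pool.Agent.TH818.AP.LiLoc.primitive (gi_an f V W (h t ht).1 (h t ht).2)
  have h1 : ∀ᶠ s in 𝓝 t, HasDerivAt G (gi f V W s) s ∧ s ∈ Ioo a b := hGd.and (Ioo_mem_nhds ht.1 ht.2)
  obtain ⟨r, hr, hball⟩ := Metric.eventually_nhds_iff_ball.1 h1
  have hd : ∀ s ∈ Metric.ball t r, HasDerivAt (fun s => GI f V W c s - G s) 0 s := by
    intro s hs
    have h2 := (GI_deriv f V W a b h c hc s (hball s hs).2).sub (hball s hs).1
    rwa [sub_self] at h2
  have hconst : ∀ s ∈ Metric.ball t r, GI f V W c s - G s = GI f V W c t - G t := by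
    intro s hs
    exact Metric.isOpen_ball.is_const_of_deriv_eq_zero (Metric.isPreconnected_ball)
      (fun s hs => (hd s hs).differentiableAt.differentiableWithinAt) (fun s hs => (hd s hs).deriv) hs
      (Metric.mem_ball_self hr)
  have h3 : (fun s => G s + (GI f V W c t - G t)) =ᶠ[𝓝 t] GI f V W c := by
    filter_upwards [Metric.ball_mem_nhds t hr] with s hs
    have := hconst s hs
    linarith
  exact (hG.add analyticAt_const).congr h3

/-- functional independence -/
theorem GI_ind (f : ℝ[X]) (hf : Squarefree f) {ι σ : Type} [Fintype ι] [DecidableEq ι] [Fintype σ] [DecidableEq σ]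
    (al : ι → ℝ) (hal : Function.Injective al) (hfa : ∀ l, f.eval (al l) ≠ 0) (Wf : σ → ℝ[X]) (h1f : 1 ≤ f.natDegree)
    (hdeg : ∀ i, (Wf i).natDegree + 2 ≤ f.natDegree + Fintype.card ι)
    (hlin : ∀ c : σ → ℝ, ∑ i, C (c i) * Wf i = 0 → c = 0) (d : ℕ) (a b a' b' : ℝ) (haa : a' < a) (hab : a < b) (hbb : b < b')
    (h : ∀ t ∈ Ioo a' b', 0 < f.eval t ∧ (∏ l, (X - C (al l)) : ℝ[X]).eval t ≠ 0) (c : ℝ) (hc : c ∈ Ioo a' b') :
    RIndep (fun (e : σ → Fin (d + 1)) (t : ℝ) => ∏ i : σ, GI f (∏ l, (X - C (al l))) (Wf i) c t ^ (e i : ℕ)) a b := by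
  classical
  intro p hp
  obtain ⟨t0, ht0⟩ : ∃ t0, t0 ∈ Ioo a b := ⟨(a + b) / 2, by constructor <;> linarith⟩
  have ht0' : t0 ∈ Ioo a' b' := ⟨by linarith [ht0.1], by linarith [ht0.2]⟩
  obtain ⟨E, _, _, D, T, hconst, hTc, hTadd, hTmul, hTder, hTinj, hTcongr⟩ := Pool.Agent.W924.LF.t_GERM ℝ
  have : CharZero E := charZero_of_injective_algebraMap (algebraMap ℝ E).injective
  -- the ring of analytic functions
  let A : Subring (ℝ → ℝ) :=
    { carrier := {g | AnalyticAt ℝ g 0}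
      mul_mem' := fun hf hg => hf.mul hg
      one_mem' := analyticAt_const
      add_mem' := fun hf hg => hf.add hg
      zero_mem' := analyticAt_const
      neg_mem' := fun hf => hf.neg }
  let Th : A →+* E :=
    { toFun := fun g => T g.1
      map_one' := by
        have := hTc 1
        rw [map_one] at this
        exact this
      map_mul' := fun g g' => hTmul g.1 g'.1 g.2 g'.2
      map_zero' := by
        have := hTc 0
        rw [map_zero] at this
        exact this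
      map_add' := fun g g' => hTadd g.1 g'.1 g.2 g'.2 }
  have hsh : ∀ g : ℝ → ℝ, AnalyticAt ℝ g t0 → AnalyticAt ℝ (fun s => g (t0 + s)) 0 := by
    intro g hg
    have h1 : AnalyticAt ℝ (fun s : ℝ => t0 + s) 0 := analyticAt_const.add analyticAt_id
    have h2 : AnalyticAt ℝ g (t0 + 0) := by rwa [add_zero]
    exact AnalyticAt.comp (g := g) (f := fun s : ℝ => t0 + s) h2 h1
  have hmap : Tendsto (fun s : ℝ => t0 + s) (𝓝 0) (𝓝 t0) := by
    have h1 : Continuous fun s : ℝ => t0 + s := by fun_prop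
    have := h1.tendsto 0
    rwa [add_zero] at this
  have hmap' : Tendsto (fun t : ℝ => t - t0) (𝓝 t0) (𝓝 0) := by
    have h1 : Continuous fun s : ℝ => s - t0 := by fun_prop
    have := h1.tendsto t0
    rwa [sub_self] at this
  set τ : E := T (fun s => t0 + s) with hτ
  set S : E := T (fun s => √(f.eval (t0 + s))) with hS
  have hpolyan : ∀ P : ℝ[X], AnalyticAt ℝ (fun s => P.eval (t0 + s)) 0 := fun P =>
    hsh _ (AnalyticOnNhd.eval_polynomial P t0 (mem_univ _))
  have hid : AnalyticAt ℝ (fun s : ℝ => t0 + s) 0 := analyticAt_const.add analyticAt_id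
  have hpoly : ∀ P : ℝ[X], T (fun s => P.eval (t0 + s)) = aeval τ P := by
    intro P
    induction P using Polynomial.induction_on with
    | C x => simp only [eval_C, aeval_C]; exact hTc x
    | add P Q hP hQ =>
      simp only [eval_add, map_add]
      rw [hTadd _ _ (hpolyan P) (hpolyan Q), hP, hQ]
    | monomial n x ih =>
      have h1 : (fun s => (C x * X ^ (n + 1)).eval (t0 + s)) = fun s => (C x * X ^ n).eval (t0 + s) * (t0 + s) := by
        funext s
        rw [pow_succ, ← mul_assoc, eval_mul, eval_X]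
      rw [h1, hTmul _ _ (hpolyan _) hid, ih, pow_succ, ← mul_assoc, map_mul _ _ X, aeval_X]
  have hSan : AnalyticAt ℝ (fun s => √(f.eval (t0 + s))) 0 := hsh _ (sqrt_an f (h t0 ht0').1)
  set V : ℝ[X] := ∏ l, (X - C (al l)) with hV
  have hyan : ∀ i, AnalyticAt ℝ (fun s => GI f V (Wf i) c (t0 + s)) 0 := fun i =>
    hsh _ (GI_an f V (Wf i) _ _ h c hc t0 ht0')
  have hnear : ∀ᶠ s in 𝓝 (0 : ℝ), t0 + s ∈ Ioo a b := hmap.eventually (Ioo_mem_nhds ht0.1 ht0.2)
  have hdata : Data f D τ S := by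
    refine ⟨?_, ?_, ?_, hf, h1f⟩
    · intro Q hQ
      rw [← hpoly] at hQ
      have h1 := hTinj _ (hpolyan Q) hQ
      have h2 : ∀ᶠ t in 𝓝 t0, Q.eval t = 0 := by
        filter_upwards [hmap'.eventually h1] with t ht
        simpa using ht
      exact Polynomial.eq_zero_of_infinite_isRoot Q (infinite_of_mem_nhds t0 h2)
    · rw [hτ, ← hTder _ hid]
      have h1 : deriv (fun s : ℝ => t0 + s) = fun _ => 1 := by
        funext s
        simp
      rw [h1, hTc, map_one]
    · rw [hS, ← hTmul _ _ hSan hSan, ← hpoly]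
      apply hTcongr
      filter_upwards [hnear] with s hs
      exact Real.mul_self_sqrt (h _ ⟨by linarith [hs.1], by linarith [hs.2]⟩).1.le
  let y : σ → E := fun i => T (fun s => GI f V (Wf i) c (t0 + s))
  have hy : ∀ i, D (y i) * S * aeval τ V = aeval τ (Wf i) := by
    intro i
    show D (T (fun s => GI f V (Wf i) c (t0 + s))) * S * _ = _
    have hm : AnalyticAt ℝ (fun s => deriv (fun s => GI f V (Wf i) c (t0 + s)) s * √(f.eval (t0 + s))) 0 :=
      (hyan i).deriv.mul hSan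
    rw [← hTder _ (hyan i), hS, ← hTmul _ _ (hyan i).deriv hSan, ← hpoly V, ← hTmul _ _ hm (hpolyan V), ← hpoly]
    apply hTcongr
    filter_upwards [hnear] with s hs
    have hs' : t0 + s ∈ Ioo a' b' := ⟨by linarith [hs.1], by linarith [hs.2]⟩
    have h1 : HasDerivAt (fun s => GI f V (Wf i) c (t0 + s)) (gi f V (Wf i) (t0 + s)) s := by
      have h2 := GI_deriv f V (Wf i) _ _ h c hc (t0 + s) hs'
      exact h2.comp_const_add t0 s
    have h3 : √(f.eval (t0 + s)) ≠ 0 := (Real.sqrt_pos.2 (h _ hs').1).ne'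
    have h4 := (h _ hs').2
    rw [h1.deriv, gi]
    field_simp
  have hind := indep3 hdata hconst al hal hfa Wf hdeg hlin y hy
  let F := Fd hdata
  let fs : (σ → Fin (d + 1)) → (σ →₀ ℕ) := fun e => Finsupp.equivFunOnFinite.symm fun i => (e i : ℕ)
  have hfs : Function.Injective fs := by
    intro e e' hee
    funext i
    have := DFunLike.congr_fun hee i
    exact Fin.ext (by simpa [fs] using this)
  have hrel : ∑ e : σ → Fin (d + 1), aeval τ (p e) * ∏ i, y i ^ (e i : ℕ) = 0 := by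
    let P : (σ → Fin (d + 1)) → A := fun e => ⟨fun s => (p e).eval (t0 + s), hpolyan _⟩
    let Y : σ → A := fun i => ⟨fun s => GI f V (Wf i) c (t0 + s), hyan i⟩
    have h1 : Th (∑ e, P e * ∏ i, Y i ^ (e i : ℕ)) = ∑ e, aeval τ (p e) * ∏ i, y i ^ (e i : ℕ) := by
      rw [map_sum]
      refine Finset.sum_congr rfl fun e _ => ?_
      rw [map_mul, map_prod]
      simp only [map_pow]
      rw [← hpoly]
      rfl
    rw [← h1]
    have h2 : ((∑ e, P e * ∏ i, Y i ^ (e i : ℕ) : A) : ℝ → ℝ) =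
        fun s => ∑ e, (p e).eval (t0 + s) * ∏ i : σ, GI f V (Wf i) c (t0 + s) ^ (e i : ℕ) := by
      rw [AddSubmonoidClass.coe_finsetSum]
      funext s
      rw [Finset.sum_apply]
      refine Finset.sum_congr rfl fun e _ => ?_
      rw [Subring.coe_mul, SubmonoidClass.coe_finsetProd, Pi.mul_apply, Finset.prod_apply]
      rfl
    show T ((∑ e, P e * ∏ i, Y i ^ (e i : ℕ) : A) : ℝ → ℝ) = 0
    rw [h2]
    have h3 := hTc 0
    rw [map_zero] at h3
    rw [← h3]
    apply hTcongr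
    filter_upwards [hnear] with s hs
    exact hp _ ⟨hs.1.le, hs.2.le⟩
  have h1 : MvPolynomial.aeval y (∑ e, MvPolynomial.monomial (fs e) (⟨aeval τ (p e), poly_mem hdata _⟩ : F)) = 0 := by
    rw [map_sum, ← hrel]
    refine Finset.sum_congr rfl fun e _ => ?_
    rw [MvPolynomial.aeval_monomial, Finsupp.prod_fintype _ _ (fun _ => pow_zero _)]
    rfl
  have h2 : (∑ e, MvPolynomial.monomial (fs e) (⟨aeval τ (p e), poly_mem hdata _⟩ : F)) = 0 :=
    hind.eq_zero_of_aeval_eq_zero _ h1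
  funext e
  have h3 := congrArg (MvPolynomial.coeff (fs e)) h2
  rw [MvPolynomial.coeff_sum, Finset.sum_eq_single e] at h3
  · rw [MvPolynomial.coeff_monomial, if_pos rfl, MvPolynomial.coeff_zero] at h3
    exact hdata.tr _ (congrArg Subtype.val h3)
  · intro e' _ he'
    rw [MvPolynomial.coeff_monomial, if_neg]
    intro h4
    exact he' (hfs h4)
  · simp

/-- complex branches on a real interval -/
theorem fibre3 (f : ℝ[X]) (hf : Squarefree f) {ι σ : Type} [Fintype ι] [DecidableEq ι] [Fintype σ] [DecidableEq σ]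
    (al : ι → ℝ) (hal : Function.Injective al) (hfa : ∀ l, f.eval (al l) ≠ 0) (Wf : σ → ℝ[X]) (h1f : 1 ≤ f.natDegree)
    (hdeg : ∀ i, (Wf i).natDegree + 2 ≤ f.natDegree + Fintype.card ι)
    (hlin : ∀ c : σ → ℝ, ∑ i, C (c i) * Wf i = 0 → c = 0) (a b : ℝ) (hab : a < b)
    (hpos : ∀ t ∈ Icc a b, 0 < f.eval t) (hne : ∀ t ∈ Icc a b, ∀ l, t ≠ al l) (y : ℂ → ℂ) (v : σ → ℂ → ℂ)
    (hy : ContinuousOn (fun t : ℝ => y t) (Icc a b)) (hy2 : ∀ t ∈ Icc a b, y t ^ 2 = ((f.eval t : ℝ) : ℂ))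
    (hv : ∀ j : σ, ∀ t ∈ Icc a b, HasDerivAt (v j)
      ((((Wf j).eval t : ℝ) : ℂ) / ((((∏ l, (X - C (al l)) : ℝ[X]).eval t : ℝ) : ℂ) * y t)) t) :
    AI (Icc a b) (fun (o : Option σ) (t : ℝ) => o.elim (t : ℂ) fun j => v j t) := by
  classical
  set V : ℝ[X] := ∏ l, (X - C (al l)) with hV
  have hVne : ∀ t : ℝ, (∀ l, t ≠ al l) → V.eval t ≠ 0 := by
    intro t ht
    rw [hV, eval_prod, Finset.prod_ne_zero_iff]
    intro l _
    rw [eval_sub, eval_X, eval_C, sub_ne_zero]
    exact ht l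
  obtain ⟨ε, hε, hpos'⟩ := enlarge (f * V ^ 2) a b hab.le (fun t ht => by
    rw [eval_mul, eval_pow]
    have h1 := hVne t (hne t ht)
    have h2 := hpos t ht
    positivity)
  have hpos'' : ∀ t ∈ Ioo (a - ε) (b + ε), 0 < f.eval t ∧ V.eval t ≠ 0 := fun t ht => by
    have h1 := hpos' t ⟨ht.1.le, ht.2.le⟩
    rw [eval_mul, eval_pow] at h1
    have h2 : V.eval t ≠ 0 := by
      intro h0
      rw [h0] at h1
      simp at h1
    exact ⟨(pos_iff_pos_of_mul_pos h1).2 (by positivity), h2⟩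
  have hac : a ∈ Ioo (a - ε) (b + ε) := ⟨by linarith, by linarith⟩
  have hsub : Icc a b ⊆ Ioo (a - ε) (b + ε) := fun t ht => ⟨by linarith [ht.1], by linarith [ht.2]⟩
  -- the sign
  have hsgn : ∃ s : ℂ, (s = 1 ∨ s = -1) ∧ ∀ t ∈ Icc a b, y t = s * (√(f.eval t) : ℝ) := by
    have h1 : ContinuousOn (fun t : ℝ => ((√(f.eval t) : ℝ) : ℂ)) (Icc a b) :=
      (Complex.continuous_ofReal.comp (Real.continuous_sqrt.comp f.continuous)).continuousOn
    have h2 := isPreconnected_Icc.eq_or_eq_neg_of_sq_eq hy h1 (fun t ht => by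
      have h3 : ((√(f.eval t) : ℝ) : ℂ) ^ 2 = ((f.eval t : ℝ) : ℂ) := by
        rw [← Complex.ofReal_pow, Real.sq_sqrt (hpos t ht).le]
      simp only [Pi.pow_apply]
      rw [hy2 t ht, h3]) (fun {t} ht => by
      have : √(f.eval t) ≠ 0 := (Real.sqrt_pos.2 (hpos t ht)).ne'
      exact_mod_cast this)
    rcases h2 with h2 | h2
    · exact ⟨1, Or.inl rfl, fun t ht => by rw [one_mul]; exact h2 ht⟩
    · exact ⟨-1, Or.inr rfl, fun t ht => by rw [neg_one_mul]; exact h2 ht⟩
  obtain ⟨s, hs, hys⟩ := hsgn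
  have hs0 : s ≠ 0 := by rcases hs with rfl | rfl <;> simp
  have hss : s * s = 1 := by rcases hs with rfl | rfl <;> simp
  -- the functions differ by constants
  have hconst : ∀ j : σ, ∀ t ∈ Icc a b, v j t = s * (GI f V (Wf j) a t : ℂ) + v j a := by
    intro j t ht
    have h1 : ∀ x ∈ Icc a b, HasDerivWithinAt (fun x : ℝ => v j x - s * (GI f V (Wf j) a x : ℂ)) 0 (Icc a b) x := by
      intro x hx
      have h2 : HasDerivAt (fun x : ℝ => v j x) ((((Wf j).eval x : ℝ) : ℂ) / (((V.eval x : ℝ) : ℂ) * y x)) x :=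
        (hv j x hx).comp_ofReal
      have h3 : HasDerivAt (fun x : ℝ => s * (GI f V (Wf j) a x : ℂ)) (s * ((gi f V (Wf j) x : ℝ) : ℂ)) x :=
        ((GI_deriv f V (Wf j) _ _ hpos'' a hac x (hsub hx)).ofReal_comp).const_mul s
      have h4 := h2.sub h3
      have h5 : (((Wf j).eval x : ℝ) : ℂ) / (((V.eval x : ℝ) : ℂ) * y x) - s * ((gi f V (Wf j) x : ℝ) : ℂ) = 0 := by
        rw [hys x hx, gi]
        have h6 : ((√(f.eval x) : ℝ) : ℂ) ≠ 0 := by exact_mod_cast (Real.sqrt_pos.2 (hpos x hx)).ne'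
        have h7 : ((V.eval x : ℝ) : ℂ) ≠ 0 := by exact_mod_cast (hpos'' x (hsub hx)).2
        push_cast
        field_simp
        linear_combination (-(((Wf j).eval x : ℝ) : ℂ)) * hss
      rw [h5] at h4
      exact h4.hasDerivWithinAt
    have h2 := (convex_Icc a b).norm_image_sub_le_of_norm_hasDerivWithin_le (C := 0) h1 (fun x _ => by simp)
      (left_mem_Icc.2 hab.le) ht
    rw [zero_mul, norm_le_zero_iff] at h2
    have h3 : GI f V (Wf j) a a = 0 := by
      simp [GI]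
    rw [h3] at h2
    push_cast at h2
    linear_combination h2
  have hAI := AI_of_rind (fun (j : σ) (t : ℝ) => GI f V (Wf j) a t) a b (fun d =>
    GI_ind f hf al hal hfa Wf h1f hdeg hlin d a b _ _ (by linarith) hab (by linarith) hpos'' a hac)
  have h2 := hAI.affine (fun o => o.elim 1 fun _ => s) (fun o => o.elim 0 fun j => v j a) (fun o => by
    rcases o with _ | j
    · exact one_ne_zero
    · exact hs0)
  refine h2.congr fun o t ht => ?_
  rcases o with _ | j
  · simp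
  · simp only [Option.elim]
    exact hconst j t ht

end Pool.Agent.Q23.MV.H3
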