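import Pool.Agent.Q23.MV.Third2

/-!
# Integrals of the first, second and third kind on varying hyperelliptic curves, with varying poles, between varying points
-/

set_option autoImplicit false

open Polynomial Set Filter Topology

namespace Pool.Agent.Q23.MV.H3

/-- the numerators -/
noncomputable def Wn {N m : ℕ} (a : Fin m → ℝ) : Fin N ⊕ Fin m → ℝ[X]
  | Sum.inl j => X ^ (j : ℕ) * ∏ l, (X - C (a l))
  | Sum.inr k => ∏ l ∈ Finset.univ.erase k, (X - C (a l))

theorem Wn_deg {N m : ℕ} (a : Fin m → ℝ) (f : ℝ[X]) (hf : N + 1 ≤ f.natDegree) (i : Fin N ⊕ Fin m) :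
    (Wn a i).natDegree + 2 ≤ f.natDegree + Fintype.card (Fin m) := by
  rw [Fintype.card_fin]
  rcases i with j | k
  · have h1 : (∏ l, (X - C (a l)) : ℝ[X]).natDegree = m := by
      rw [Polynomial.natDegree_finsetProd_X_sub_C_eq_card]
      simp
    have h2 : (Wn (N := N) a (Sum.inl j)).natDegree ≤ (j : ℕ) + m := by
      refine (natDegree_mul_le).trans ?_
      rw [natDegree_X_pow, h1]
    have := j.2
    omega
  · have h1 : (∏ l ∈ Finset.univ.erase k, (X - C (a l)) : ℝ[X]).natDegree = m - 1 := by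
      rw [Polynomial.natDegree_finsetProd_X_sub_C_eq_card, Finset.card_erase_of_mem (Finset.mem_univ k)]
      simp
    have h2 : (Wn (N := N) a (Sum.inr k)).natDegree = m - 1 := h1
    rw [h2]
    have := k.2
    omega

theorem Wn_lin {N m : ℕ} (a : Fin m → ℝ) (ha : Function.Injective a) (c : Fin N ⊕ Fin m → ℝ)
    (h : ∑ i, C (c i) * Wn a i = 0) : c = 0 := by
  classical
  rw [Fintype.sum_sum_type] at h
  have hk : ∀ k, c (Sum.inr k) = 0 := by
    intro k
    have h1 := congrArg (Polynomial.eval (a k)) h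
    rw [eval_add, eval_zero, eval_finsetSum, eval_finsetSum] at h1
    have h2 : ∑ i : Fin N, (C (c (Sum.inl i)) * Wn a (Sum.inl i)).eval (a k) = 0 := by
      refine Finset.sum_eq_zero fun i _ => ?_
      simp only [Wn, eval_mul, eval_prod]
      rw [Finset.prod_eq_zero (Finset.mem_univ k) (by simp)]
      ring
    rw [h2, zero_add, Finset.sum_eq_single k] at h1
    · simp only [Wn, eval_mul, eval_C, eval_prod] at h1
      refine (mul_eq_zero.1 h1).resolve_right (Finset.prod_ne_zero_iff.2 fun l hl => ?_)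
      rw [eval_sub, eval_X, eval_C, sub_ne_zero]
      intro h3
      exact (Finset.mem_erase.1 hl).1 (ha h3).symm
    · intro k' _ hk'
      simp only [Wn, eval_mul, eval_prod]
      rw [Finset.prod_eq_zero (Finset.mem_erase.2 ⟨Ne.symm hk', Finset.mem_univ k⟩) (by simp)]
      ring
    · intro h3
      exact absurd (Finset.mem_univ _) h3
  have hj : ∀ j, c (Sum.inl j) = 0 := by
    have h1 : ∑ i : Fin m, C (c (Sum.inr i)) * Wn (N := N) a (Sum.inr i) = 0 :=
      Finset.sum_eq_zero fun i _ => by rw [hk, C_0, zero_mul]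
    rw [h1, add_zero] at h
    have h2 : (∑ i : Fin N, C (c (Sum.inl i)) * X ^ (i : ℕ)) * ∏ l, (X - C (a l)) = 0 := by
      rw [← h, Finset.sum_mul]
      refine Finset.sum_congr rfl fun i _ => ?_
      simp only [Wn]
      ring
    have hV0 : ∏ l, (X - C (a l)) ≠ 0 := Finset.prod_ne_zero_iff.2 fun l _ => X_sub_C_ne_zero _
    have h3 := (mul_eq_zero.1 h2).resolve_right hV0
    intro j
    have h4 := congrArg (fun p : ℝ[X] => p.coeff (j : ℕ)) h3
    simp only [finsetSum_coeff, coeff_zero] at h4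
    rw [Finset.sum_eq_single j] at h4
    · simpa using h4
    · intro j' _ hj'
      rw [coeff_C_mul, coeff_X_pow, if_neg, mul_zero]
      intro h6
      exact hj' (Fin.ext h6.symm)
    · simp
  funext i
  rcases i with j | k
  · exact hj j
  · exact hk k

/-- real points of the space of parameters `λ`, poles `a` and points `x` -/
noncomputable def rp3 {p m n : ℕ} (μ : Fin p → ℝ) (a : Fin m → ℝ) (x : Fin n → ℝ) : Fin p ⊕ (Fin m ⊕ Fin n) → ℂ :=
  Sum.elim (fun l => (μ l : ℂ)) (Sum.elim (fun k => (a k : ℂ)) (fun i => (x i : ℂ)))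

/-- reindexing -/
def e3 {p m n N : ℕ} {κ : Type} : ((((Fin m ⊕ Fin n) × Fin N) ⊕ (Fin n × Fin m)) ⊕ κ) ⊕ (Fin p ⊕ (Fin m ⊕ Fin n)) →
    ((Fin n × Option (Fin N ⊕ Fin m)) ⊕ (Fin m × Option (Fin N))) ⊕ (κ ⊕ Fin p)
  | Sum.inl (Sum.inl (Sum.inl (Sum.inl k, j))) => Sum.inl (Sum.inr (k, some j))
  | Sum.inl (Sum.inl (Sum.inl (Sum.inr i, j))) => Sum.inl (Sum.inl (i, some (Sum.inl j)))
  | Sum.inl (Sum.inl (Sum.inr (i, k))) => Sum.inl (Sum.inl (i, some (Sum.inr k)))
  | Sum.inl (Sum.inr c) => Sum.inr (Sum.inl c)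
  | Sum.inr (Sum.inl l) => Sum.inr (Sum.inr l)
  | Sum.inr (Sum.inr (Sum.inl k)) => Sum.inl (Sum.inr (k, none))
  | Sum.inr (Sum.inr (Sum.inr i)) => Sum.inl (Sum.inl (i, none))

/-- its inverse -/
def d3 {p m n N : ℕ} {κ : Type} : ((Fin n × Option (Fin N ⊕ Fin m)) ⊕ (Fin m × Option (Fin N))) ⊕ (κ ⊕ Fin p) →
    ((((Fin m ⊕ Fin n) × Fin N) ⊕ (Fin n × Fin m)) ⊕ κ) ⊕ (Fin p ⊕ (Fin m ⊕ Fin n))
  | Sum.inl (Sum.inr (k, some j)) => Sum.inl (Sum.inl (Sum.inl (Sum.inl k, j)))
  | Sum.inl (Sum.inl (i, some (Sum.inl j))) => Sum.inl (Sum.inl (Sum.inl (Sum.inr i, j)))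
  | Sum.inl (Sum.inl (i, some (Sum.inr k))) => Sum.inl (Sum.inl (Sum.inr (i, k)))
  | Sum.inr (Sum.inl c) => Sum.inl (Sum.inr c)
  | Sum.inr (Sum.inr l) => Sum.inr (Sum.inl l)
  | Sum.inl (Sum.inr (k, none)) => Sum.inr (Sum.inr (Sum.inl k))
  | Sum.inl (Sum.inl (i, none)) => Sum.inr (Sum.inr (Sum.inr i))

theorem e3_inj {p m n N : ℕ} {κ : Type} : Function.Injective (e3 (p := p) (m := m) (n := n) (N := N) (κ := κ)) := by
  refine Function.LeftInverse.injective (g := d3) ?_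
  rintro (((⟨(k | i), j⟩ | ⟨i, k⟩) | c) | (l | (k | i))) <;> rfl

/-- all curves, all poles and all points -/
theorem hyp3_ind {p m n N : ℕ} {κ : Type} (F : (Fin p → ℝ) → ℝ[X]) (lam0 : Fin p → ℝ) (a0 : Fin m → ℝ) (x0 : Fin n → ℝ)
    (hF : ∀ᶠ μ in 𝓝 lam0, Squarefree (F μ) ∧ N + 1 ≤ (F μ).natDegree)
    (hFa : ∀ k, ∀ᶠ q : (Fin p → ℝ) × ℝ in 𝓝 (lam0, a0 k), 0 < (F q.1).eval q.2)
    (hFx : ∀ i, ∀ᶠ q : (Fin p → ℝ) × ℝ in 𝓝 (lam0, x0 i), 0 < (F q.1).eval q.2)
    (U : Set (Fin p ⊕ (Fin m ⊕ Fin n) → ℂ)) (hUo : IsOpen U) (h0 : rp3 lam0 a0 x0 ∈ U)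
    (hUa : ∀ z ∈ U, (∀ k k', z (Sum.inr (Sum.inl k)) = z (Sum.inr (Sum.inl k')) → k = k') ∧
      ∀ i k, z (Sum.inr (Sum.inr i)) ≠ z (Sum.inr (Sum.inl k)))
    (y : Fin m ⊕ Fin n → (Fin p → ℂ) → ℂ → ℂ) (v : Fin m ⊕ Fin n → Fin N → (Fin p → ℂ) → ℂ → ℂ)
    (h : Fin n → Fin m → (Fin p → ℂ) → ℂ → ℂ → ℂ)
    (hyc : ∀ P, ContinuousOn (fun z : Fin p ⊕ (Fin m ⊕ Fin n) → ℂ => y P (fun l => z (Sum.inl l)) (z (Sum.inr P))) U)
    (hy2 : ∀ (μ : Fin p → ℝ) (a : Fin m → ℝ) (x : Fin n → ℝ), rp3 μ a x ∈ U →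
      (∀ k, y (Sum.inl k) (fun l => (μ l : ℂ)) (a k) ^ 2 = (((F μ).eval (a k) : ℝ) : ℂ)) ∧
      ∀ i, y (Sum.inr i) (fun l => (μ l : ℂ)) (x i) ^ 2 = (((F μ).eval (x i) : ℝ) : ℂ))
    (hv : ∀ P j, ∀ z ∈ U, HasDerivAt (v P j fun l => z (Sum.inl l))
      (z (Sum.inr P) ^ (j : ℕ) / y P (fun l => z (Sum.inl l)) (z (Sum.inr P))) (z (Sum.inr P)))
    (hh : ∀ i k, ∀ z ∈ U, HasDerivAt (h i k (fun l => z (Sum.inl l)) (z (Sum.inr (Sum.inl k))))
      (1 / ((z (Sum.inr (Sum.inr i)) - z (Sum.inr (Sum.inl k))) *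
        y (Sum.inr i) (fun l => z (Sum.inl l)) (z (Sum.inr (Sum.inr i))))) (z (Sum.inr (Sum.inr i))))
    (w : κ → (Fin p → ℂ) → ℂ)
    (hw : ∀ P : MvPolynomial (κ ⊕ Fin p) ℂ, (∀ᶠ μ : Fin p → ℝ in 𝓝 lam0, MvPolynomial.eval
      (Sum.elim (fun k => w k fun l => (μ l : ℂ)) (fun l => (μ l : ℂ))) P = 0) → P = 0) :
    AI U (Sum.elim (Sum.elim (Sum.elim
      (fun (b : (Fin m ⊕ Fin n) × Fin N) (z : Fin p ⊕ (Fin m ⊕ Fin n) → ℂ) => v b.1 b.2 (fun l => z (Sum.inl l)) (z (Sum.inr b.1)))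
      (fun (b : Fin n × Fin m) z => h b.1 b.2 (fun l => z (Sum.inl l)) (z (Sum.inr (Sum.inl b.2))) (z (Sum.inr (Sum.inr b.1)))))
      (fun k z => w k fun l => z (Sum.inl l))) (fun j z => z j)) := by
  classical
  -- a box
  obtain ⟨δ, hδ, hball⟩ : ∃ δ > 0, ∀ (μ : Fin p → ℝ) (a : Fin m → ℝ) (x : Fin n → ℝ), (∀ l, |μ l - lam0 l| < δ) →
      (∀ k, |a k - a0 k| < δ) → (∀ i, |x i - x0 i| < δ) → rp3 μ a x ∈ U := by
    obtain ⟨δ, hδ, h1⟩ := Metric.isOpen_iff.1 hUo _ h0
    refine ⟨δ, hδ, fun μ a x hμ ha hx => h1 ?_⟩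
    rw [Metric.mem_ball, dist_pi_lt_iff hδ]
    rintro (l | (k | i))
    · simp only [rp3, Sum.elim_inl, Complex.dist_eq]
      rw [← Complex.ofReal_sub, Complex.norm_real, Real.norm_eq_abs]
      exact hμ l
    · simp only [rp3, Sum.elim_inr, Sum.elim_inl, Complex.dist_eq]
      rw [← Complex.ofReal_sub, Complex.norm_real, Real.norm_eq_abs]
      exact ha k
    · simp only [rp3, Sum.elim_inr, Complex.dist_eq]
      rw [← Complex.ofReal_sub, Complex.norm_real, Real.norm_eq_abs]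
      exact hx i
  obtain ⟨δ₁, hδ₁, hF1⟩ := Metric.eventually_nhds_iff_ball.1 hF
  have hex : ∀ c0 : ℝ, (∀ᶠ q : (Fin p → ℝ) × ℝ in 𝓝 (lam0, c0), 0 < (F q.1).eval q.2) →
      ∃ δ > 0, ∀ (μ : Fin p → ℝ) (t : ℝ), dist μ lam0 < δ → |t - c0| < δ → 0 < (F μ).eval t := by
    intro c0 hc0
    obtain ⟨δ, hδ, h1⟩ := Metric.eventually_nhds_iff_ball.1 hc0
    refine ⟨δ, hδ, fun μ t hμ ht => h1 (μ, t) ?_⟩
    rw [Metric.mem_ball, Prod.dist_eq, max_lt_iff]
    exact ⟨hμ, by rw [Real.dist_eq]; exact ht⟩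
  have hmin : ∀ {q : ℕ} (d : Fin q → ℝ), (∀ i, 0 < d i) → ∃ η > 0, ∀ i, η ≤ d i := by
    intro q d hd
    by_cases hn : Nonempty (Fin q)
    · obtain ⟨i0, -, hi0⟩ := Finset.exists_min_image Finset.univ d Finset.univ_nonempty
      exact ⟨d i0, hd i0, fun i => hi0 i (Finset.mem_univ i)⟩
    · exact ⟨1, one_pos, fun i => (hn ⟨i⟩).elim⟩
  choose δ₂ hδ₂ hF2 using fun i => hex (x0 i) (hFx i)
  choose δ₃ hδ₃ hF3 using fun k => hex (a0 k) (hFa k)
  obtain ⟨η₂, hη₂, hη₂'⟩ := hmin δ₂ hδ₂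
  obtain ⟨η₃, hη₃, hη₃'⟩ := hmin δ₃ hδ₃
  obtain ⟨η, hη, hη0, hη1, hη2, hη3⟩ : ∃ η > 0, η ≤ δ ∧ η ≤ δ₁ ∧ (∀ i, η ≤ δ₂ i) ∧ ∀ k, η ≤ δ₃ k :=
    ⟨min (min η₂ η₃) (min δ δ₁), lt_min (lt_min hη₂ hη₃) (lt_min hδ hδ₁), (min_le_right _ _).trans (min_le_left _ _),
      (min_le_right _ _).trans (min_le_right _ _), fun i => ((min_le_left _ _).trans (min_le_left _ _)).trans (hη₂' i),
      fun k => ((min_le_left _ _).trans (min_le_right _ _)).trans (hη₃' k)⟩
  have hμball : ∀ μ ∈ Metric.ball lam0 η, ∀ l, |μ l - lam0 l| < η := by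
    intro μ hμ l
    rw [← Real.dist_eq]
    exact (dist_pi_lt_iff hη).1 (Metric.mem_ball.1 hμ) l
  have habs : ∀ (c0 t : ℝ), t ∈ Icc (c0 - η / 2) (c0 + η / 2) → |t - c0| < η := by
    intro c0 t ht
    rw [abs_lt]
    constructor
    · linarith [ht.1]
    · linarith [ht.2]
  have hself : ∀ c0 : ℝ, |c0 - c0| < η := by
    intro c0
    rw [sub_self, abs_zero]
    exact hη
  -- the fibres
  have inner : ∀ μ ∈ Metric.ball lam0 η,
      AI {q : (Fin m → ℝ) × (Fin n → ℝ) | (∀ k, q.1 k ∈ Icc (a0 k - η / 2) (a0 k + η / 2)) ∧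
        ∀ i, q.2 i ∈ Icc (x0 i - η / 2) (x0 i + η / 2)}
      (Sum.elim (fun (b : Fin n × Option (Fin N ⊕ Fin m)) q => b.2.elim (q.2 b.1 : ℂ)
          (Sum.elim (fun j => v (Sum.inr b.1) j (fun l => (μ l : ℂ)) (q.2 b.1))
            (fun k => h b.1 k (fun l => (μ l : ℂ)) (q.1 k) (q.2 b.1))))
        (fun (b : Fin m × Option (Fin N)) q => b.2.elim (q.1 b.1 : ℂ)
          fun j => v (Sum.inl b.1) j (fun l => (μ l : ℂ)) (q.1 b.1))) := by
    intro μ hμ Q hQ
    have hμ' : dist μ lam0 < η := Metric.mem_ball.1 hμ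
    obtain ⟨hsf, hdeg⟩ := hF1 μ (Metric.mem_ball.2 (hμ'.trans_le hη1))
    refine fub (σ₁ := Fin n × Option (Fin N ⊕ Fin m)) (σ₂ := Fin m × Option (Fin N)) (Ω₁ := Fin n → ℝ) (Ω₂ := Fin m → ℝ)
      {a | ∀ k, a k ∈ Icc (a0 k - η / 2) (a0 k + η / 2)}
      (fun _ => {x | ∀ i, x i ∈ Icc (x0 i - η / 2) (x0 i + η / 2)})
      (fun b a x => b.2.elim (x b.1 : ℂ)
          (Sum.elim (fun j => v (Sum.inr b.1) j (fun l => (μ l : ℂ)) (x b.1))
            (fun k => h b.1 k (fun l => (μ l : ℂ)) (a k) (x b.1))))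
      (fun b a => b.2.elim (a b.1 : ℂ) fun j => v (Sum.inl b.1) j (fun l => (μ l : ℂ)) (a b.1)) ?_ ?_ Q
      (fun a ha x hx => by
        rw [← hQ (a, x) ⟨ha, hx⟩]
        congr 2
        funext b
        rcases b with b | b <;> rfl)
    · refine AI.prod m (fun k => Icc (a0 k - η / 2) (a0 k + η / 2))
        (fun k (o : Option (Fin N)) (t : ℝ) => o.elim (t : ℂ) fun j => v (Sum.inl k) j (fun l => (μ l : ℂ)) t) fun k => ?_
      have hpt : ∀ t ∈ Icc (a0 k - η / 2) (a0 k + η / 2), rp3 μ (Function.update a0 k t) x0 ∈ U := by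
        intro t ht
        refine hball μ _ _ (fun l => (hμball μ hμ l).trans_le hη0) (fun k' => ?_) fun i => (hself _).trans_le hη0
        by_cases h2 : k' = k
        · subst h2
          rw [Function.update_self]
          exact (habs _ t ht).trans_le hη0
        · rw [Function.update_of_ne h2]
          exact (hself _).trans_le hη0
      have hup : ∀ t : ℝ, (rp3 μ (Function.update a0 k t) x0) (Sum.inr (Sum.inl k)) = (t : ℂ) := by
        intro t
        simp [rp3]
      refine fibre (F μ) hsf N hdeg _ _ (by linarith)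
        (fun t ht => hF3 k μ t (hμ'.trans_le (hη3 k)) ((habs _ t ht).trans_le (hη3 k)))
        (y (Sum.inl k) fun l => (μ l : ℂ)) (fun j => v (Sum.inl k) j fun l => (μ l : ℂ)) ?_ ?_ ?_
      · have h2 : ContinuousOn (fun t : ℝ => rp3 μ (Function.update a0 k t) x0) (Icc (a0 k - η / 2) (a0 k + η / 2)) := by
          refine Continuous.continuousOn (continuous_pi fun a => ?_)
          rcases a with l | (k' | i)
          · exact continuous_const
          · by_cases h3 : k' = k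
            · subst h3
              simp only [rp3, Sum.elim_inr, Sum.elim_inl, Function.update_self]
              exact Complex.continuous_ofReal
            · simp only [rp3, Sum.elim_inr, Sum.elim_inl, Function.update_of_ne h3]
              exact continuous_const
          · exact continuous_const
        have h3 := (hyc (Sum.inl k)).comp h2 hpt
        refine h3.congr fun t ht => ?_
        simp only [Function.comp_apply, hup]
        rfl
      · intro t ht
        have h2 := (hy2 μ _ _ (hpt t ht)).1 k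
        rw [Function.update_self] at h2
        exact h2
      · intro j t ht
        have h2 := hv (Sum.inl k) j _ (hpt t ht)
        rw [hup] at h2
        exact h2
    · intro a ha
      have hain : Function.Injective a := by
        intro k k' hk
        have h1 := hUa _ (hball μ a x0 (fun l => (hμball μ hμ l).trans_le hη0) (fun k => (habs _ _ (ha k)).trans_le hη0)
          fun i => (hself _).trans_le hη0)
        refine h1.1 k k' ?_
        simp only [rp3, Sum.elim_inr, Sum.elim_inl, hk]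
      refine AI.prod n (fun i => Icc (x0 i - η / 2) (x0 i + η / 2))
        (fun i (o : Option (Fin N ⊕ Fin m)) (t : ℝ) => o.elim (t : ℂ)
          (Sum.elim (fun j => v (Sum.inr i) j (fun l => (μ l : ℂ)) t)
            (fun k => h i k (fun l => (μ l : ℂ)) (a k) t))) fun i => ?_
      have hpt : ∀ t ∈ Icc (x0 i - η / 2) (x0 i + η / 2), rp3 μ a (Function.update x0 i t) ∈ U := by
        intro t ht
        refine hball μ _ _ (fun l => (hμball μ hμ l).trans_le hη0) (fun k => (habs _ _ (ha k)).trans_le hη0) fun i' => ?_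
        by_cases h2 : i' = i
        · subst h2
          rw [Function.update_self]
          exact (habs _ t ht).trans_le hη0
        · rw [Function.update_of_ne h2]
          exact (hself _).trans_le hη0
      have hup : ∀ t : ℝ, (rp3 μ a (Function.update x0 i t)) (Sum.inr (Sum.inr i)) = (t : ℂ) := by
        intro t
        simp [rp3]
      have hne : ∀ t ∈ Icc (x0 i - η / 2) (x0 i + η / 2), ∀ k, t ≠ a k := by
        intro t ht k hk
        refine (hUa _ (hpt t ht)).2 i k ?_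
        rw [hup, hk]
        rfl
      have hAI := fibre3 (F μ) hsf a hain (fun k => (hF3 k μ (a k) (hμ'.trans_le (hη3 k)) ((habs _ _ (ha k)).trans_le (hη3 k))).ne')
        (Wn (N := N) a) (by omega) (Wn_deg a (F μ) hdeg) (Wn_lin a hain) _ _ (by linarith)
        (fun t ht => hF2 i μ t (hμ'.trans_le (hη2 i)) ((habs _ t ht).trans_le (hη2 i))) hne
        (y (Sum.inr i) fun l => (μ l : ℂ)) (Sum.elim (fun j => v (Sum.inr i) j fun l => (μ l : ℂ))
          (fun k => h i k (fun l => (μ l : ℂ)) (a k))) ?_ ?_ ?_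
      · refine hAI.congr fun o t _ => ?_
        rcases o with _ | (j | k) <;> rfl
      · have h2 : ContinuousOn (fun t : ℝ => rp3 μ a (Function.update x0 i t)) (Icc (x0 i - η / 2) (x0 i + η / 2)) := by
          refine Continuous.continuousOn (continuous_pi fun b => ?_)
          rcases b with l | (k | i')
          · exact continuous_const
          · exact continuous_const
          · by_cases h3 : i' = i
            · subst h3
              simp only [rp3, Sum.elim_inr, Function.update_self]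
              exact Complex.continuous_ofReal
            · simp only [rp3, Sum.elim_inr, Function.update_of_ne h3]
              exact continuous_const
        have h3 := (hyc (Sum.inr i)).comp h2 hpt
        refine h3.congr fun t ht => ?_
        simp only [Function.comp_apply, hup]
        rfl
      · intro t ht
        have h2 := (hy2 μ _ _ (hpt t ht)).2 i
        rw [Function.update_self] at h2
        exact h2
      · intro j t ht
        have hV0 : ((∏ l, (X - C (a l)) : ℝ[X]).eval t : ℝ) ≠ 0 := by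
          rw [eval_prod, Finset.prod_ne_zero_iff]
          intro l _
          rw [eval_sub, eval_X, eval_C, sub_ne_zero]
          exact hne t ht l
        have hV0' : (((∏ l, (X - C (a l)) : ℝ[X]).eval t : ℝ) : ℂ) ≠ 0 := by exact_mod_cast hV0
        rcases j with j | k
        · have h2 := hv (Sum.inr i) j _ (hpt t ht)
          rw [hup] at h2
          have h3 : ((((Wn (N := N) a (Sum.inl j)).eval t : ℝ) : ℂ) / ((((∏ l, (X - C (a l)) : ℝ[X]).eval t : ℝ) : ℂ) *
              y (Sum.inr i) (fun l => (μ l : ℂ)) t)) = (t : ℂ) ^ (j : ℕ) / y (Sum.inr i) (fun l => (μ l : ℂ)) t := by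
            simp only [Wn]
            rw [eval_mul, eval_pow, eval_X, Complex.ofReal_mul, Complex.ofReal_pow, mul_comm (((_ : ℝ) : ℂ)) (y _ _ _),
              mul_div_mul_right _ _ hV0']
          rw [h3]
          exact h2
        · have h2 := hh i k _ (hpt t ht)
          rw [hup] at h2
          have h4 : (((Wn (N := N) a (Sum.inr k)).eval t : ℝ) : ℂ) * ((t : ℂ) - (a k : ℂ)) =
              (((∏ l, (X - C (a l)) : ℝ[X]).eval t : ℝ) : ℂ) := by
            rw [← Finset.mul_prod_erase Finset.univ (fun l => (X - C (a l) : ℝ[X])) (Finset.mem_univ k)]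
            simp only [Wn]
            rw [eval_mul, eval_sub, eval_X, eval_C]
            push_cast
            ring
          have h5 : ((t : ℂ) - (a k : ℂ)) ≠ 0 := by
            rw [← Complex.ofReal_sub]
            exact_mod_cast sub_ne_zero.2 (hne t ht k)
          have h3 : ((((Wn (N := N) a (Sum.inr k)).eval t : ℝ) : ℂ) / ((((∏ l, (X - C (a l)) : ℝ[X]).eval t : ℝ) : ℂ) *
              y (Sum.inr i) (fun l => (μ l : ℂ)) t)) = 1 / (((t : ℂ) - (a k : ℂ)) * y (Sum.inr i) (fun l => (μ l : ℂ)) t) := by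
            rw [← h4] at hV0' ⊢
            have h6 := left_ne_zero_of_mul hV0'
            rw [mul_assoc, ← div_div, div_self h6]
          rw [h3]
          exact h2
  intro P hP
  have h1 := fub (σ₁ := (Fin n × Option (Fin N ⊕ Fin m)) ⊕ (Fin m × Option (Fin N))) (σ₂ := κ ⊕ Fin p)
    (Ω₁ := (Fin m → ℝ) × (Fin n → ℝ)) (Ω₂ := Fin p → ℝ)
    (Metric.ball lam0 η) (fun _ => {q : (Fin m → ℝ) × (Fin n → ℝ) | (∀ k, q.1 k ∈ Icc (a0 k - η / 2) (a0 k + η / 2)) ∧
        ∀ i, q.2 i ∈ Icc (x0 i - η / 2) (x0 i + η / 2)})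
    (fun s μ q => Sum.elim (fun (b : Fin n × Option (Fin N ⊕ Fin m)) (q : (Fin m → ℝ) × (Fin n → ℝ)) => b.2.elim (q.2 b.1 : ℂ)
          (Sum.elim (fun j => v (Sum.inr b.1) j (fun l => (μ l : ℂ)) (q.2 b.1))
            (fun k => h b.1 k (fun l => (μ l : ℂ)) (q.1 k) (q.2 b.1))))
        (fun (b : Fin m × Option (Fin N)) q => b.2.elim (q.1 b.1 : ℂ)
          fun j => v (Sum.inl b.1) j (fun l => (μ l : ℂ)) (q.1 b.1)) s q)
    (fun a μ => Sum.elim (fun k => w k fun l => (μ l : ℂ)) (fun l => (μ l : ℂ)) a)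
    (fun Q hQ => hw Q (by
      filter_upwards [Metric.ball_mem_nhds lam0 hη] with μ hμ
      exact hQ μ hμ))
    inner (MvPolynomial.rename e3 P) (by
      intro μ hμ q hq
      rw [MvPolynomial.eval_rename]
      have h2 := hP (rp3 μ q.1 q.2) (hball μ q.1 q.2 (fun l => (hμball μ hμ l).trans_le hη0)
        (fun k => (habs _ _ (hq.1 k)).trans_le hη0) fun i => (habs _ _ (hq.2 i)).trans_le hη0)
      rw [← h2]
      congr 2
      funext s
      rcases s with (((⟨(k | i), j⟩ | b) | k) | (l | (k | i))) <;> rfl)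
  exact MvPolynomial.rename_injective _ e3_inj (by rw [h1, map_zero])

end Pool.Agent.Q23.MV.H3
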