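import Pool.Agent.Q23.MV.Pack

/-!
# Towers with several entries: growth
-/

set_option autoImplicit false

open Set Filter Topology NumberField

namespace Pool.Agent.Q23.MV

open Pool.Agent.TH818.AP Pool.Agent.Y771 Pool.Agent.Y890.MV

/-- monomials in functions with logarithms in a finite set of pairwise comparable functions -/
theorem rind_cmp {κ Λ : Type} [Fintype κ] [DecidableEq κ] [Fintype Λ] [DecidableEq Λ] {d : ℕ} (u : κ → ℝ → ℝ)
    (L : Λ → ℝ → ℝ) (hL1 : ∀ k, Tendsto (L k) atTop atTop)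
    (hL2 : ∀ k l, k ≠ l → Tendsto (fun t => L l t / L k t) atTop (𝓝 0) ∨ Tendsto (fun t => L k t / L l t) atTop (𝓝 0))
    (l0 : Λ) (hl0 : ∀ᶠ t in atTop, L l0 t = Real.log t)
    (A : κ → Λ → ℝ) (hpos : ∀ k, ∀ᶠ t in atTop, 0 < u k t)
    (hu : ∀ k, ∀ᶠ t in atTop, Real.log (u k t) = ∑ l, A k l * L l t)
    (hA : ∀ (m : κ → ℤ) (n : ℤ), (∀ l, ∑ k, (m k : ℝ) * A k l = if l = l0 then (n : ℝ) else 0) → m = 0)
    (a b : ℝ) (hab : a < b) (han : ∀ k, AnalyticOnNhd ℝ (u k) (Ici a)) :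
    RIndep (fun (e : κ → Fin (d + 1)) (t : ℝ) => ∏ k, u k t ^ (e k : ℕ)) a b := by
  classical
  have hpos' : ∀ k, ∀ᶠ t in atTop, 0 < L k t := fun k => (hL1 k).eventually_gt_atTop 0
  have hself : ∀ k, ¬ Tendsto (fun t => L k t / L k t) atTop (𝓝 0) := by
    intro k h
    have h1 : Tendsto (fun t => L k t / L k t) atTop (𝓝 1) := by
      refine tendsto_const_nhds.congr' ?_
      filter_upwards [hpos' k] with t ht
      rw [div_self ht.ne']
    exact zero_ne_one (tendsto_nhds_unique h h1)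
  have htrans : ∀ k l p, Tendsto (fun t => L l t / L k t) atTop (𝓝 0) → Tendsto (fun t => L p t / L l t) atTop (𝓝 0) →
      Tendsto (fun t => L p t / L k t) atTop (𝓝 0) := by
    intro k l p h1 h2
    have h3 := h2.mul h1
    rw [mul_zero] at h3
    refine h3.congr' ?_
    filter_upwards [hpos' l] with t ht
    field_simp
  let r : Λ → Λ → Prop := fun k l => Tendsto (fun t => L l t / L k t) atTop (𝓝 0)
  letI lin : LinearOrder Λ := {
    le := fun k l => k = l ∨ r k l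
    lt := r
    le_refl := fun k => Or.inl rfl
    le_trans := by
      rintro k l p (rfl | h1) (rfl | h2)
      · exact Or.inl rfl
      · exact Or.inr h2
      · exact Or.inr h1
      · exact Or.inr (htrans _ _ _ h1 h2)
    lt_iff_le_not_ge := by
      intro k l
      constructor
      · intro h
        refine ⟨Or.inr h, ?_⟩
        rintro (rfl | h2)
        · exact hself _ h
        · exact hself _ (htrans _ _ _ h h2)
      · rintro ⟨rfl | h, h2⟩
        · exact absurd (Or.inl rfl) h2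
        · exact h
    le_antisymm := by
      rintro k l (rfl | h1) (h2 | h2)
      · rfl
      · rfl
      · exact h2.symm
      · exact absurd (htrans _ _ _ h1 h2) (hself _)
    le_total := by
      intro k l
      by_cases h : k = l
      · exact Or.inl (Or.inl h)
      · rcases hL2 k l h with h1 | h1
        · exact Or.inl (Or.inr h1)
        · exact Or.inr (Or.inr h1)
    toDecidableLE := Classical.decRel _ }
  have hS : Q23.AQ.Scales L := ⟨hL1, fun k l h => h⟩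
  refine Q23.AQ.rind (d := d) u L hS l0 hl0 A (fun _ _ => 0) hpos (fun k => ?_) (fun k l => ?_) ?_ a b hab han
  · filter_upwards [hu k] with t ht
    rw [ht, add_zero]
  · simp only [zero_div]
    exact tendsto_const_nhds
  · intro m n h
    refine hA m n fun l => ?_
    rw [h l]
    by_cases hl : l = l0
    · rw [if_pos hl, if_pos hl]
    · rw [if_neg hl, if_neg hl]

/-- towers with bases `e^(ℓ_j)` -/
noncomputable def Tw {J : Type} (ℓ : J → ℝ → ℝ) : List J → ℝ → ℝ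
  | [], _ => 1
  | j :: v, t => Real.exp (ℓ j t * Tw ℓ v t)

/-- `log f - log g ≥ δ t` for large `t` -/
def Gap (f g : ℝ → ℝ) : Prop := ∃ δ : ℝ, 0 < δ ∧ ∀ᶠ t in atTop, δ * t ≤ Real.log (f t) - Real.log (g t)

variable {J : Type} (ℓ : J → ℝ → ℝ)

theorem Tw_pos (v : List J) (t : ℝ) : 0 < Tw ℓ v t := by
  cases v with
  | nil => exact one_pos
  | cons j v => exact Real.exp_pos _

theorem Tw_log (j : J) (v : List J) (t : ℝ) : Real.log (Tw ℓ (j :: v) t) = ℓ j t * Tw ℓ v t := by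
  rw [Tw, Real.log_exp]

theorem Tw_ge_one (h1 : ∀ j, ∃ c : ℝ, ∀ᶠ t in atTop, Real.log t + c ≤ ℓ j t) (v : List J) :
    ∀ᶠ t in atTop, 1 ≤ Tw ℓ v t := by
  induction v with
  | nil => exact Eventually.of_forall fun t => le_rfl
  | cons j v ih =>
    obtain ⟨c, hc⟩ := h1 j
    filter_upwards [ih, hc, Real.tendsto_log_atTop.eventually_ge_atTop (-c)] with t h2 h3 h4
    rw [Tw]
    refine Real.one_le_exp (mul_nonneg (by linarith) (by linarith))

theorem Tw_ge (h1 : ∀ j, ∃ c : ℝ, ∀ᶠ t in atTop, Real.log t + c ≤ ℓ j t) (v : List J) (hv : v ≠ []) :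
    ∃ δ : ℝ, 0 < δ ∧ ∀ᶠ t in atTop, δ * t ≤ Tw ℓ v t := by
  cases v with
  | nil => exact absurd rfl hv
  | cons j v =>
    obtain ⟨c, hc⟩ := h1 j
    refine ⟨Real.exp c, Real.exp_pos _, ?_⟩
    filter_upwards [Tw_ge_one ℓ h1 v, hc, Real.tendsto_log_atTop.eventually_ge_atTop (-c), eventually_gt_atTop 0]
      with t h2 h3 h4 h5
    rw [Tw]
    calc Real.exp c * t = Real.exp (Real.log t + c) := by rw [Real.exp_add, Real.exp_log h5, mul_comm]
      _ ≤ Real.exp (ℓ j t * Tw ℓ v t) := by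
          refine Real.exp_le_exp.2 (h3.trans ?_)
          exact le_mul_of_one_le_right (by linarith) h2

theorem gap_step (h1 : ∀ j, ∃ c : ℝ, ∀ᶠ t in atTop, Real.log t + c ≤ ℓ j t)
    (h2 : ∀ j, ∀ᶠ t in atTop, ℓ j t ≤ t ^ 2) (j j' : J) (r r' : List J) (hr : r ≠ [])
    (hg : Gap (Tw ℓ r) (Tw ℓ r')) : Gap (Tw ℓ (j :: r)) (Tw ℓ (j' :: r')) := by
  obtain ⟨δ, hδ, hg⟩ := hg
  obtain ⟨δ', hδ', hT⟩ := Tw_ge ℓ h1 r hr
  obtain ⟨c, hc⟩ := h1 j
  have hsmall : Tendsto (fun t : ℝ => t ^ 2 * Real.exp (-(δ * t))) atTop (𝓝 0) := Q23.AQ.exp_neg_pow hδ 2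
  refine ⟨δ', hδ', ?_⟩
  filter_upwards [hg, hT, hc, h2 j', hsmall.eventually (gt_mem_nhds one_pos),
    Real.tendsto_log_atTop.eventually_ge_atTop (2 - c), eventually_gt_atTop 0] with t g1 g2 g3 g4 g5 g6 g7
  rw [Tw_log, Tw_log]
  have hp := Tw_pos ℓ r t
  have hp' := Tw_pos ℓ r' t
  -- `T_{r'} ≤ e^(-δ t) T_r`
  have h5 : Tw ℓ r' t ≤ Real.exp (-(δ * t)) * Tw ℓ r t := by
    have h6 : Real.log (Tw ℓ r' t) ≤ Real.log (Real.exp (-(δ * t)) * Tw ℓ r t) := by
      rw [Real.log_mul (Real.exp_ne_zero _) hp.ne', Real.log_exp]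
      linarith
    exact (Real.log_le_log_iff hp' (mul_pos (Real.exp_pos _) hp)).1 h6
  have h7 : ℓ j' t * Tw ℓ r' t ≤ Tw ℓ r t := by
    by_cases hneg : ℓ j' t ≤ 0
    · have : ℓ j' t * Tw ℓ r' t ≤ 0 := mul_nonpos_of_nonpos_of_nonneg hneg hp'.le
      linarith
    · push Not at hneg
      calc ℓ j' t * Tw ℓ r' t ≤ t ^ 2 * (Real.exp (-(δ * t)) * Tw ℓ r t) :=
            mul_le_mul g4 h5 hp'.le (by positivity)
        _ = (t ^ 2 * Real.exp (-(δ * t))) * Tw ℓ r t := by ring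
        _ ≤ 1 * Tw ℓ r t := mul_le_mul_of_nonneg_right g5.le hp.le
        _ = Tw ℓ r t := one_mul _
  have h8 : 2 * Tw ℓ r t ≤ ℓ j t * Tw ℓ r t := mul_le_mul_of_nonneg_right (by linarith) hp.le
  linarith

theorem gap_same (h1 : ∀ j, ∃ c : ℝ, ∀ᶠ t in atTop, Real.log t + c ≤ ℓ j t) (j j' : J) (r : List J) (hr : r ≠ [])
    (h : ∃ δ : ℝ, 0 < δ ∧ ∀ᶠ t in atTop, δ ≤ ℓ j t - ℓ j' t) : Gap (Tw ℓ (j :: r)) (Tw ℓ (j' :: r)) := by
  obtain ⟨δ, hδ, h⟩ := h
  obtain ⟨δ', hδ', hT⟩ := Tw_ge ℓ h1 r hr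
  refine ⟨δ * δ', mul_pos hδ hδ', ?_⟩
  filter_upwards [h, hT, eventually_gt_atTop 0] with t g1 g2 g3
  rw [Tw_log, Tw_log, ← sub_mul]
  calc δ * δ' * t = δ * (δ' * t) := by ring
    _ ≤ (ℓ j t - ℓ j' t) * Tw ℓ r t := mul_le_mul g1 g2 (by positivity) (by linarith)

theorem gap_nil (h1 : ∀ j, ∃ c : ℝ, ∀ᶠ t in atTop, Real.log t + c ≤ ℓ j t) (j : J) (r : List J) (hr : r ≠ []) :
    Gap (Tw ℓ (j :: r)) (Tw ℓ []) := by
  obtain ⟨δ', hδ', hT⟩ := Tw_ge ℓ h1 r hr
  obtain ⟨c, hc⟩ := h1 j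
  refine ⟨δ', hδ', ?_⟩
  filter_upwards [hT, hc, Real.tendsto_log_atTop.eventually_ge_atTop (1 - c)] with t g1 g2 g3
  rw [Tw_log]
  simp only [Tw, Real.log_one, sub_zero]
  have hp := Tw_pos ℓ r t
  nlinarith

/-- pairwise comparability of towers -/
theorem gap_all (h1 : ∀ j, ∃ c : ℝ, ∀ᶠ t in atTop, Real.log t + c ≤ ℓ j t)
    (h2 : ∀ j, ∀ᶠ t in atTop, ℓ j t ≤ t ^ 2)
    (h3 : ∀ j j', j ≠ j' → ∃ δ : ℝ, 0 < δ ∧ ((∀ᶠ t in atTop, δ ≤ ℓ j t - ℓ j' t) ∨ ∀ᶠ t in atTop, δ ≤ ℓ j' t - ℓ j t))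
    (m : ℕ) (g0 : ∀ v v' : List J, v.length ≤ m + 1 → v'.length ≤ m + 1 → v ≠ v' → (m < v.length ∨ m < v'.length) →
      Gap (Tw ℓ v) (Tw ℓ v') ∨ Gap (Tw ℓ v') (Tw ℓ v)) (n : ℕ) :
    ∀ v v' : List J, v.length ≤ m + 1 + n → v'.length ≤ m + 1 + n → v ≠ v' → (m < v.length ∨ m < v'.length) →
      Gap (Tw ℓ v) (Tw ℓ v') ∨ Gap (Tw ℓ v') (Tw ℓ v) := by
  induction n with
  | zero => exact g0
  | succ n ih =>
    -- one of the words is long
    have key : ∀ v v' : List J, v.length = m + 1 + (n + 1) → v'.length ≤ m + 1 + (n + 1) → v ≠ v' →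
        Gap (Tw ℓ v) (Tw ℓ v') ∨ Gap (Tw ℓ v') (Tw ℓ v) := by
      intro v v' hv hv' hne
      cases v with
      | nil => simp at hv
      | cons j r =>
        have hrl : r.length = m + 1 + n := by
          simp only [List.length_cons] at hv
          omega
        have hr : r ≠ [] := by
          rintro rfl
          simp only [List.length_nil] at hrl
          omega
        cases v' with
        | nil => exact Or.inl (gap_nil ℓ h1 j r hr)
        | cons j' r' =>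
          have hrl' : r'.length ≤ m + 1 + n := by
            simp only [List.length_cons] at hv'
            omega
          by_cases hrr : r = r'
          · subst hrr
            have hjj : j ≠ j' := by
              rintro rfl
              exact hne rfl
            obtain ⟨δ, hδ, h4 | h4⟩ := h3 j j' hjj
            · exact Or.inl (gap_same ℓ h1 j j' r hr ⟨δ, hδ, h4⟩)
            · exact Or.inr (gap_same ℓ h1 j' j r hr ⟨δ, hδ, h4⟩)
          · rcases ih r r' hrl.le hrl' hrr (Or.inl (by omega)) with h4 | h4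
            · exact Or.inl (gap_step ℓ h1 h2 j j' r r' hr h4)
            · have hr' : r' ≠ [] := by
                rintro rfl
                -- impossible: a tower is at least one
                obtain ⟨δ, hδ, h5⟩ := h4
                have h6 := Tw_ge_one ℓ h1 r
                obtain ⟨t, h7, h8, h9⟩ := (h5.and (h6.and (eventually_gt_atTop 0))).exists
                simp only [Tw, Real.log_one, zero_sub] at h7
                have h10 := Real.log_nonneg h8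
                have h11 : 0 < δ * t := mul_pos hδ h9
                linarith
              exact Or.inr (gap_step ℓ h1 h2 j' j r' r hr' h4)
    intro v v' hv hv' hne hm
    by_cases h4 : v.length ≤ m + 1 + n
    · by_cases h5 : v'.length ≤ m + 1 + n
      · exact ih v v' h4 h5 hne hm
      · exact (key v' v (by omega) hv hne.symm).symm
    · exact key v v' (by omega) hv' hne

theorem gap_all' (h1 : ∀ j, ∃ c : ℝ, ∀ᶠ t in atTop, Real.log t + c ≤ ℓ j t)
    (h2 : ∀ j, ∀ᶠ t in atTop, ℓ j t ≤ t ^ 2)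
    (h3 : ∀ j j', j ≠ j' → ∃ δ : ℝ, 0 < δ ∧ ((∀ᶠ t in atTop, δ ≤ ℓ j t - ℓ j' t) ∨ ∀ᶠ t in atTop, δ ≤ ℓ j' t - ℓ j t))
    (m : ℕ) (g0 : ∀ v v' : List J, v.length ≤ m + 1 → v'.length ≤ m + 1 → v ≠ v' → (m < v.length ∨ m < v'.length) →
      Gap (Tw ℓ v) (Tw ℓ v') ∨ Gap (Tw ℓ v') (Tw ℓ v)) (v v' : List J) (hne : v ≠ v')
    (hm : m < v.length ∨ m < v'.length) : Gap (Tw ℓ v) (Tw ℓ v') ∨ Gap (Tw ℓ v') (Tw ℓ v) :=
  gap_all ℓ h1 h2 h3 m g0 (v.length + v'.length) v v' (by omega) (by omega) hne hm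

/-- a gap gives a negligible quotient, even times powers of `t` -/
theorem gap_div {v v' : List J} (h : Gap (Tw ℓ v) (Tw ℓ v')) (g : ℝ → ℝ) (n : ℕ) (hg0 : ∀ᶠ t in atTop, 0 ≤ g t)
    (hg : ∀ᶠ t in atTop, g t ≤ t ^ n) : Tendsto (fun t => g t * (Tw ℓ v' t / Tw ℓ v t)) atTop (𝓝 0) := by
  obtain ⟨δ, hδ, h⟩ := h
  refine tendsto_of_tendsto_of_tendsto_of_le_of_le' tendsto_const_nhds (Q23.AQ.exp_neg_pow hδ n) ?_ ?_
  · filter_upwards [hg0] with t ht
    exact mul_nonneg ht (div_nonneg (Tw_pos ℓ v' t).le (Tw_pos ℓ v t).le)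
  · filter_upwards [h, hg0, hg, eventually_gt_atTop 0] with t h1 h2 h3 h4
    refine mul_le_mul h3 ?_ (div_nonneg (Tw_pos ℓ v' t).le (Tw_pos ℓ v t).le) (by positivity)
    rw [div_le_iff₀ (Tw_pos ℓ v t)]
    have h6 : Real.log (Tw ℓ v' t) ≤ Real.log (Real.exp (-(δ * t)) * Tw ℓ v t) := by
      rw [Real.log_mul (Real.exp_ne_zero _) (Tw_pos ℓ v t).ne', Real.log_exp]
      linarith
    exact (Real.log_le_log_iff (Tw_pos ℓ v' t) (mul_pos (Real.exp_pos _) (Tw_pos ℓ v t))).1 h6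

end Pool.Agent.Q23.MV
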