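import Pool.Agent.Q23.MV.Tow

/-!
# Towers with several entries: independence
-/

set_option autoImplicit false

open Set Filter Topology NumberField

namespace Pool.Agent.Q23.MV

open Pool.Agent.TH818.AP Pool.Agent.Y771 Pool.Agent.Y890.MV

theorem Tw_an {J : Type} (ℓ : J → ℝ → ℝ) (t : ℝ) (h : ∀ j, AnalyticAt ℝ (ℓ j) t) (v : List J) :
    AnalyticAt ℝ (Tw ℓ v) t := by
  induction v with
  | nil => exact analyticAt_const
  | cons j v ih => exact ((h j).mul ih).rexp

theorem log_le_sq : ∀ᶠ t : ℝ in atTop, Real.log t ≤ t := by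
  filter_upwards [eventually_gt_atTop 0] with t ht
  linarith [Real.log_le_sub_one_of_pos ht]

section B

variable {X : Type} (c : X → ℝ)

theorem B1 (hc : ∀ j, 0 < c j) (j : X) : ∃ a : ℝ, ∀ᶠ t in atTop, Real.log t + a ≤ c j * t := by
  refine ⟨0, ?_⟩
  have h := Real.isLittleO_log_id_atTop.tendsto_div_nhds_zero
  filter_upwards [h.eventually (gt_mem_nhds (hc j)), eventually_gt_atTop 0] with t h1 h2
  simp only [id] at h1
  rw [div_lt_iff₀ h2] at h1
  linarith

theorem B2 (j : X) : ∀ᶠ t in atTop, c j * t ≤ t ^ 2 := by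
  filter_upwards [eventually_ge_atTop (c j), eventually_ge_atTop 0] with t h1 h2
  nlinarith

theorem B3 (hinj : Function.Injective c) (j j' : X) (hj : j ≠ j') :
    ∃ δ : ℝ, 0 < δ ∧ ((∀ᶠ t in atTop, δ ≤ c j * t - c j' * t) ∨ ∀ᶠ t in atTop, δ ≤ c j' * t - c j * t) := by
  rcases lt_trichotomy (c j) (c j') with h | h | h
  · refine ⟨c j' - c j, by linarith, Or.inr ?_⟩
    filter_upwards [eventually_ge_atTop 1] with t ht
    nlinarith
  · exact absurd (hinj h) hj
  · refine ⟨c j - c j', by linarith, Or.inl ?_⟩
    filter_upwards [eventually_ge_atTop 1] with t ht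
    nlinarith

theorem B0 (hc : ∀ j, 0 < c j) (hinj : Function.Injective c) (v v' : List X) (hv : v.length ≤ 0 + 1)
    (hv' : v'.length ≤ 0 + 1) (hne : v ≠ v') (_ : 0 < v.length ∨ 0 < v'.length) :
    Gap (Tw (fun j t => c j * t) v) (Tw (fun j t => c j * t) v') ∨
      Gap (Tw (fun j t => c j * t) v') (Tw (fun j t => c j * t) v) := by
  have key : ∀ j, Gap (Tw (fun j t => c j * t) [j]) (Tw (fun j t => c j * t) []) := by
    intro j
    refine ⟨c j, hc j, Eventually.of_forall fun t => ?_⟩
    rw [Tw_log]
    simp [Tw]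
  have key2 : ∀ j j', c j' < c j → Gap (Tw (fun j t => c j * t) [j]) (Tw (fun j t => c j * t) [j']) := by
    intro j j' h
    refine ⟨c j - c j', by linarith, Eventually.of_forall fun t => ?_⟩
    rw [Tw_log, Tw_log]
    simp only [Tw]
    linarith
  match v, v', hv, hv', hne with
  | [], [], _, _, hne => exact absurd rfl hne
  | [j], [], _, _, _ => exact Or.inl (key j)
  | [], [j], _, _, _ => exact Or.inr (key j)
  | [j], [j'], _, _, hne =>
    rcases lt_trichotomy (c j) (c j') with h | h | h
    · exact Or.inr (key2 _ _ h)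
    · exact absurd (by rw [hinj h]) hne
    · exact Or.inl (key2 _ _ h)
  | _ :: _ :: _, _, h, _, _ => simp at h
  | _, _ :: _ :: _, _, h, _ => simp at h

theorem towB_ind [Fintype X] [DecidableEq X] (hc : ∀ j, 0 < c j)
    (hlin : ∀ ν : X → ℤ, ∑ j, (ν j : ℝ) * c j = 0 → ν = 0)
    {κ : Type} [Fintype κ] [DecidableEq κ] (hd : κ → X) (tl : κ → List X)
    (hw : Function.Injective fun y => (hd y, tl y)) (d : ℕ) :
    RIndep (fun (e : κ → Fin (d + 1)) (t : ℝ) => ∏ y, Tw (fun j t => c j * t) (hd y :: tl y) t ^ (e y : ℕ)) 1 2 := by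
  classical
  have hinj : Function.Injective c := by
    intro j j' h
    by_contra hne
    have h1 := hlin (fun i => (if i = j then 1 else 0) - if i = j' then 1 else 0) (by
      push_cast
      simp only [sub_mul, ite_mul, one_mul, zero_mul, Finset.sum_sub_distrib, Finset.sum_ite_eq', Finset.mem_univ,
        if_true]
      rw [h, sub_self])
    have h2 := congrFun h1 j
    simp [hne] at h2
  set ℓ : X → ℝ → ℝ := fun j t => c j * t with hℓ
  let S : Finset (List X) := Finset.univ.image tl
  have hS : ∀ y, tl y ∈ S := fun y => Finset.mem_image_of_mem _ (Finset.mem_univ y)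
  have hgap : ∀ v v' : List X, v ≠ v' → Gap (Tw ℓ v) (Tw ℓ v') ∨ Gap (Tw ℓ v') (Tw ℓ v) := by
    intro v v' hne
    refine gap_all' ℓ (B1 c hc) (B2 c) (B3 c hinj) 0 (B0 c hc hinj) v v' hne ?_
    by_contra hcon
    push Not at hcon
    apply hne
    rw [List.length_eq_zero_iff.1 (Nat.le_zero.1 hcon.1), List.length_eq_zero_iff.1 (Nat.le_zero.1 hcon.2)]
  have hone : ∀ v, ∀ᶠ t in atTop, 1 ≤ Tw ℓ v t := Tw_ge_one ℓ (B1 c hc)
  refine rind_cmp (d := d) (fun y => Tw ℓ (hd y :: tl y))
    (fun l : Option {v // v ∈ S} => l.elim Real.log fun v t => t * Tw ℓ v.1 t) ?_ ?_ none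
    (Eventually.of_forall fun t => rfl)
    (fun y l => l.elim 0 fun v => if v.1 = tl y then c (hd y) else 0)
    (fun y => Eventually.of_forall fun t => Tw_pos ℓ _ t) ?_ ?_ 1 2 one_lt_two
    (fun y t _ => Tw_an ℓ t (fun j => analyticAt_const.mul analyticAt_id) _)
  · intro l
    rcases l with _ | v
    · exact Real.tendsto_log_atTop
    · refine tendsto_atTop_mono' atTop ?_ tendsto_id
      filter_upwards [hone v.1, eventually_gt_atTop 0] with t h1 h2
      simp only [Option.elim_some, id]
      nlinarith
  · intro k l hkl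
    have hlog : ∀ v : {v // v ∈ S}, Tendsto (fun t => Real.log t / (t * Tw ℓ v.1 t)) atTop (𝓝 0) := by
      intro v
      have h := Real.isLittleO_log_id_atTop.tendsto_div_nhds_zero
      refine tendsto_of_tendsto_of_tendsto_of_le_of_le' tendsto_const_nhds h ?_ ?_
      · filter_upwards [Q23.AQ.log_ge_one, hone v.1, eventually_gt_atTop 0] with t h1 h2 h3
        positivity
      · filter_upwards [Q23.AQ.log_ge_one, hone v.1, eventually_gt_atTop 0] with t h1 h2 h3
        simp only [id]
        refine div_le_div_of_nonneg_left (by linarith) h3 ?_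
        nlinarith
    rcases k with _ | v
    · rcases l with _ | v'
      · exact absurd rfl hkl
      · exact Or.inr (hlog v')
    · rcases l with _ | v'
      · exact Or.inl (hlog v)
      · have hne : v.1 ≠ v'.1 := fun h => hkl (by rw [Subtype.ext h])
        have hg : ∀ w w' : List X, Gap (Tw ℓ w) (Tw ℓ w') →
            Tendsto (fun t => (t * Tw ℓ w' t) / (t * Tw ℓ w t)) atTop (𝓝 0) := by
          intro w w' h
          refine (gap_div ℓ h (fun _ => 1) 0 (Eventually.of_forall fun _ => zero_le_one)
            (Eventually.of_forall fun _ => by simp)).congr' ?_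
          filter_upwards [eventually_gt_atTop 0] with t ht
          rw [one_mul, mul_div_mul_left _ _ ht.ne']
        rcases hgap _ _ hne with h | h
        · exact Or.inl (hg _ _ h)
        · exact Or.inr (hg _ _ h)
  · intro y
    refine Eventually.of_forall fun t => ?_
    rw [Tw_log, Fintype.sum_option, Finset.sum_eq_single (⟨tl y, hS y⟩ : {v // v ∈ S})]
    · simp only [Option.elim_none, Option.elim_some, zero_mul, zero_add, if_true, hℓ]
      ring
    · intro v _ hv
      simp only [Option.elim_some]
      rw [if_neg (fun h => hv (Subtype.ext h)), zero_mul]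
    · intro h
      exact absurd (Finset.mem_univ _) h
  · intro μ n h
    funext y0
    have h1 := h (some ⟨tl y0, hS y0⟩)
    rw [if_neg (by simp)] at h1
    simp only [Option.elim_some] at h1
    have h2 := hlin (fun j => ∑ y, if tl y = tl y0 ∧ hd y = j then μ y else 0) (by
      push_cast
      simp only [Finset.sum_mul]
      rw [Finset.sum_comm]
      refine Eq.trans ?_ h1
      refine Finset.sum_congr rfl fun y _ => ?_
      by_cases h3 : tl y = tl y0
      · rw [if_pos h3.symm, Finset.sum_eq_single (hd y)]
        · rw [if_pos ⟨h3, rfl⟩]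
        · intro j _ hj
          rw [if_neg (fun h4 => hj h4.2.symm), zero_mul]
        · intro h4
          exact absurd (Finset.mem_univ _) h4
      · rw [if_neg (fun h4 => h3 h4.symm), mul_zero]
        refine Finset.sum_eq_zero fun j _ => ?_
        rw [if_neg (fun h4 => h3 h4.1), zero_mul])
    have h3 := congrFun h2 (hd y0)
    simp only [Pi.zero_apply] at h3
    rw [Finset.sum_eq_single y0] at h3
    · rw [if_pos ⟨rfl, rfl⟩] at h3
      exact h3
    · intro y _ hy
      rw [if_neg]
      rintro ⟨h4, h5⟩
      exact hy (hw (Prod.ext h5 h4))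
    · intro h4
      exact absurd (Finset.mem_univ _) h4

end B

section A

variable {X : Type} (s : X → ℝ)

theorem A1 (j : X) : ∃ a : ℝ, ∀ᶠ t in atTop, Real.log t + a ≤ Real.log t + s j :=
  ⟨s j, Eventually.of_forall fun _ => le_rfl⟩

theorem A2 (j : X) : ∀ᶠ t in atTop, Real.log t + s j ≤ t ^ 2 := by
  filter_upwards [log_le_sq, eventually_ge_atTop (s j), eventually_ge_atTop 2] with t h1 h2 h3
  nlinarith

theorem A3 (hinj : Function.Injective s) (j j' : X) (hj : j ≠ j') :
    ∃ δ : ℝ, 0 < δ ∧ ((∀ᶠ t in atTop, δ ≤ (Real.log t + s j) - (Real.log t + s j')) ∨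
      ∀ᶠ t in atTop, δ ≤ (Real.log t + s j') - (Real.log t + s j)) := by
  rcases lt_trichotomy (s j) (s j') with h | h | h
  · exact ⟨s j' - s j, by linarith, Or.inr (Eventually.of_forall fun t => by linarith)⟩
  · exact absurd (hinj h) hj
  · exact ⟨s j - s j', by linarith, Or.inl (Eventually.of_forall fun t => by linarith)⟩

theorem TA1 (i : X) (t : ℝ) (ht : 0 < t) : Tw (fun j t => Real.log t + s j) [i] t = Real.exp (s i) * t := by
  simp only [Tw, mul_one]
  rw [Real.exp_add, Real.exp_log ht, mul_comm]

theorem TA2 (j i : X) (t : ℝ) (ht : 0 < t) :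
    Real.log (Tw (fun j t => Real.log t + s j) [j, i] t) = (Real.log t + s j) * (Real.exp (s i) * t) := by
  rw [Tw_log, TA1 s i t ht]

theorem A21 (j i : X) (v : List X) (hv : v.length ≤ 1) :
    Gap (Tw (fun j t => Real.log t + s j) [j, i]) (Tw (fun j t => Real.log t + s j) v) := by
  have he := Real.exp_pos (s i)
  -- the logarithm of the second tower is at most `log t + a`
  obtain ⟨a, ha⟩ : ∃ a : ℝ, ∀ᶠ t in atTop, Real.log (Tw (fun j t => Real.log t + s j) v t) ≤ Real.log t + a := by
    match v, hv with
    | [], _ =>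
      refine ⟨0, ?_⟩
      filter_upwards [Q23.AQ.log_ge_one] with t ht
      simp only [Tw, Real.log_one]
      linarith
    | [k], _ =>
      refine ⟨s k, Eventually.of_forall fun t => ?_⟩
      rw [Tw_log]
      simp [Tw]
    | _ :: _ :: _, h => simp at h
  refine ⟨1, one_pos, ?_⟩
  filter_upwards [ha, log_le_sq, eventually_ge_atTop |a|, eventually_ge_atTop 2,
    Real.tendsto_log_atTop.eventually_ge_atTop (3 * Real.exp (-(s i)) - s j)] with t h1 h2 h3 h4 h5
  rw [TA2 s j i t (by linarith)]
  have h6 : 3 ≤ (Real.log t + s j) * Real.exp (s i) := by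
    have h7 : 3 * Real.exp (-(s i)) ≤ Real.log t + s j := by linarith
    calc (3 : ℝ) = 3 * Real.exp (-(s i)) * Real.exp (s i) := by rw [mul_assoc, ← Real.exp_add]; simp
      _ ≤ _ := mul_le_mul_of_nonneg_right h7 he.le
  have h8 : 3 * t ≤ (Real.log t + s j) * (Real.exp (s i) * t) := by
    rw [← mul_assoc]
    exact mul_le_mul_of_nonneg_right h6 (by linarith)
  have h9 := le_abs_self a
  linarith

theorem A22 (j i j' i' : X) (h : s i' < s i) :
    Gap (Tw (fun j t => Real.log t + s j) [j, i]) (Tw (fun j t => Real.log t + s j) [j', i']) := by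
  have he : 0 < Real.exp (s i) - Real.exp (s i') := sub_pos.2 (Real.exp_lt_exp.2 h)
  refine ⟨1, one_pos, ?_⟩
  filter_upwards [eventually_gt_atTop 0, Real.tendsto_log_atTop.eventually_ge_atTop
    ((1 + Real.exp (s i') * s j' - Real.exp (s i) * s j) / (Real.exp (s i) - Real.exp (s i')))] with t h1 h2
  rw [TA2 s j i t h1, TA2 s j' i' t h1]
  rw [div_le_iff₀ he] at h2
  nlinarith

theorem A0 (hinj : Function.Injective s) (v v' : List X) (hv : v.length ≤ 1 + 1) (hv' : v'.length ≤ 1 + 1)
    (hne : v ≠ v') (hm : 1 < v.length ∨ 1 < v'.length) :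
    Gap (Tw (fun j t => Real.log t + s j) v) (Tw (fun j t => Real.log t + s j) v') ∨
      Gap (Tw (fun j t => Real.log t + s j) v') (Tw (fun j t => Real.log t + s j) v) := by
  have key : ∀ v v' : List X, v.length = 2 → v'.length ≤ 2 → v ≠ v' →
      Gap (Tw (fun j t => Real.log t + s j) v) (Tw (fun j t => Real.log t + s j) v') ∨
      Gap (Tw (fun j t => Real.log t + s j) v') (Tw (fun j t => Real.log t + s j) v) := by
    intro v v' hv hv' hne
    by_cases h1 : v'.length ≤ 1
    · obtain ⟨j, i, rfl⟩ := List.length_eq_two.1 hv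
      exact Or.inl (A21 s j i v' h1)
    · obtain ⟨j, i, rfl⟩ := List.length_eq_two.1 hv
      obtain ⟨j', i', rfl⟩ := List.length_eq_two.1 (show v'.length = 2 by omega)
      rcases lt_trichotomy (s i) (s i') with h | h | h
      · exact Or.inr (A22 s _ _ _ _ h)
      · have hi := hinj h
        subst hi
        have hjj : j ≠ j' := by
          rintro rfl
          exact hne rfl
        obtain ⟨δ, hδ, h4 | h4⟩ := A3 s hinj j j' hjj
        · exact Or.inl (gap_same _ (A1 s) j j' [i] (by simp) ⟨δ, hδ, h4⟩)
        · exact Or.inr (gap_same _ (A1 s) j' j [i] (by simp) ⟨δ, hδ, h4⟩)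
      · exact Or.inl (A22 s _ _ _ _ h)
  by_cases h1 : v.length = 2
  · exact key v v' h1 hv' hne
  · exact (key v' v (by omega) hv hne.symm).symm

/-- `e^(s_i)` for the word `[i]` -/
noncomputable def q1 (v : List X) : ℝ :=
  match v with
  | [i] => Real.exp (s i)
  | _ => 0

/-- the scale -/
noncomputable def LA (S : Finset (List X)) : (Fin 3 ⊕ ({v // v ∈ S} × Bool)) → ℝ → ℝ
  | Sum.inl 0 => Real.log
  | Sum.inl 1 => fun t => t
  | Sum.inl 2 => fun t => t * Real.log t
  | Sum.inr (v, b) => fun t => (if b then Real.log t else 1) * Tw (fun j t => Real.log t + s j) v.1 t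

theorem towA_ind [Fintype X] [DecidableEq X]
    (hlin : ∀ ν : X → ℤ, ∑ j, (ν j : ℝ) * s j = 0 → ν = 0)
    (hlin2 : ∀ ν : X × X → ℤ, ∑ q, (ν q : ℝ) * (s q.1 * Real.exp (s q.2)) = 0 → ν = 0)
    {κ : Type} [Fintype κ] [DecidableEq κ] (hd : κ → X) (tl : κ → List X) (htl : ∀ y, tl y ≠ [])
    (hw : Function.Injective fun y => (hd y, tl y)) (d : ℕ) :
    RIndep (fun (e : κ → Fin (d + 1)) (t : ℝ) =>
      ∏ y, Tw (fun j t => Real.log t + s j) (hd y :: tl y) t ^ (e y : ℕ)) 1 2 := by
  classical
  have hinj : Function.Injective s := by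
    intro j j' h
    by_contra hne
    have h1 := hlin (fun i => (if i = j then 1 else 0) - if i = j' then 1 else 0) (by
      push_cast
      simp only [sub_mul, ite_mul, one_mul, zero_mul, Finset.sum_sub_distrib, Finset.sum_ite_eq', Finset.mem_univ,
        if_true]
      rw [h, sub_self])
    have h2 := congrFun h1 j
    simp [hne] at h2
  set ℓ : X → ℝ → ℝ := fun j t => Real.log t + s j with hℓ
  let S : Finset (List X) := (Finset.univ.image tl).filter fun v => 1 < v.length
  have hS : ∀ y, 1 < (tl y).length → tl y ∈ S := fun y hy =>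
    Finset.mem_filter.2 ⟨Finset.mem_image_of_mem _ (Finset.mem_univ y), hy⟩
  have hS2 : ∀ v ∈ S, 1 < v.length := fun v hv => (Finset.mem_filter.1 hv).2
  have hgap : ∀ v v' : List X, v ≠ v' → (1 < v.length ∨ 1 < v'.length) →
      Gap (Tw ℓ v) (Tw ℓ v') ∨ Gap (Tw ℓ v') (Tw ℓ v) := by
    intro v v' hne hm
    exact gap_all' ℓ (A1 s) (A2 s) (A3 s hinj) 1 (A0 s hinj) v v' hne hm
  have hone : ∀ v, ∀ᶠ t in atTop, 1 ≤ Tw ℓ v t := Tw_ge_one ℓ (A1 s)
  have hnil : ∀ v, 1 < v.length → Gap (Tw ℓ v) (Tw ℓ []) := by
    intro v hv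
    match v, hv with
    | j :: r, hv =>
      refine gap_nil ℓ (A1 s) j r ?_
      rintro rfl
      simp at hv
  have hlogt : Tendsto (fun t : ℝ => Real.log t / t) atTop (𝓝 0) :=
    Real.isLittleO_log_id_atTop.tendsto_div_nhds_zero
  have hinv : Tendsto (fun t : ℝ => (Real.log t)⁻¹) atTop (𝓝 0) := Q23.AQ.inv_log
  refine rind_cmp (d := d) (fun y => Tw ℓ (hd y :: tl y)) (LA s S) ?_ ?_ (Sum.inl 0)
    (Eventually.of_forall fun t => rfl)
    (fun y l => match l with
      | Sum.inl 0 => 0
      | Sum.inl 1 => q1 s (tl y) * s (hd y)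
      | Sum.inl 2 => q1 s (tl y)
      | Sum.inr (v, b) => if v.1 = tl y then (if b then 1 else s (hd y)) else 0)
    (fun y => Eventually.of_forall fun t => Tw_pos ℓ _ t) ?_ ?_ 1 2 one_lt_two
    (fun y t ht => Tw_an ℓ t (fun j => (analyticAt_log (lt_of_lt_of_le one_pos ht)).add analyticAt_const) _)
  · intro l
    match l with
    | Sum.inl 0 => exact Real.tendsto_log_atTop
    | Sum.inl 1 => exact tendsto_id
    | Sum.inl 2 => exact tendsto_id.atTop_mul_atTop₀ Real.tendsto_log_atTop
    | Sum.inr (v, b) =>
      have h1 : Tendsto (Tw ℓ v.1) atTop atTop := by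
        obtain ⟨δ, hδ, h⟩ := Tw_ge ℓ (A1 s) v.1 (by
          intro h2
          have := hS2 v.1 v.2
          rw [h2] at this
          simp at this)
        exact tendsto_atTop_mono' atTop h (tendsto_id.const_mul_atTop hδ)
      cases b
      · simp only [LA, Bool.false_eq_true, if_false, one_mul]
        exact h1
      · simp only [LA, if_true]
        exact Real.tendsto_log_atTop.atTop_mul_atTop₀ h1
  · -- comparability
    have c01 : Tendsto (fun t => LA s S (Sum.inl 0) t / LA s S (Sum.inl 1) t) atTop (𝓝 0) := hlogt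
    have c12 : Tendsto (fun t => LA s S (Sum.inl 1) t / LA s S (Sum.inl 2) t) atTop (𝓝 0) := by
      refine hinv.congr' ?_
      filter_upwards [eventually_gt_atTop 0, Q23.AQ.log_ge_one] with t h1 h2
      simp only [LA]
      field_simp
    have c02 : Tendsto (fun t => LA s S (Sum.inl 0) t / LA s S (Sum.inl 2) t) atTop (𝓝 0) := by
      have h := c01.mul c12
      rw [mul_zero] at h
      refine h.congr' ?_
      filter_upwards [eventually_gt_atTop 0, Q23.AQ.log_ge_one] with t h1 h2
      simp only [LA]
      field_simp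
    have hpolyL : ∀ l : Fin 3, (∀ᶠ t in atTop, 0 ≤ LA s S (Sum.inl l) t) ∧ ∀ᶠ t in atTop, LA s S (Sum.inl l) t ≤ t ^ 2 := by
      intro l
      fin_cases l
      · refine ⟨?_, ?_⟩
        · filter_upwards [Q23.AQ.log_ge_one] with t h1
          simp only [LA]
          linarith
        · filter_upwards [log_le_sq, eventually_ge_atTop 1] with t h1 h2
          simp only [LA]
          nlinarith
      · refine ⟨?_, ?_⟩
        · filter_upwards [eventually_ge_atTop 0] with t h1
          exact h1
        · filter_upwards [eventually_ge_atTop 1] with t h2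
          show t ≤ t ^ 2
          nlinarith
      · refine ⟨?_, ?_⟩
        · filter_upwards [Q23.AQ.log_ge_one, eventually_ge_atTop 0] with t h1 h2
          show 0 ≤ t * Real.log t
          exact mul_nonneg h2 (by linarith)
        · filter_upwards [log_le_sq, eventually_ge_atTop 1] with t h1 h2
          show t * Real.log t ≤ t ^ 2
          nlinarith
    have hge1 : ∀ b : Bool, ∀ᶠ t : ℝ in atTop, 1 ≤ (if b then Real.log t else 1) := by
      intro b
      cases b
      · exact Eventually.of_forall fun t => by simp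
      · simpa using Q23.AQ.log_ge_one
    have hle1 : ∀ b : Bool, ∀ᶠ t : ℝ in atTop, (if b then Real.log t else 1) ≤ t ^ 1 := by
      intro b
      cases b
      · filter_upwards [eventually_ge_atTop 1] with t ht
        simpa using ht
      · simpa using log_le_sq
    -- small against large
    have hLR : ∀ (l : Fin 3) (v : {v // v ∈ S}) (b : Bool),
        Tendsto (fun t => LA s S (Sum.inl l) t / LA s S (Sum.inr (v, b)) t) atTop (𝓝 0) := by
      intro l v b
      have h1 := gap_div ℓ (hnil v.1 (hS2 v.1 v.2)) (LA s S (Sum.inl l)) 2 (hpolyL l).1 (hpolyL l).2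
      refine tendsto_of_tendsto_of_tendsto_of_le_of_le' tendsto_const_nhds h1 ?_ ?_
      · filter_upwards [(hpolyL l).1, hge1 b] with t h2 h3
        refine div_nonneg h2 (mul_nonneg (by linarith) (Tw_pos ℓ _ t).le)
      · filter_upwards [(hpolyL l).1, hge1 b] with t h2 h3
        have hp := Tw_pos ℓ v.1 t
        simp only [Tw, mul_one_div]
        refine div_le_div_of_nonneg_left h2 hp ?_
        exact le_mul_of_one_le_left hp.le h3
    have hRR : ∀ (v v' : {v // v ∈ S}) (b b' : Bool), Gap (Tw ℓ v.1) (Tw ℓ v'.1) →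
        Tendsto (fun t => LA s S (Sum.inr (v', b')) t / LA s S (Sum.inr (v, b)) t) atTop (𝓝 0) := by
      intro v v' b b' hg
      have h1 := gap_div ℓ hg (fun t => if b' then Real.log t else 1) 1
        ((hge1 b').mono fun t ht => by linarith) (hle1 b')
      refine tendsto_of_tendsto_of_tendsto_of_le_of_le' tendsto_const_nhds h1 ?_ ?_
      · filter_upwards [hge1 b, hge1 b'] with t h2 h3
        exact div_nonneg (mul_nonneg (by linarith) (Tw_pos ℓ _ t).le) (mul_nonneg (by linarith) (Tw_pos ℓ _ t).le)
      · filter_upwards [hge1 b, hge1 b'] with t h2 h3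
        have hp := Tw_pos ℓ v.1 t
        have hp' := Tw_pos ℓ v'.1 t
        rw [← mul_div_assoc]
        refine div_le_div_of_nonneg_left (mul_nonneg (by linarith) hp'.le) hp ?_
        exact le_mul_of_one_le_left hp.le h2
    intro k l hkl
    match k, l, hkl with
    | Sum.inl k, Sum.inl l, h =>
      fin_cases k <;> fin_cases l
      · exact absurd rfl h
      · exact Or.inr c01
      · exact Or.inr c02
      · exact Or.inl c01
      · exact absurd rfl h
      · exact Or.inr c12
      · exact Or.inl c02
      · exact Or.inl c12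
      · exact absurd rfl h
    | Sum.inl l, Sum.inr (v, b), _ => exact Or.inr (hLR l v b)
    | Sum.inr (v, b), Sum.inl l, _ => exact Or.inl (hLR l v b)
    | Sum.inr (v, b), Sum.inr (v', b'), h =>
      by_cases hv : v = v'
      · subst hv
        have hb : b ≠ b' := fun h1 => h (by rw [h1])
        have hbb : Tendsto (fun t => LA s S (Sum.inr (v, false)) t / LA s S (Sum.inr (v, true)) t) atTop (𝓝 0) := by
          refine hinv.congr' ?_
          filter_upwards [Q23.AQ.log_ge_one] with t h1
          have hp := (Tw_pos ℓ v.1 t).ne'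
          show (Real.log t)⁻¹ = ((if false = true then Real.log t else 1) * Tw ℓ v.1 t) /
            ((if true = true then Real.log t else 1) * Tw ℓ v.1 t)
          simp only [Bool.false_eq_true, if_false, if_true]
          field_simp
        cases b <;> cases b'
        · exact absurd rfl hb
        · exact Or.inr hbb
        · exact Or.inl hbb
        · exact absurd rfl hb
      · have hne : v.1 ≠ v'.1 := fun h1 => hv (Subtype.ext h1)
        rcases hgap _ _ hne (Or.inl (hS2 v.1 v.2)) with h1 | h1
        · exact Or.inl (hRR v v' b b' h1)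
        · exact Or.inr (hRR v' v b' b h1)
  · intro y
    filter_upwards [eventually_gt_atTop 0] with t ht
    rw [Tw_log, Fintype.sum_sum_type, Fin.sum_univ_three, Fintype.sum_prod_type]
    simp only [Fintype.sum_bool, LA, zero_mul, zero_add]
    by_cases hlen : 1 < (tl y).length
    · have hq : q1 s (tl y) = 0 := by
        unfold q1
        match h : tl y with
        | [] => rfl
        | [i] => rw [h] at hlen; simp at hlen
        | _ :: _ :: _ => rfl
      rw [hq, Finset.sum_eq_single (⟨tl y, hS y hlen⟩ : {v // v ∈ S})]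
      · simp only [if_true, hℓ, Bool.false_eq_true, if_false]
        ring
      · intro v _ hv
        rw [if_neg (fun h => hv (Subtype.ext h)), if_neg (fun h => hv (Subtype.ext h))]
        ring
      · intro h
        exact absurd (Finset.mem_univ _) h
    · have hex : ∃ i, tl y = [i] := by
        match h : tl y with
        | [] => exact absurd h (htl y)
        | [i] => exact ⟨i, rfl⟩
        | _ :: _ :: _ => rw [h] at hlen; simp at hlen
      obtain ⟨i, hi⟩ := hex
      rw [Finset.sum_eq_zero]
      · rw [hi]
        simp only [q1]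
        rw [TA1 s i t ht]
        simp only [hℓ]
        ring
      · intro v _
        have hne : v.1 ≠ tl y := by
          intro h
          have := hS2 v.1 v.2
          rw [h] at this
          exact hlen this
        rw [if_neg hne, if_neg hne]
        ring
  · intro μ n h
    funext y0
    by_cases hlen : 1 < (tl y0).length
    · have h1 := h (Sum.inr (⟨tl y0, hS y0 hlen⟩, false))
      rw [if_neg (by simp)] at h1
      simp only [Bool.false_eq_true, if_false] at h1
      have h2 := hlin (fun j => ∑ y, if tl y = tl y0 ∧ hd y = j then μ y else 0) (by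
        push_cast
        simp only [Finset.sum_mul]
        rw [Finset.sum_comm]
        refine Eq.trans ?_ h1
        refine Finset.sum_congr rfl fun y _ => ?_
        by_cases h3 : tl y = tl y0
        · rw [if_pos h3.symm, Finset.sum_eq_single (hd y)]
          · rw [if_pos ⟨h3, rfl⟩]
          · intro j _ hj
            rw [if_neg (fun h4 => hj h4.2.symm), zero_mul]
          · intro h4
            exact absurd (Finset.mem_univ _) h4
        · rw [if_neg (fun h4 => h3 h4.symm), mul_zero]
          refine Finset.sum_eq_zero fun j _ => ?_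
          rw [if_neg (fun h4 => h3 h4.1), zero_mul])
      have h3 := congrFun h2 (hd y0)
      simp only [Pi.zero_apply] at h3
      rw [Finset.sum_eq_single y0] at h3
      · rw [if_pos ⟨rfl, rfl⟩] at h3
        exact h3
      · intro y _ hy
        rw [if_neg]
        rintro ⟨h4, h5⟩
        exact hy (hw (Prod.ext h5 h4))
      · intro h4
        exact absurd (Finset.mem_univ _) h4
    · have hex : ∃ i, tl y0 = [i] := by
        match h : tl y0 with
        | [] => exact absurd h (htl y0)
        | [i] => exact ⟨i, rfl⟩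
        | _ :: _ :: _ => rw [h] at hlen; simp at hlen
      obtain ⟨i, hi⟩ := hex
      have h1 := h (Sum.inl 1)
      rw [if_neg (by simp)] at h1
      simp only at h1
      have hq : ∀ v : List X, q1 s v = ∑ i : X, if v = [i] then Real.exp (s i) else 0 := by
        intro v
        by_cases hv : ∃ i, v = [i]
        · obtain ⟨i, rfl⟩ := hv
          simp only [q1]
          rw [Finset.sum_eq_single i]
          · rw [if_pos rfl]
          · intro i' _ hi'
            rw [if_neg]
            intro h5
            exact hi' (by simpa using h5.symm)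
          · intro h5
            exact absurd (Finset.mem_univ _) h5
        · rw [Finset.sum_eq_zero (fun i _ => if_neg fun h5 => hv ⟨i, h5⟩)]
          unfold q1
          match v with
          | [] => rfl
          | [i] => exact absurd ⟨i, rfl⟩ hv
          | _ :: _ :: _ => rfl
      have h2 := hlin2 (fun q => ∑ y, if tl y = [q.2] ∧ hd y = q.1 then μ y else 0) (by
        push_cast
        simp only [Finset.sum_mul]
        rw [Finset.sum_comm]
        refine Eq.trans ?_ h1
        refine Finset.sum_congr rfl fun y _ => ?_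
        rw [Fintype.sum_prod_type, Finset.sum_eq_single (hd y)]
        · rw [hq, Finset.sum_mul, Finset.mul_sum]
          refine Finset.sum_congr rfl fun i _ => ?_
          by_cases h3 : tl y = [i]
          · rw [if_pos ⟨h3, rfl⟩, if_pos h3]
            ring
          · rw [if_neg (fun h4 => h3 h4.1), if_neg h3]
            ring
        · intro j _ hj
          refine Finset.sum_eq_zero fun i _ => ?_
          rw [if_neg (fun h4 => hj h4.2.symm), zero_mul]
        · intro h4
          exact absurd (Finset.mem_univ _) h4)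
      have h3 := congrFun h2 (hd y0, i)
      simp only [Pi.zero_apply] at h3
      rw [Finset.sum_eq_single y0] at h3
      · rw [if_pos ⟨hi, rfl⟩] at h3
        exact h3
      · intro y _ hy
        rw [if_neg]
        rintro ⟨h4, h5⟩
        exact hy (hw (Prod.ext h5 (h4.trans hi.symm)))
      · intro h4
        exact absurd (Finset.mem_univ _) h4

end A

end Pool.Agent.Q23.MV
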