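import Pool.Agent.Q23.MV.TowAB

/-!
# Towers with several entries: functions of several variables
-/

set_option autoImplicit false

open Set Filter Topology NumberField

namespace Pool.Agent.Q23.MV

open Pool.Agent.TH818.AP Pool.Agent.Y771 Pool.Agent.Y890.MV

/-- The tower `b_1^(b_2^(…^b_n))` with bases `b_j = e^(ℓ_j)`. -/
noncomputable def TC {J : Type} (ℓ : J → ℂ) : List J → ℂ
  | [] => 1
  | j :: v => Complex.exp (ℓ j * TC ℓ v)

theorem TC_real {J : Type} (ℓ : J → ℝ → ℝ) (t : ℝ) (z : J → ℂ) (hz : ∀ j, z j = (ℓ j t : ℂ)) (v : List J) :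
    TC z v = (Tw ℓ v t : ℂ) := by
  induction v with
  | nil => simp [TC, Tw]
  | cons j v ih =>
    rw [TC, Tw, ih, hz]
    push_cast
    rfl

theorem TC_an {X J : Type} [Fintype X] (ℓ : J → (X → ℂ) → ℂ) (x : X → ℂ) (h : ∀ j, AnalyticAt ℂ (ℓ j) x)
    (v : List J) : AnalyticAt ℂ (fun x => TC (fun j => ℓ j x) v) x := by
  induction v with
  | nil => exact analyticAt_const
  | cons j v ih => exact ((h j).mul ih).cexp

theorem exists_hdtl {X κ : Type} (w : κ → List X) (hw : Function.Injective w) (n : ℕ) (hn : ∀ y, n + 1 ≤ (w y).length) :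
    ∃ (hd : κ → X) (tl : κ → List X), (∀ y, w y = hd y :: tl y) ∧ (Function.Injective fun y => (hd y, tl y)) ∧
      ∀ y, n ≤ (tl y).length := by
  have h : ∀ y, ∃ p : X × List X, w y = p.1 :: p.2 := by
    intro y
    have h1 := hn y
    match h2 : w y with
    | [] => rw [h2] at h1; simp at h1
    | j :: v => exact ⟨(j, v), rfl⟩
  choose p hp using h
  refine ⟨fun y => (p y).1, fun y => (p y).2, hp, ?_, ?_⟩
  · intro y y' h1
    apply hw
    simp only [Prod.mk.injEq] at h1
    rw [hp y, hp y', h1.1, h1.2]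
  · intro y
    have h1 := hn y
    rw [hp y, List.length_cons] at h1
    show n ≤ (p y).2.length
    omega

/-- towers with bases `e^(x_j)` -/
theorem towB_mv {X : Type} [Fintype X] [DecidableEq X] {κ : Type} [Fintype κ] [DecidableEq κ] (w : κ → List X)
    (hw : Function.Injective w) (hlen : ∀ y, 1 ≤ (w y).length) (U : Set (X → ℂ))
    (hU : ∀ x : X → ℝ, (∀ j, 0 < x j) → (fun j => (x j : ℂ)) ∈ U)
    (p : MvPolynomial κ (MvPolynomial X ℂ)) (hp : ∀ x ∈ U, evM (fun y x => TC x (w y)) x p = 0) : p = 0 := by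
  classical
  obtain ⟨hd, tl, h1, h2, -⟩ := exists_hdtl w hw 0 hlen
  let G : (X → ℤ) → (X → ℝ) → ℝ := fun ν s => ∑ j, (ν j : ℝ) * Real.exp (s j)
  refine mvInd_lines U (fun y x => TC x (w y)) hU {s | ∀ ν, G ν s = 0 → ∀ s', G ν s' = 0}
    (gen_dense G fun ν s _ => Finset.analyticAt_fun_sum _ fun j _ => analyticAt_const.mul (an_coord j s).rexp)
    (fun s y t => Tw (fun j t => Real.exp (s j) * t) (w y) t) ?_ ?_ p hp
  · intro s _ t ht y
    exact TC_real (fun j t => Real.exp (s j) * t) t _ (fun j => rfl) (w y)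
  · intro s hs d
    have h3 := towB_ind (fun j => Real.exp (s j)) (fun j => Real.exp_pos _) (fun ν hν => by
      have h4 := hs ν hν
      funext j
      have h5 := h4 0
      have h6 := h4 (fun j' => if j' = j then Real.log 2 else 0)
      simp only [G, Pi.zero_apply, Real.exp_zero, mul_one] at h5
      have h7 : ∀ j', (ν j' : ℝ) * Real.exp (if j' = j then Real.log 2 else 0) =
          (ν j' : ℝ) + if j' = j then (ν j' : ℝ) else 0 := by
        intro j'
        by_cases hj : j' = j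
        · rw [if_pos hj, if_pos hj, Real.exp_log two_pos]
          ring
        · rw [if_neg hj, if_neg hj, Real.exp_zero]
          ring
      simp only [G] at h6
      rw [Finset.sum_congr rfl fun j' _ => h7 j', Finset.sum_add_distrib, h5, zero_add,
        Finset.sum_ite_eq' Finset.univ j, if_pos (Finset.mem_univ j)] at h6
      exact_mod_cast h6) hd tl h2 d
    have h4 : ∀ y, w y = hd y :: tl y := h1
    intro q hq
    refine h3 q fun t ht => ?_
    rw [← hq t ht]
    refine Finset.sum_congr rfl fun e _ => ?_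
    congr 1
    refine Finset.prod_congr rfl fun y _ => ?_
    rw [h4 y]

/-- towers with bases `θ_j x_j` -/
theorem towA_mv {X : Type} [Fintype X] [DecidableEq X] (θ : X → ℝ) (hθ : ∀ j, 0 < θ j) {κ : Type} [Fintype κ]
    [DecidableEq κ] (w : κ → List X)
    (hw : Function.Injective w) (hlen : ∀ y, 2 ≤ (w y).length) (U : Set (X → ℂ))
    (hU : ∀ x : X → ℝ, (∀ j, 0 < x j) → (fun j => (x j : ℂ)) ∈ U)
    (p : MvPolynomial κ (MvPolynomial X ℂ))
    (hp : ∀ x ∈ U, evM (fun y x => TC (fun j => Complex.log (θ j * x j)) (w y)) x p = 0) : p = 0 := by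
  classical
  obtain ⟨hd, tl, h1, h2, h2'⟩ := exists_hdtl w hw 1 hlen
  let G : ((X → ℤ) ⊕ (X × X → ℤ)) → (X → ℝ) → ℝ := fun q => match q with
    | Sum.inl ν => fun s => ∑ j, (ν j : ℝ) * (s j + Real.log (θ j))
    | Sum.inr ν => fun s => ∑ q : X × X, (ν q : ℝ) * ((s q.1 + Real.log (θ q.1)) * Real.exp (s q.2 + Real.log (θ q.2)))
  have hG : ∀ q, AnalyticOnNhd ℝ (G q) univ := by
    intro q s _
    rcases q with ν | ν
    · exact Finset.analyticAt_fun_sum _ fun j _ => analyticAt_const.mul ((an_coord j s).add analyticAt_const)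
    · exact Finset.analyticAt_fun_sum _ fun q _ => analyticAt_const.mul
        (((an_coord q.1 s).add analyticAt_const).mul ((an_coord q.2 s).add analyticAt_const).rexp)
  refine mvInd_lines U (fun y x => TC (fun j => Complex.log (θ j * x j)) (w y)) hU
    {s | ∀ q, G q s = 0 → ∀ s', G q s' = 0} (gen_dense G hG)
    (fun s y t => Tw (fun j t => Real.log t + (s j + Real.log (θ j))) (w y) t) ?_ ?_ p hp
  · intro s _ t ht y
    have ht0 : 0 < t := lt_of_lt_of_le one_pos ht.1
    refine TC_real (fun j t => Real.log t + (s j + Real.log (θ j))) t _ (fun j => ?_) (w y)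
    have h5 : (θ j : ℂ) * ((Real.exp (s j) * t : ℝ) : ℂ) = ((θ j * (Real.exp (s j) * t) : ℝ) : ℂ) := by push_cast; rfl
    rw [h5, ← Complex.ofReal_log (mul_pos (hθ j) (mul_pos (Real.exp_pos _) ht0)).le,
      Real.log_mul (hθ j).ne' (mul_pos (Real.exp_pos _) ht0).ne', Real.log_mul (Real.exp_ne_zero _) ht0.ne',
      Real.log_exp]
    congr 1
    ring
  · intro s hs d
    have h3 := towA_ind (fun j => s j + Real.log (θ j)) (fun ν hν => by
      have h4 := hs (Sum.inl ν) hν
      funext j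
      have h5 := h4 (fun j' => (if j' = j then 1 else 0) - Real.log (θ j'))
      simp only [G, sub_add_cancel, mul_ite, mul_one, mul_zero, Finset.sum_ite_eq', Finset.mem_univ, if_true] at h5
      exact_mod_cast h5) (fun ν hν => by
      have h4 := hs (Sum.inr ν) hν
      have h5 := exp_lin (X := X) (σ := X × X) Finset.univ (fun q j => if j = q.2 then 1 else 0)
        (fun q j => if j = q.1 then 1 else 0) (by
          rintro ⟨a, b⟩ _ ⟨a', b'⟩ _ h6 h7
          have h8 := congrFun h6 b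
          have h9 := congrFun h7 a
          simp only [if_true] at h8 h9
          have h10 : b = b' := by
            by_contra hne
            rw [if_neg hne] at h8
            exact one_ne_zero h8
          have h11 : a = a' := by
            by_contra hne
            rw [if_neg hne] at h9
            exact one_ne_zero h9
          rw [h10, h11]) (fun q => (ν q : ℝ)) (by
          intro s'
          have h6 := h4 (fun j => s' j - Real.log (θ j))
          simp only [G, sub_add_cancel] at h6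
          refine Eq.trans (Finset.sum_congr rfl fun q _ => ?_) h6
          congr 1
          rw [mul_comm (s' q.1)]
          congr 1
          · congr 1
            simp only [Nat.cast_ite, Nat.cast_one, Nat.cast_zero, ite_mul, one_mul, zero_mul, Finset.sum_ite_eq',
              Finset.mem_univ, if_true]
          · rw [Finset.prod_eq_single q.1]
            · rw [if_pos rfl, pow_one]
            · intro j _ hj
              rw [if_neg hj, pow_zero]
            · intro h7
              exact absurd (Finset.mem_univ _) h7)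
      funext q
      have h6 := h5 q (Finset.mem_univ q)
      exact_mod_cast h6) hd tl (fun y h4 => by
        have h5 := h2' y
        rw [h4] at h5
        simp at h5) h2 d
    intro q hq
    refine h3 q fun t ht => ?_
    rw [← hq t ht]
    refine Finset.sum_congr rfl fun e _ => ?_
    congr 1
    refine Finset.prod_congr rfl fun y _ => ?_
    rw [h1 y]

/-- few relations between towers with bases `e^(x_j)` -/
theorem fewB {X : Type} [Fintype X] [DecidableEq X] [Nonempty X] {κ : Type} [Finite κ] (w : κ → List X)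
    (hw : Function.Injective w) (hlen : ∀ y, 1 ≤ (w y).length)
    (Lc : Set (X → ℂ)) (hLc : IsCompact Lc) (m g d : ℕ) (A ε : ℝ) (hε : 0 < ε) :
    ∃ (D : ℕ) (C T₀ : ℝ), ∀ (F : Type) [Field F] [NumberField F], Module.finrank ℚ F ≤ m → ∀ (ι : F →+* ℂ)
      (ξ : Fin g → ℂ) (T : ℝ), T₀ ≤ T → ∃ Φ : Finset (MvPolynomial X ℂ), (Φ.card : ℝ) ≤ C * T ^ ε ∧
        (∀ Q ∈ Φ, Q ≠ 0 ∧ Q.totalDegree ≤ D) ∧
        ∀ x : X → F, (fun j => ι (x j)) ∈ Lc →
          (∀ j, ∃ a b : 𝓞 F, b ≠ 0 ∧ (∀ φ : F →+* ℂ, ‖φ a‖ ≤ T ∧ ‖φ b‖ ≤ T) ∧ x j = a / b) →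
          (∀ Q ∈ Φ, MvPolynomial.eval (fun j => ι (x j)) Q ≠ 0) →
          ∀ P : MvPolynomial κ ℂ, P ≠ 0 → (∀ y, P.degreeOf y ≤ d) →
            (∀ s, ∃ c : Fin g → 𝓞 F, (∀ a (φ : F →+* ℂ), ‖φ (c a)‖ ≤ T ^ A) ∧ P.coeff s = ∑ a, ξ a * ι (c a)) →
            MvPolynomial.aeval (fun y => TC (fun j => ι (x j)) (w y)) P ≠ 0 := by
  classical
  haveI : Fintype κ := Fintype.ofFinite κ
  exact mvFew (U := univ) (f := fun y x => TC x (w y)) isPreconnected_univ isOpen_univ univ_nonempty
    (fun y x _ => TC_an (fun j x => x j) x (fun j =>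
      (ContinuousLinearMap.proj (R := ℂ) (φ := fun _ : X => ℂ) j).analyticAt x) (w y))
    (towB_mv w hw hlen univ fun _ _ => mem_univ _) Lc hLc (subset_univ _) m g d A ε hε

/-- few relations between towers with bases `θ_j x_j` -/
theorem fewA {X : Type} [Fintype X] [DecidableEq X] [Nonempty X] (θ : X → ℝ) (hθ : ∀ j, 0 < θ j) {κ : Type}
    [Finite κ] (w : κ → List X)
    (hw : Function.Injective w) (hlen : ∀ y, 2 ≤ (w y).length)
    (Lc : Set (X → ℂ)) (hLc : IsCompact Lc) (hLU : ∀ x ∈ Lc, ∀ j, x j ∈ Complex.slitPlane)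
    (m g d : ℕ) (A ε : ℝ) (hε : 0 < ε) :
    ∃ (D : ℕ) (C T₀ : ℝ), ∀ (F : Type) [Field F] [NumberField F], Module.finrank ℚ F ≤ m → ∀ (ι : F →+* ℂ)
      (ξ : Fin g → ℂ) (T : ℝ), T₀ ≤ T → ∃ Φ : Finset (MvPolynomial X ℂ), (Φ.card : ℝ) ≤ C * T ^ ε ∧
        (∀ Q ∈ Φ, Q ≠ 0 ∧ Q.totalDegree ≤ D) ∧
        ∀ x : X → F, (fun j => ι (x j)) ∈ Lc →
          (∀ j, ∃ a b : 𝓞 F, b ≠ 0 ∧ (∀ φ : F →+* ℂ, ‖φ a‖ ≤ T ∧ ‖φ b‖ ≤ T) ∧ x j = a / b) →
          (∀ Q ∈ Φ, MvPolynomial.eval (fun j => ι (x j)) Q ≠ 0) →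
          ∀ P : MvPolynomial κ ℂ, P ≠ 0 → (∀ y, P.degreeOf y ≤ d) →
            (∀ s, ∃ c : Fin g → 𝓞 F, (∀ a (φ : F →+* ℂ), ‖φ (c a)‖ ≤ T ^ A) ∧ P.coeff s = ∑ a, ξ a * ι (c a)) →
            MvPolynomial.aeval (fun y => TC (fun j => Complex.log (θ j * ι (x j))) (w y)) P ≠ 0 := by
  classical
  haveI : Fintype κ := Fintype.ofFinite κ
  obtain ⟨h1, h2, h3, h4⟩ := prod_dom (X := X) (fun _ => Complex.slitPlane) (fun _ => slit_dom.1) (fun _ => slit_dom.2.1)
    (fun _ => slit_dom.2.2)
  refine mvFew (f := fun y x => TC (fun j => Complex.log (θ j * x j)) (w y)) h1 h2 h3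
    (fun y x hx => TC_an (fun j x => Complex.log (θ j * x j)) x (fun j => ?_) (w y))
    (towA_mv θ hθ w hw hlen _ h4) Lc hLc (fun x hx j _ => hLU x hx j) m g d A ε hε
  refine AnalyticAt.clog (analyticAt_const.mul
    ((ContinuousLinearMap.proj (R := ℂ) (φ := fun _ : X => ℂ) j).analyticAt x)) ?_
  have h5 := hx j (mem_univ j)
  rw [Complex.mem_slitPlane_iff] at h5 ⊢
  simp only [ContinuousLinearMap.proj_apply, Complex.re_ofReal_mul, Complex.im_ofReal_mul]
  rcases h5 with h6 | h6
  · exact Or.inl (mul_pos (hθ j) h6)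
  · exact Or.inr (mul_ne_zero (hθ j).ne' h6)

end Pool.Agent.Q23.MV
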