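import Pool.Agent.Q23.MV.LocG
import Pool.Agent.Q23.ZZ.Loc

/-!
# The functions `L^(l)(k·x + y, χ)`, `exp(L·x)` of several variables
-/

set_option autoImplicit false

open Set Filter Topology NumberField

namespace Pool.Agent.Q23.MV

open Pool.Agent.TH818.AP Pool.Agent.Y771 Pool.Agent.Y890.MV Pool.Agent.Q23.ZZ

/-- subfamilies -/
theorem locInd_inj {κ κ' : Type} (e : κ → κ') (he : Function.Injective e) (f : κ → ℂ → ℂ) (g : κ' → ℂ → ℂ) (t0 : ℂ)
    (hfg : ∀ y z, f y z = g (e y) z) (h : Y124.LocInd g t0) : Y124.LocInd f t0 := by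
  intro P hP
  have h1 : MvPolynomial.rename (Option.map e) P = 0 := by
    refine h _ ?_
    filter_upwards [hP] with t ht
    rw [MvPolynomial.eval_rename, ← ht]
    congr 2
    funext o
    rcases o with _ | y
    · rfl
    · exact (hfg y t).symm
  exact MvPolynomial.rename_injective _ (Option.map_injective he) (by rw [h1, map_zero])

/-- the points where no `k_i·x + y_i` is `1` -/
def DomZ {X : Type} [Fintype X] {r : ℕ} (k : Fin r → X → ℕ) (y : Fin r → ℝ) : Set (X → ℂ) :=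
  {x | ∀ i, ∑ j, (k i j : ℂ) * x j + y i ≠ 1}

theorem domZ_open {X : Type} [Fintype X] {r : ℕ} (k : Fin r → X → ℕ) (y : Fin r → ℝ) : IsOpen (DomZ k y) := by
  have h1 : DomZ k y = ⋂ i, {x : X → ℂ | ∑ j, (k i j : ℂ) * x j + y i ≠ 1} := by
    ext x
    simp [DomZ]
  rw [h1]
  refine isOpen_iInter_of_finite fun i => isOpen_ne_fun ?_ continuous_const
  exact (continuous_finset_sum _ fun j _ => continuous_const.mul (continuous_apply j)).add continuous_const

theorem domZ_conn {X : Type} [Fintype X] {r : ℕ} (k : Fin r → X → ℕ) (y : Fin r → ℝ) :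
    IsPreconnected (DomZ k y) := by
  refine isPreconnected_of_forall_pair fun p hp q hq => ?_
  have hlin : ∀ (i : Fin r) (z : ℂ), ∑ j, (k i j : ℂ) * (p j + z * (q j - p j)) + y i =
      (∑ j, (k i j : ℂ) * (q j - p j)) * z + (∑ j, (k i j : ℂ) * p j + y i) := by
    intro i z
    simp only [mul_add, Finset.sum_add_distrib, Finset.sum_mul]
    have h1 : ∑ j, (k i j : ℂ) * (z * (q j - p j)) = ∑ j, (k i j : ℂ) * (q j - p j) * z :=
      Finset.sum_congr rfl fun j _ => by ring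
    rw [h1]
    ring
  refine ⟨(fun z : ℂ => fun j => p j + z * (q j - p j)) ''
    {z : ℂ | ∀ i, (∑ j, (k i j : ℂ) * (q j - p j)) * z + (∑ j, (k i j : ℂ) * p j + y i) ≠ 1}, ?_, ?_, ?_, ?_⟩
  · rintro _ ⟨z, hz, rfl⟩ i
    rw [hlin]
    exact hz i
  · refine ⟨0, fun i => ?_, by simp⟩
    rw [mul_zero, zero_add]
    exact hp i
  · refine ⟨1, fun i => ?_, by simp⟩
    have h1 := hlin i 1
    simp only [one_mul, add_sub_cancel] at h1
    rw [← h1]
    exact hq i
  · refine IsPreconnected.image ?_ _ (continuous_pi fun j =>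
      continuous_const.add (continuous_id.mul continuous_const)).continuousOn
    have h1 : {z : ℂ | ∀ i, (∑ j, (k i j : ℂ) * (q j - p j)) * z + (∑ j, (k i j : ℂ) * p j + y i) ≠ 1} =
        (⋃ i, {z | (∑ j, (k i j : ℂ) * (q j - p j)) * z + (∑ j, (k i j : ℂ) * p j + y i) = 1})ᶜ := by
      ext z
      simp only [Set.mem_compl_iff, Set.mem_iUnion, Set.mem_ofPred_eq]
      push Not
      rfl
    rw [h1]
    have h2 : (⋃ i, {z | (∑ j, (k i j : ℂ) * (q j - p j)) * z + (∑ j, (k i j : ℂ) * p j + y i) = 1}).Countable := by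
      refine Set.countable_iUnion fun i => ?_
      by_cases h0 : ∑ j, (k i j : ℂ) * (q j - p j) = 0
      · have h3 : {z : ℂ | (∑ j, (k i j : ℂ) * (q j - p j)) * z + (∑ j, (k i j : ℂ) * p j + y i) = 1} = ∅ := by
          rw [Set.eq_empty_iff_forall_notMem]
          intro z hz
          rw [Set.mem_ofPred_eq, h0, zero_mul, zero_add] at hz
          exact hp i hz
        rw [h3]
        exact Set.countable_empty
      · refine (Set.countable_singleton ((1 - (∑ j, (k i j : ℂ) * p j + y i)) /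
          (∑ j, (k i j : ℂ) * (q j - p j)))).mono ?_
        intro z hz
        rw [Set.mem_ofPred_eq] at hz
        rw [Set.mem_singleton_iff, eq_div_iff h0]
        linear_combination hz
    refine (Set.Countable.isConnected_compl_of_one_lt_rank ?_ h2).isPreconnected
    rw [Complex.rank_real_complex]
    norm_num

/-- large real points -/
theorem domZ_real {X : Type} [Fintype X] {r : ℕ} (k : Fin r → X → ℕ) (hk : ∀ i, k i ≠ 0) (y : Fin r → ℝ) :
    ∃ x0 : X → ℝ, ∀ x : X → ℝ, (∀ j, |x j - x0 j| < 1) → (fun j => (x j : ℂ)) ∈ DomZ k y := by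
  refine ⟨fun _ => 3 + ∑ i, |y i|, fun x hx i h0 => ?_⟩
  have h1 : ∑ j, (k i j : ℂ) * (x j : ℂ) + y i = ((∑ j, (k i j : ℝ) * x j + y i : ℝ) : ℂ) := by
    push_cast
    rfl
  rw [h1] at h0
  have h2 : ∑ j, (k i j : ℝ) * x j + y i = 1 := by exact_mod_cast h0
  have hx1 : ∀ j, 2 + ∑ i, |y i| < x j := fun j => by
    have := (abs_lt.1 (hx j)).1
    linarith
  have hy0 : 0 ≤ ∑ i, |y i| := Finset.sum_nonneg fun _ _ => abs_nonneg _
  obtain ⟨j0, hj0⟩ := Function.ne_iff.1 (hk i)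
  have h3 : (1 : ℝ) ≤ k i j0 := by exact_mod_cast Nat.pos_of_ne_zero hj0
  have h4 : (k i j0 : ℝ) * x j0 ≤ ∑ j, (k i j : ℝ) * x j :=
    Finset.single_le_sum (f := fun j => (k i j : ℝ) * x j)
      (fun j _ => mul_nonneg (Nat.cast_nonneg _) (by linarith [hx1 j])) (Finset.mem_univ j0)
  have h5 : |y i| ≤ ∑ i, |y i| := Finset.single_le_sum (f := fun i => |y i|) (fun _ _ => abs_nonneg _) (Finset.mem_univ i)
  have h6 := neg_abs_le (y i)
  have h7 := hx1 j0
  nlinarith

/-- the functions `L^(l)(k_i·x + y_i, χ_j)` -/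
noncomputable def zM {X : Type} [Fintype X] {N c r : ℕ} [NeZero N] (s : ℕ) (χ : Fin c → DirichletCharacter ℂ N)
    (k : Fin r → X → ℕ) (y : Fin r → ℝ) (p : Fin r × (Fin c × Fin s)) (x : X → ℂ) : ℂ :=
  Lf (χ p.2.1) (p.2.2 : ℕ) (∑ j, (k p.1 j : ℂ) * x j + y p.1)

theorem zM_an {X : Type} [Fintype X] {N c r : ℕ} [NeZero N] (s : ℕ) (χ : Fin c → DirichletCharacter ℂ N)
    (k : Fin r → X → ℕ) (y : Fin r → ℝ) (p : Fin r × (Fin c × Fin s)) :
    AnalyticOnNhd ℂ (zM s χ k y p) (DomZ k y) := by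
  intro x hx
  refine AnalyticAt.comp (g := Lf (χ p.2.1) (p.2.2 : ℕ)) (f := fun x : X → ℂ => ∑ j, (k p.1 j : ℂ) * x j + y p.1)
    (Lf_an _ _ (Or.inl (hx _))) ?_
  exact (Finset.analyticAt_fun_sum _ fun j _ => analyticAt_const.mul
      ((ContinuousLinearMap.proj (R := ℂ) (φ := fun _ : X => ℂ) j).analyticAt x)).add analyticAt_const

/-- algebraic independence -/
theorem zM_ind {X τ : Type} [Fintype X] [DecidableEq X] [Fintype τ] [DecidableEq τ] {N c r : ℕ} [NeZero N] (s : ℕ)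
    (χ : Fin c → DirichletCharacter ℂ N) (hχ : Function.Injective χ)
    (k : Fin r → X → ℕ) (hk : ∀ i, k i ≠ 0) (y : Fin r → ℝ) (hky : Function.Injective fun i => (k i, y i))
    (L : τ → X → ℝ) (hL : ∀ m : τ → ℤ, (∀ j, ∑ i, (m i : ℝ) * L i j = 0) → m = 0)
    (B : AddSubgroup ℝ) (hLB : ∀ i j, L i j ∈ B)
    (hB : ∀ β ∈ B, ∀ a b : ℕ, 1 ≤ a → 1 ≤ b → β = Real.log a - Real.log b → β = 0)
    (p : MvPolynomial ((Fin r × (Fin c × Fin s)) ⊕ τ) (MvPolynomial X ℂ))
    (hp : ∀ x ∈ DomZ k y, evM (Sum.elim (zM s χ k y) fun i x => Complex.exp (∑ j, (L i j : ℂ) * x j)) x p = 0) :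
    p = 0 := by
  classical
  refine mvLineG (ν := Fin r) (DomZ k y) (domZ_open k y) (zM s χ k y) L hL (fun i j => (k i j : ℝ))
    (fun i h0 => hk i (funext fun j => by
      have h1 : (k i j : ℝ) = 0 := congrFun h0 j
      have h2 : k i j = 0 := by exact_mod_cast h1
      exact h2)) B hLB (fun v hv => ?_) p hp
  -- the multipliers
  set Kv : Fin r → ℕ := fun i => ∑ j, k i j * v j with hKv
  have hKv0 : ∀ i, 1 ≤ Kv i := by
    intro i
    rw [Nat.one_le_iff_ne_zero]
    intro h0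
    apply hv i
    have h1 : ((Kv i : ℕ) : ℝ) = 0 := by rw [h0, Nat.cast_zero]
    rw [← h1]
    simp only [hKv]
    push_cast
    rfl
  obtain ⟨x0, hx0⟩ := domZ_real k hk y
  refine ⟨{u | ∃ w : X → ℝ, (fun j => (w j : ℂ)) = u ∧ u ∈ DomZ k y ∧
    ∀ i : {q : Fin r × Fin r // k q.1 ≠ k q.2}, ∑ j, ((k i.1.1 j : ℝ) - k i.1.2 j) * w j ≠ y i.1.2 - y i.1.1},
    fun u hu => ?_, fun P hP => ?_, ?_⟩
  · obtain ⟨w, -, hu2, -⟩ := hu
    exact hu2
  · refine dense_real (ι := {q : Fin r × Fin r // k q.1 ≠ k q.2}) (DomZ k y) x0 1 one_pos hx0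
      (fun i j => (k i.1.1 j : ℝ) - k i.1.2 j) (fun i h0 => i.2 (funext fun j => by
        have h1 := congrFun h0 j
        simp only [Pi.zero_apply] at h1
        exact_mod_cast sub_eq_zero.1 h1)) (fun i => y i.1.2 - y i.1.1) P fun w hw hw2 => ?_
    exact hP _ ⟨w, rfl, hw, hw2⟩
  · rintro _ ⟨w, rfl, hu, hw⟩ ρ b hbB hb
    -- the shifts
    set sh : Fin r → ℝ := fun i => ∑ j, (k i j : ℝ) * w j + y i with hsh
    have hshi : Function.Injective sh := by
      intro i i' h1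
      by_cases hkk : k i = k i'
      · refine hky (Prod.ext hkk ?_)
        simp only [hsh, hkk] at h1
        exact add_left_cancel h1
      · exfalso
        refine hw ⟨(i, i'), hkk⟩ ?_
        simp only [sub_mul, Finset.sum_sub_distrib]
        simp only [hsh] at h1
        linarith
    set K : ℕ := ∑ i, Kv i with hK
    have hKle : ∀ i, Kv i ≤ K := fun i => Finset.single_le_sum (f := Kv) (fun _ _ => Nat.zero_le _) (Finset.mem_univ i)
    have hcast : ∀ i, ((sh i : ℝ) : ℂ) = ∑ j, (k i j : ℂ) * (w j : ℂ) + y i := by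
      intro i
      simp only [hsh]
      push_cast
      rfl
    have hloc := funZ_loc (K := K) (s := s) χ hχ sh hshi b (by
      intro e e' a a' ha ha' h1
      have h2 : ∑ j, ((e j : ℤ) - (e' j : ℤ) : ℤ) * b j = Real.log a' - Real.log a := by
        push_cast
        simp only [sub_mul, Finset.sum_sub_distrib]
        linarith
      have h3 : ∑ j, (((e j : ℤ) - (e' j : ℤ) : ℤ) : ℝ) * b j ∈ B := sum_mem fun j _ => by
        have h4 := B.zsmul_mem (hbB j) ((e j : ℤ) - (e' j : ℤ))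
        rwa [zsmul_eq_mul] at h4
      have h4 := hB _ h3 a' a ha' ha (by exact_mod_cast h2)
      have h5 := hb (fun j => (e j : ℤ) - (e' j : ℤ)) h4
      funext j
      have h6 := congrFun h5 j
      simp only [Pi.zero_apply] at h6
      omega) 0 (by
      intro q i
      rw [mul_zero, zero_add, hcast]
      exact hu i)
    refine locInd_inj (fun a : (Fin r × (Fin c × Fin s)) ⊕ Fin ρ => Sum.elim
      (fun p : Fin r × (Fin c × Fin s) =>
        (Sum.inl (p.2.1, ((⟨Kv p.1 - 1, by have := hKv0 p.1; have := hKle p.1; omega⟩ : Fin K), (p.1, p.2.2))) :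
          Iz c K r s ⊕ Fin ρ)) Sum.inr a) ?_ _ _ 0 (fun a z => ?_) hloc
    · rintro (⟨i, j, l⟩ | a) (⟨i', j', l'⟩ | a') h1
      · simp only [Sum.elim_inl, Sum.inl.injEq, Prod.mk.injEq] at h1
        rw [h1.1, h1.2.2.1, h1.2.2.2]
      · simp at h1
      · simp at h1
      · simpa using h1
    · rcases a with ⟨i, j, l⟩ | l
      · change Lf (χ j) (l : ℕ) (∑ j, (k i j : ℂ) * ((w j : ℂ) + z * (v j : ℂ)) + y i) =
          Lf (χ j) (l : ℕ) ((((Kv i - 1 : ℕ) + 1 : ℕ) : ℂ) * z + (sh i : ℂ))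
        congr 1
        rw [Nat.sub_add_cancel (hKv0 i), hcast]
        simp only [hKv]
        push_cast
        simp only [mul_add, Finset.sum_add_distrib, Finset.sum_mul]
        have h1 : ∑ j, (k i j : ℂ) * (z * (v j : ℂ)) = ∑ j, (k i j : ℂ) * (v j : ℂ) * z :=
          Finset.sum_congr rfl fun j _ => by ring
        rw [h1]
        ring
      · rfl

end Pool.Agent.Q23.MV
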